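import Pool.Agent.Helper1.Hist.CSide

/-! Assembling the snark from the data of the two sides. -/

namespace Pool.Agent.Helper1.Hist

open BT

variable {B C : BT}
variable {nB : List B.V} {nC : List C.V} {h1 h2 : Fin 6 → W B C}
variable [NeZero nB.length] [NeZero nC.length] {sB : Fin nB.length} {sC : Fin nC.length}

/-- the hexagon contains the two gadget leaves `p`, `q` and some leaf of the side `B` -/
structure HexHas (h : Fin 6 → W B C) (p q : C.V) : Prop where
  b : ∃ k x, h k = Sum.inl x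
  p : ∃ k, h k = Sum.inr p
  q : ∃ k, h k = Sum.inr q

theorem sides_of {p1 q1 p2 q2 : C.V} (cd : CData C nC p1 q1 p2 q2) (H1 : HexHas h1 p1 q1)
    (H2 : HexHas h2 p2 q2) (stC : Step nC.length sC.val)
    (MB : ∀ (X : B.V → Bool) (a b1 b2 : Bool), (∀ x ∈ nB, X x = a) →
      (∀ k x, h1 k = Sum.inl x → X x = b1) → (∀ k x, h2 k = Sum.inl x → X x = b2) →
      2 * dB a b1 + 2 * dB a b2 ≤ B.cr X)
    (SB : ∀ (X : W B C → Bool) (b : Bool), (∀ y, X (Sum.inr y) = b) → X (Sum.inl B.root) = b →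
      B.cr (fun x => X (Sum.inl x)) = 1 →
      (∀ x, B.IsLf x → x ≠ B.root → X (Sum.inl x) = X (Sum.inl (B.par x))) →
      4 ≤ oW (posD nB nC h1 h2) (tauD nB nC sB sC) X) :
    Sides nB nC h1 h2 sB sC := by
  obtain ⟨kp1, hp1⟩ := H1.p
  obtain ⟨kq1, hq1⟩ := H1.q
  obtain ⟨kp2, hp2⟩ := H2.p
  obtain ⟨kq2, hq2⟩ := H2.q
  refine ⟨MB, ?_, SB, ?_, H1.b, H2.b, ⟨kp1, p1, hp1⟩, ⟨kp2, p2, hp2⟩⟩
  · intro X a b1 b2 hX e1 e2
    exact cd.M X a b1 b2 hX (e1 _ _ hp1) (e1 _ _ hq1) (e2 _ _ hp2) (e2 _ _ hq2)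
  · intro X b hB' hr hcr hp
    have key : ∀ (h : Fin 6 → W B C) (p q : C.V), HexHas h p q →
        ¬ (X (Sum.inr p) = b ∧ X (Sum.inr q) = b) → 2 ≤ cc 1 (fun k => X (h k)) := by
      intro h p q hh hne
      obtain ⟨k, x, hk⟩ := hh.b
      obtain ⟨kp, hp⟩ := hh.p
      obtain ⟨kq, hq⟩ := hh.q
      by_cases c1 : X (Sum.inr p) = b
      · have c2 : X (Sum.inr q) ≠ b := fun h => hne ⟨c1, h⟩
        apply two_le_cc6 (i := kq) (j := k)
        simp only [hq, hk, hB']
        exact c2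
      · apply two_le_cc6 (i := kp) (j := k)
        simp only [hp, hk, hB']
        exact c1
    rw [oW_eq]
    rcases cd.S sC stC (fun y => X (Sum.inr y)) b hr hcr hp with ⟨f1, f2⟩ | ⟨f, f3⟩ | f
    · have := key h1 p1 q1 H1 f1
      have := key h2 p2 q2 H2 f2
      omega
    · rcases f with f | f
      · have := key h1 p1 q1 H1 f
        omega
      · have := key h2 p2 q2 H2 f
        omega
    · omega

theorem snark_final {p1 q1 p2 q2 : C.V} (hB : B ≠ leaf) (hC : C ≠ leaf)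
    (hH : (H B C).IsAcyclic) (coB : Nat.Coprime sB.val nB.length)
    (coC : Nat.Coprime sC.val nC.length)
    (hg : Good (posD nB nC h1 h2) (tauD nB nC sB sC))
    (cd : CData C nC p1 q1 p2 q2) (hs : Sides nB nC h1 h2 sB sC)
    (hcol : ∀ g h, ColFacts (posD nB nC h1 h2) (tauD nB nC sB sC) g h →
      g (Sum.inr p1) = g (Sum.inr q1) ∧ g (Sum.inr p2) = g (Sum.inr q2)) :
    IsSnark (GG (posD nB nC h1 h2) (tauD nB nC sB sC)) := by
  refine ⟨GG_cubic hB hC hg, cyc4 hB hC hg hH (fun X hX => claimK hg coB coC hs X hX),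
    GG_girth hB hC hg hH, ?_⟩
  intro hc
  obtain ⟨g, h, cf⟩ := exists_colFacts hB hC hg hc
  obtain ⟨e1, e2⟩ := hcol g h cf
  have rs := root_sum C (fun y => g (Sum.inr y)) (fun x hx => cf.g_node (Sum.inr x) hx)
  have hperm := (cd.perm.map (fun y => g (Sum.inr y))).sum_eq
  rw [← hperm, List.map_append, List.sum_append] at rs
  have z1 : (nC.map (fun y => g (Sum.inr y))).sum = 0 := by
    rw [← Fin.sum_univ_fun_getElem nC (fun y => g (Sum.inr y))]
    have t1 : ∀ i : Fin nC.length, g (Sum.inr nC[i.1]) =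
        (fun i => g (posD nB nC h1 h2 (Sum.inr (Sum.inl i)))) i := fun i => rfl
    rw [Finset.sum_congr rfl (fun i _ => t1 i)]
    rw [← Equiv.sum_comp (Equiv.addRight sC) (fun i => g (posD nB nC h1 h2 (Sum.inr (Sum.inl i))))]
    have t2 : ∀ i : Fin nC.length, g (posD nB nC h1 h2 (Sum.inr (Sum.inl (Equiv.addRight sC i)))) =
        h (Sum.inr (Sum.inl (Equiv.addRight sC i))) + h (Sum.inr (Sum.inl i)) := by
      intro i
      exact cf.g_pos (Sum.inr (Sum.inl i))
    rw [Finset.sum_congr rfl (fun i _ => t2 i), Finset.sum_add_distrib,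
      Equiv.sum_comp (Equiv.addRight sC) (fun i => h (Sum.inr (Sum.inl i)))]
    exact K4_two _
  have z2 : ([p1, q1, p2, q2].map (fun y => g (Sum.inr y))).sum = 0 := by
    simp only [List.map_cons, List.map_nil, List.sum_cons, List.sum_nil, add_zero, e1, e2]
    rw [← add_assoc, K4_two, zero_add, K4_two]
  rw [z1, z2, add_zero] at rs
  exact cf.g_ne _ rs

end Pool.Agent.Helper1.Hist
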