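import Pool.Agent.Helper1.Hist.Cross

/-! Separation of leaves in leaf-first trees; cherries. -/

namespace Pool.Agent.Helper1.Hist

open BT

namespace BT

/-- leaf-first normal form -/
def Normal : BT → Prop
  | leaf => True
  | node l r => l.Normal ∧ r.Normal ∧ (r = leaf → l = leaf)

/-- adjacency inside the rooted tree -/
def tadj (t : BT) (u v : t.V) : Prop :=
  (u ≠ t.root ∧ t.par u = v) ∨ (v ≠ t.root ∧ t.par v = u)

theorem getElem?_leaves_node {l r : BT} {i : ℕ} {y : (node l r).V}
    (h : (node l r).leaves[i]? = some y) :
    (i < l.leaves.length ∧ ∃ z, l.leaves[i]? = some z ∧ y = il z) ∨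
    (l.leaves.length ≤ i ∧ ∃ z, r.leaves[i - l.leaves.length]? = some z ∧ y = ir z) := by
  rw [leaves_node, List.getElem?_append] at h
  by_cases hi : i < (l.leaves.map (il (r := r))).length
  · rw [if_pos hi] at h
    left
    rw [List.getElem?_map, Option.map_eq_some_iff] at h
    obtain ⟨z, hz, rfl⟩ := h
    exact ⟨by simpa using hi, z, hz, rfl⟩
  · rw [if_neg hi] at h
    right
    rw [List.getElem?_map, Option.map_eq_some_iff] at h
    obtain ⟨z, hz, rfl⟩ := h
    rw [List.length_map] at hz hi
    exact ⟨by omega, z, hz, rfl⟩

theorem isLf_of_getElem? {t : BT} {i : ℕ} {y : t.V} (h : t.leaves[i]? = some y) : t.IsLf y :=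
  (mem_leaves t y).1 (List.mem_of_getElem? h)

theorem eq_leaf_of_root {t : BT} {i : ℕ} (h : t.leaves[i]? = some t.root) : t = leaf :=
  (isLf_root_iff t).1 (isLf_of_getElem? h)

theorem first_two {t : BT} (hN : t.Normal) {j : ℕ} {y : t.V} (h : t.leaves[j]? = some y)
    (hy : y ≠ t.root) (hp : t.par y = t.root) : j ≤ 1 := by
  cases t with
  | leaf => exact absurd rfl hy
  | node c d =>
    rcases getElem?_leaves_node h with ⟨hj, z, hz, rfl⟩ | ⟨hj, z, hz, rfl⟩
    · rw [par_il, root_node] at hp
      by_cases hzr : z = c.root
      · subst hzr
        have := eq_leaf_of_root hz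
        subst this
        simp at hj
        omega
      · rw [if_neg hzr] at hp; exact absurd hp il_ne_tp
    · rw [par_ir, root_node] at hp
      by_cases hzr : z = d.root
      · subst hzr
        have hd := eq_leaf_of_root hz
        have hc := hN.2.2 hd
        subst hc
        subst hd
        have h1 : j - 1 < 1 := by
          have := (List.getElem?_eq_some_iff.1 hz).1
          simpa using this
        omega
      · rw [if_neg hzr] at hp; exact absurd hp ir_ne_tp

theorem sep : (t : BT) → t.Normal → (i j : ℕ) → (x y : t.V) → i < j →
    t.leaves[i]? = some x → t.leaves[j]? = some y →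
    (t.par x = t.par y → j = i + 1) ∧ (t.tadj (t.par x) (t.par y) → j ≤ i + 2)
  | leaf, _, i, j, x, y, hij, hx, hy => by
      have h1 := (List.getElem?_eq_some_iff.1 hy).1
      simp at h1
      omega
  | node l r, hN, i, j, x, y, hij, hx, hy => by
      rcases getElem?_leaves_node hx with ⟨hi, x', hx', rfl⟩ | ⟨hi, x', hx', rfl⟩
      · rcases getElem?_leaves_node hy with ⟨hj, y', hy', rfl⟩ | ⟨hj, y', hy', rfl⟩
        · -- both in the left child
          have hxr : x' ≠ l.root := by
            rintro rfl
            have := eq_leaf_of_root hx'
            subst this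
            simp at hj
            omega
          have hyr : y' ≠ l.root := by
            rintro rfl
            have := eq_leaf_of_root hy'
            subst this
            simp at hj
            omega
          have ih := sep l hN.1 i j x' y' hij hx' hy'
          rw [par_il, par_il, if_neg hxr, if_neg hyr]
          refine ⟨fun h => ih.1 (il_inj.1 h), fun h => ih.2 ?_⟩
          unfold tadj at h ⊢
          rw [par_il, par_il] at h
          rcases h with ⟨_, h⟩ | ⟨_, h⟩
          · by_cases h2 : l.par x' = l.root
            · rw [if_pos h2] at h; exact absurd h tp_ne_il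
            · rw [if_neg h2] at h; exact Or.inl ⟨h2, il_inj.1 h⟩
          · by_cases h2 : l.par y' = l.root
            · rw [if_pos h2] at h; exact absurd h tp_ne_il
            · rw [if_neg h2] at h; exact Or.inr ⟨h2, il_inj.1 h⟩
        · -- x left, y right
          rw [par_il, par_ir]
          by_cases hxr : x' = l.root
          · subst hxr
            have hl := eq_leaf_of_root hx'
            subst hl
            have hi0 : i = 0 := by simpa using hi
            by_cases hyr : y' = r.root
            · subst hyr
              have hr := eq_leaf_of_root hy'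
              subst hr
              have h1 : j - 1 < 1 := by
                have := (List.getElem?_eq_some_iff.1 hy').1
                simpa using this
              constructor <;> intro _ <;> omega
            · rw [if_neg hyr, if_pos rfl]
              refine ⟨fun h => absurd h tp_ne_ir, fun h => ?_⟩
              unfold tadj at h
              rw [par_tp, par_ir, root_node] at h
              rcases h with ⟨h, _⟩ | ⟨_, h⟩
              · exact absurd rfl h
              · by_cases h2 : r.par y' = r.root
                · have := first_two hN.2.1 hy' hyr h2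
                  simp at this
                  omega
                · rw [if_neg h2] at h; exact absurd h ir_ne_tp
          · rw [if_neg hxr]
            by_cases hyr : y' = r.root
            · subst hyr
              have hr := eq_leaf_of_root hy'
              have hl := hN.2.2 hr
              subst hl
              exact absurd rfl hxr
            · rw [if_neg hyr]
              refine ⟨fun h => absurd h il_ne_ir, fun h => ?_⟩
              unfold tadj at h
              rw [par_il, par_ir] at h
              rcases h with ⟨_, h⟩ | ⟨_, h⟩
              · split_ifs at h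
                · exact absurd h tp_ne_ir
                · exact absurd h il_ne_ir
              · split_ifs at h
                · exact absurd h tp_ne_il
                · exact absurd h ir_ne_il
      · rcases getElem?_leaves_node hy with ⟨hj, y', hy', rfl⟩ | ⟨hj, y', hy', rfl⟩
        · omega
        · have hxr : x' ≠ r.root := by
            rintro rfl
            have := eq_leaf_of_root hx'
            subst this
            have := (List.getElem?_eq_some_iff.1 hy').1
            simp at this
            omega
          have hyr : y' ≠ r.root := by
            rintro rfl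
            have := eq_leaf_of_root hy'
            subst this
            have := (List.getElem?_eq_some_iff.1 hy').1
            simp at this
            omega
          have ih := sep r hN.2.1 (i - l.leaves.length) (j - l.leaves.length) x' y'
            (by omega) hx' hy'
          rw [par_ir, par_ir, if_neg hxr, if_neg hyr]
          refine ⟨fun h => ?_, fun h => ?_⟩
          · have := ih.1 (ir_inj.1 h); omega
          · have := ih.2 (by
              unfold tadj at h ⊢
              rw [par_ir, par_ir] at h
              rcases h with ⟨_, h⟩ | ⟨_, h⟩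
              · by_cases h2 : r.par x' = r.root
                · rw [if_pos h2] at h; exact absurd h tp_ne_ir
                · rw [if_neg h2] at h; exact Or.inl ⟨h2, ir_inj.1 h⟩
              · by_cases h2 : r.par y' = r.root
                · rw [if_pos h2] at h; exact absurd h tp_ne_ir
                · rw [if_neg h2] at h; exact Or.inr ⟨h2, ir_inj.1 h⟩)
            omega

/-- number of cherries -/
def ch : BT → ℕ
  | leaf => 0
  | node l r => if l = leaf ∧ r = leaf then 1 else l.ch + r.ch

/-- `L` contains `k` cherries in succession -/
def HasCh (t : BT) : ℕ → List t.V → Prop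
  | 0, _ => True
  | k + 1, L => ∃ (a : List t.V) (x y : t.V) (r : List t.V), L = a ++ x :: y :: r ∧
      x ≠ t.root ∧ y ≠ t.root ∧ t.par x = t.par y ∧ HasCh t k r

theorem HasCh.append_left {t : BT} {k : ℕ} {L : List t.V} (h : HasCh t k L) (L' : List t.V) :
    HasCh t k (L' ++ L) := by
  cases k with
  | zero => trivial
  | succ k =>
    obtain ⟨a, x, y, r, hL, h1, h2, h3, h4⟩ := h
    exact ⟨L' ++ a, x, y, r, by rw [hL, List.append_assoc], h1, h2, h3, h4⟩

theorem HasCh.append {t : BT} {k k' : ℕ} {L L' : List t.V} (h : HasCh t k L)
    (h' : HasCh t k' L') : HasCh t (k + k') (L ++ L') := by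
  induction k generalizing L with
  | zero => rw [Nat.zero_add]; exact h'.append_left L
  | succ k ih =>
    obtain ⟨a, x, y, r, hL, h1, h2, h3, h4⟩ := h
    rw [Nat.add_right_comm]
    exact ⟨a, x, y, r ++ L', by rw [hL]; simp, h1, h2, h3, ih h4⟩

theorem HasCh.mono {t : BT} {k k' : ℕ} {L : List t.V} (h : HasCh t k L) (hk : k' ≤ k) :
    HasCh t k' L := by
  induction k generalizing L k' with
  | zero =>
    have : k' = 0 := by omega
    subst this; trivial
  | succ k ih =>
    cases k' with
    | zero => trivial
    | succ k' =>
      obtain ⟨a, x, y, r, hL, h1, h2, h3, h4⟩ := h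
      exact ⟨a, x, y, r, hL, h1, h2, h3, ih h4 (by omega)⟩

theorem HasCh.map_il {l r : BT} {k : ℕ} {L : List l.V} (h : HasCh l k L) :
    HasCh (node l r) k (L.map il) := by
  induction k generalizing L with
  | zero => trivial
  | succ k ih =>
    obtain ⟨a, x, y, s, hL, h1, h2, h3, h4⟩ := h
    refine ⟨a.map il, il x, il y, s.map il, by rw [hL]; simp, il_ne_tp, il_ne_tp, ?_, ih h4⟩
    rw [par_il, par_il, if_neg h1, if_neg h2, h3]

theorem HasCh.map_ir {l r : BT} {k : ℕ} {L : List r.V} (h : HasCh r k L) :
    HasCh (node l r) k (L.map ir) := by
  induction k generalizing L with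
  | zero => trivial
  | succ k ih =>
    obtain ⟨a, x, y, s, hL, h1, h2, h3, h4⟩ := h
    refine ⟨a.map ir, ir x, ir y, s.map ir, by rw [hL]; simp, ir_ne_tp, ir_ne_tp, ?_, ih h4⟩
    rw [par_ir, par_ir, if_neg h1, if_neg h2, h3]

theorem hasCh_leaves : (t : BT) → HasCh t t.ch t.leaves
  | leaf => trivial
  | node l r => by
      rw [ch, leaves_node]
      by_cases h : l = leaf ∧ r = leaf
      · rw [if_pos h]
        obtain ⟨rfl, rfl⟩ := h
        refine ⟨[], il leaf.root, ir leaf.root, [], rfl, il_ne_tp, ir_ne_tp, ?_, trivial⟩
        rw [par_il, par_ir, if_pos rfl, if_pos rfl]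
      · rw [if_neg h]
        exact (hasCh_leaves l).map_il.append (hasCh_leaves r).map_ir

/-- separation property of a list of leaves -/
def SepL (t : BT) (L : List t.V) : Prop :=
  ∀ (i j : ℕ) (x y : t.V), i < j → L[i]? = some x → L[j]? = some y →
    (t.par x = t.par y → j = i + 1) ∧ (t.tadj (t.par x) (t.par y) → j ≤ i + 2)

theorem sepL_leaves {t : BT} (h : t.Normal) : SepL t t.leaves := sep t h

theorem SepL.sublist {t : BT} {L L' : List t.V} (h : SepL t L') (hs : L.Sublist L') :
    SepL t L := by
  obtain ⟨f, hf⟩ := List.sublist_iff_exists_orderEmbedding_getElem?_eq.1 hs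
  intro i j x y hij hx hy
  rw [hf] at hx hy
  have h1 := h (f i) (f j) x y (f.lt_iff_lt.2 hij) hx hy
  have h2 : ∀ d, f i + d ≤ f (i + d) := by
    intro d
    induction d with
    | zero => simp
    | succ d ih =>
      have : f (i + d) < f (i + (d + 1)) := f.lt_iff_lt.2 (by omega)
      omega
  have h3 := h2 (j - i)
  rw [Nat.add_sub_cancel' hij.le] at h3
  refine ⟨fun h => ?_, fun h => ?_⟩
  · have := h1.1 h; omega
  · have := h1.2 h; omega

theorem tadj_symm {t : BT} {u v : t.V} (h : t.tadj u v) : t.tadj v u := Or.symm h

end BT

end Pool.Agent.Helper1.Hist
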