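import Pool.Agent.Helper1.Hist.Defs
import Pool.Agent.Helper1.Hist.Sep

/-! The tree `H B C` (two rooted trees joined by an edge at the roots) and the cubic graph `GG`
obtained by adding outer cycles given by a permutation of slots. -/

namespace Pool.Agent.Helper1.Hist

open BT

/-- vertices -/
abbrev W (B C : BT) : Type := B.V ⊕ C.V

/-- upward neighbour; the two roots are joined -/
def up {B C : BT} : W B C → W B C
  | Sum.inl x => if x = B.root then Sum.inr C.root else Sum.inl (B.par x)
  | Sum.inr y => if y = C.root then Sum.inl B.root else Sum.inr (C.par y)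

/-- leaves -/
def IsLfW {B C : BT} : W B C → Prop
  | Sum.inl x => B.IsLf x
  | Sum.inr y => C.IsLf y

/-- children -/
def lcW {B C : BT} : W B C → W B C
  | Sum.inl x => Sum.inl (B.lc x)
  | Sum.inr y => Sum.inr (C.lc y)

/-- children -/
def rcW {B C : BT} : W B C → W B C
  | Sum.inl x => Sum.inl (B.rc x)
  | Sum.inr y => Sum.inr (C.rc y)

theorem par_ne {t : BT} {x : t.V} (h : x ≠ t.root) : t.par x ≠ x := by
  intro h2
  have := depth_par t x h
  rw [h2] at this
  omega

theorem par_par_ne {t : BT} {x : t.V} (h : x ≠ t.root) (h1 : t.par x ≠ t.root) :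
    t.par (t.par x) ≠ x := by
  intro h2
  have := depth_par t x h
  have := depth_par t _ h1
  rw [h2] at this
  omega

theorem up_ne {B C : BT} (u : W B C) : up u ≠ u := by
  rcases u with x | y
  · unfold up
    by_cases h : x = B.root
    · simp [h]
    · simp only [if_neg h]; intro h2; exact par_ne h (Sum.inl.inj h2)
  · unfold up
    by_cases h : y = C.root
    · simp [h]
    · simp only [if_neg h]; intro h2; exact par_ne h (Sum.inr.inj h2)

theorem up_up {B C : BT} {u : W B C} (h : up (up u) = u) :
    u = Sum.inl B.root ∨ u = Sum.inr C.root := by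
  rcases u with x | y
  · by_cases hx : x = B.root
    · left; rw [hx]
    · exfalso
      by_cases h2 : B.par x = B.root
      · simp [up, hx, h2] at h
      · simp only [up, if_neg hx, if_neg h2] at h
        exact par_par_ne hx h2 (Sum.inl.inj h)
  · by_cases hy : y = C.root
    · right; rw [hy]
    · exfalso
      by_cases h2 : C.par y = C.root
      · simp [up, hy, h2] at h
      · simp only [up, if_neg hy, if_neg h2] at h
        exact par_par_ne hy h2 (Sum.inr.inj h)

/-- the tree -/
def H (B C : BT) : SimpleGraph (W B C) where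
  Adj u v := up u = v ∨ up v = u
  symm := ⟨fun _ _ h => Or.symm h⟩
  loopless := ⟨fun u h => by rcases h with h | h <;> exact up_ne u h⟩

theorem H_adj {B C : BT} {u v : W B C} : (H B C).Adj u v ↔ (up u = v ∨ up v = u) := Iff.rfl

theorem isLf_root_ne {B : BT} (hB : B ≠ leaf) : ¬ B.IsLf B.root := by
  rw [isLf_root_iff]; exact hB

theorem not_isLfW_up {B C : BT} (hB : B ≠ leaf) (hC : C ≠ leaf) (u : W B C) :
    ¬ IsLfW (up u) := by
  rcases u with x | y
  · by_cases hx : x = B.root
    · simp only [up, if_pos hx]; exact isLf_root_ne hC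
    · simp only [up, if_neg hx]; exact not_isLf_par B x hx
  · by_cases hy : y = C.root
    · simp only [up, if_pos hy]; exact isLf_root_ne hB
    · simp only [up, if_neg hy]; exact not_isLf_par C y hy

theorem H_adj_leaf {B C : BT} (hB : B ≠ leaf) (hC : C ≠ leaf) {u v : W B C} (hu : IsLfW u) :
    (H B C).Adj u v ↔ v = up u := by
  rw [H_adj]
  constructor
  · rintro (h | h)
    · exact h.symm
    · exfalso; rw [← h] at hu; exact not_isLfW_up hB hC v hu
  · intro h; exact Or.inl h.symm

theorem up_lcW {B C : BT} {u : W B C} (hu : ¬ IsLfW u) : up (lcW u) = u := by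
  rcases u with x | y
  · have := (par_eq_iff B x (B.lc x) hu).2 (Or.inl rfl)
    simp only [lcW, up, if_neg this.1, this.2]
  · have := (par_eq_iff C y (C.lc y) hu).2 (Or.inl rfl)
    simp only [lcW, up, if_neg this.1, this.2]

theorem up_rcW {B C : BT} {u : W B C} (hu : ¬ IsLfW u) : up (rcW u) = u := by
  rcases u with x | y
  · have := (par_eq_iff B x (B.rc x) hu).2 (Or.inr rfl)
    simp only [rcW, up, if_neg this.1, this.2]
  · have := (par_eq_iff C y (C.rc y) hu).2 (Or.inr rfl)
    simp only [rcW, up, if_neg this.1, this.2]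

theorem up_eq {B C : BT} {u v : W B C} (hu : ¬ IsLfW u) (h : up v = u) :
    v = lcW u ∨ v = rcW u ∨ v = up u := by
  rcases u with x | y
  · rcases v with x' | y'
    · by_cases hx : x' = B.root
      · simp [up, hx] at h
      · simp only [up, if_neg hx] at h
        rcases (par_eq_iff B x x' hu).1 ⟨hx, Sum.inl.inj h⟩ with h | h
        · left; rw [h]; rfl
        · right; left; rw [h]; rfl
    · by_cases hy : y' = C.root
      · simp only [up, if_pos hy] at h
        right; right
        have := Sum.inl.inj h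
        simp only [up, this.symm, if_true, hy]
      · simp [up, hy] at h
  · rcases v with x' | y'
    · by_cases hx : x' = B.root
      · simp only [up, if_pos hx] at h
        right; right
        have := Sum.inr.inj h
        simp only [up, this.symm, if_true, hx]
      · simp [up, hx] at h
    · by_cases hy : y' = C.root
      · simp [up, hy] at h
      · simp only [up, if_neg hy] at h
        rcases (par_eq_iff C y y' hu).1 ⟨hy, Sum.inr.inj h⟩ with h | h
        · left; rw [h]; rfl
        · right; left; rw [h]; rfl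

theorem H_adj_nonleaf {B C : BT} {u v : W B C} (hu : ¬ IsLfW u) :
    (H B C).Adj u v ↔ (v = lcW u ∨ v = rcW u ∨ v = up u) := by
  rw [H_adj]
  constructor
  · rintro (h | h)
    · exact Or.inr (Or.inr h.symm)
    · exact up_eq hu h
  · rintro (h | h | h)
    · right; rw [h]; exact up_lcW hu
    · right; rw [h]; exact up_rcW hu
    · left; exact h.symm

theorem lcW_ne_rcW {B C : BT} {u : W B C} (hu : ¬ IsLfW u) : lcW u ≠ rcW u := by
  rcases u with x | y
  · intro h; exact lc_ne_rc B x hu (Sum.inl.inj h)
  · intro h; exact lc_ne_rc C y hu (Sum.inr.inj h)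

theorem lcW_ne_up {B C : BT} {u : W B C} (hu : ¬ IsLfW u) : lcW u ≠ up u := by
  intro h
  have h1 := up_lcW hu
  rw [h] at h1
  rcases up_up h1 with h2 | h2
  · rw [h2] at h; simp [lcW, up] at h
  · rw [h2] at h; simp [lcW, up] at h

theorem rcW_ne_up {B C : BT} {u : W B C} (hu : ¬ IsLfW u) : rcW u ≠ up u := by
  intro h
  have h1 := up_rcW hu
  rw [h] at h1
  rcases up_up h1 with h2 | h2
  · rw [h2] at h; simp [rcW, up] at h
  · rw [h2] at h; simp [rcW, up] at h

/-! ### short cycles in acyclic graphs -/

theorem no_triangle_of_acyclic {V : Type*} {G : SimpleGraph V} (hG : G.IsAcyclic) {a b c : V}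
    (hab : G.Adj a b) (hbc : G.Adj b c) (hca : G.Adj c a) : False := by
  apply hG (SimpleGraph.Walk.cons hab (SimpleGraph.Walk.cons hbc
    (SimpleGraph.Walk.cons hca SimpleGraph.Walk.nil)))
  rw [SimpleGraph.Walk.cons_isCycle_iff]
  have h1 := hab.ne
  have h2 := hbc.ne
  have h3 := hca.ne
  constructor
  · rw [SimpleGraph.Walk.cons_isPath_iff, SimpleGraph.Walk.cons_isPath_iff]
    simp [h1.symm, h2, h3]
  · simp [h1, h2, h3, h1.symm, h2.symm, h3.symm]

theorem no_four_cycle_of_acyclic {V : Type*} {G : SimpleGraph V} (hG : G.IsAcyclic)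
    {a b c d : V} (hab : G.Adj a b) (hbc : G.Adj b c) (hcd : G.Adj c d) (hda : G.Adj d a)
    (hac : a ≠ c) (hbd : b ≠ d) : False := by
  apply hG (SimpleGraph.Walk.cons hab (SimpleGraph.Walk.cons hbc
    (SimpleGraph.Walk.cons hcd (SimpleGraph.Walk.cons hda SimpleGraph.Walk.nil))))
  rw [SimpleGraph.Walk.cons_isCycle_iff]
  have h1 := hab.ne
  have h2 := hbc.ne
  have h3 := hcd.ne
  have h4 := hda.ne
  constructor
  · rw [SimpleGraph.Walk.cons_isPath_iff, SimpleGraph.Walk.cons_isPath_iff,
      SimpleGraph.Walk.cons_isPath_iff]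
    simp [h1.symm, h2, h3, h4, hac.symm, hbd]
  · simp [h1, h2, h3, h1.symm, h2.symm, h3.symm, h4, h4.symm, hac, hbd, hac.symm, hbd.symm]

theorem five_le_egirth {V : Type*} {G : SimpleGraph V}
    (h3 : ∀ a b c, G.Adj a b → G.Adj b c → G.Adj c a → False)
    (h4 : ∀ a b c d, G.Adj a b → G.Adj b c → G.Adj c d → G.Adj d a → a ≠ c → b ≠ d → False) :
    5 ≤ G.egirth := by
  rw [SimpleGraph.le_egirth]
  intro a w hw
  have hl := hw.three_le_length
  match w, hw, hl with
  | .cons h1 (.cons h2 (.cons h3' .nil)), _, _ => exact absurd (h3 _ _ _ h1 h2 h3') id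
  | .cons (v := b) h1 (.cons (v := c) h2 (.cons (v := d) h3' (.cons h4' .nil))), hw, _ =>
    exfalso
    rw [SimpleGraph.Walk.cons_isCycle_iff] at hw
    have hp := hw.1
    rw [SimpleGraph.Walk.cons_isPath_iff, SimpleGraph.Walk.cons_isPath_iff] at hp
    obtain ⟨⟨_, hp2⟩, hp3⟩ := hp
    simp only [SimpleGraph.Walk.support_cons, SimpleGraph.Walk.support_nil, List.mem_cons,
      not_or] at hp2 hp3
    refine h4 _ _ _ _ h1 h2 h3' h4' ?_ ?_
    · intro h; exact hp2.2.1 h.symm
    · exact hp3.2.1
  | .cons h1 (.cons h2 (.cons h3' (.cons h4' (.cons h5 p)))), _, _ =>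
    simp only [SimpleGraph.Walk.length_cons]
    norm_cast
    omega

end Pool.Agent.Helper1.Hist
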