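import Pool.Agent.Helper1.Hist.Pat

/-! The side `C`: four single gadget leaves. -/

namespace Pool.Agent.Helper1.Hist

open BT

/-- the properties of the side `C` which are used -/
structure CData (C : BT) (nC : List C.V) (p1 q1 p2 q2 : C.V) : Prop where
  perm : (nC ++ [p1, q1, p2, q2]).Perm C.leaves
  sub : nC.Sublist C.leaves
  len : 12 ≤ nC.length
  M : ∀ (X : C.V → Bool) (a b1 b2 : Bool), (∀ x ∈ nC, X x = a) → X p1 = b1 → X q1 = b1 →
    X p2 = b2 → X q2 = b2 → 2 * dB a b1 + 2 * dB a b2 ≤ C.cr X
  S : ∀ (s : Fin nC.length) [NeZero nC.length], Step nC.length s.val →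
    ∀ (X : C.V → Bool) (b : Bool), X C.root = b → C.cr X = 1 →
    (∀ x, C.IsLf x → x ≠ C.root → X x = X (C.par x)) →
    ((¬ (X p1 = b ∧ X q1 = b) ∧ ¬ (X p2 = b ∧ X q2 = b)) ∨
      ((¬ (X p1 = b ∧ X q1 = b) ∨ ¬ (X p2 = b ∧ X q2 = b)) ∧
        2 ≤ cc s (fun i => X (nC.get i))) ∨
      4 ≤ cc s (fun i => X (nC.get i)))
  sep1 : C.par p1 ≠ C.par q1 ∧ ¬ C.tadj (C.par p1) (C.par q1)
  sep2 : C.par p2 ≠ C.par q2 ∧ ¬ C.tadj (C.par p2) (C.par q2)

theorem not_flip {a b : Bool} (h : ¬ a = b) : a = !b := by
  cases a <;> cases b <;> simp_all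

theorem exists_CData (C : BT) (hN : C.Normal) (hlen : 19 ≤ C.leaves.length) :
    ∃ nC p1 q1 p2 q2, CData C nC p1 q1 p2 q2 := by
  obtain ⟨c0, L0, e0, h⟩ := take_cons hlen
  obtain ⟨c1, L1, e1, h⟩ := take_cons h
  obtain ⟨c2, L2, e2, h⟩ := take_cons h
  obtain ⟨c3, L3, e3, h⟩ := take_cons h
  obtain ⟨c4, L4, e4, h⟩ := take_cons h
  obtain ⟨c5, L5, e5, h⟩ := take_cons h
  obtain ⟨c6, L6, e6, h⟩ := take_cons h
  obtain ⟨c7, L7, e7, h⟩ := take_cons h
  obtain ⟨c8, L8, e8, h⟩ := take_cons h
  obtain ⟨c9, L9, e9, h⟩ := take_cons h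
  obtain ⟨c10, L10, e10, h⟩ := take_cons h
  obtain ⟨c11, L11, e11, h⟩ := take_cons h
  obtain ⟨c12, L12, e12, h⟩ := take_cons h
  obtain ⟨c13, L13, e13, h⟩ := take_cons h
  obtain ⟨c14, L14, e14, h⟩ := take_cons h
  obtain ⟨c15, L15, e15, h⟩ := take_cons h
  obtain ⟨c16, L16, e16, h⟩ := take_cons h
  obtain ⟨c17, L17, e17, h⟩ := take_cons h
  subst e17 e16 e15 e14 e13 e12 e11 e10 e9 e8 e7 e6 e5 e4 e3 e2 e1
  clear h
  have hnd := leaves_nodup C
  have hsep := sepL_leaves hN
  have mem : ∀ x, C.IsLf x ↔ x ∈ c0 :: c1 :: c2 :: c3 :: c4 :: c5 :: c6 :: c7 :: c8 :: c9 ::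
      c10 :: c11 :: c12 :: c13 :: c14 :: c15 :: c16 :: c17 :: L17 := by
    intro x; rw [← mem_leaves, e0]
  refine ⟨c0 :: c2 :: c3 :: c4 :: c5 :: c7 :: c8 :: c9 :: c10 :: c12 :: c13 :: c14 :: c15 ::
    c17 :: L17, c1, c6, c11, c16, ?_⟩
  have hperm : ((c0 :: c2 :: c3 :: c4 :: c5 :: c7 :: c8 :: c9 :: c10 :: c12 :: c13 :: c14 ::
      c15 :: c17 :: L17) ++ [c1, c6, c11, c16]).Perm C.leaves := by
    rw [e0, List.perm_iff_count]
    intro a
    simp only [List.count_append, List.count_cons, List.count_nil, List.cons_append]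
    ring
  have nd' := hperm.nodup_iff.2 hnd
  have hsub : (c0 :: c2 :: c3 :: c4 :: c5 :: c7 :: c8 :: c9 :: c10 :: c12 :: c13 :: c14 ::
      c15 :: c17 :: L17).Sublist C.leaves := by
    rw [e0]
    repeat (first | exact List.Sublist.refl _ | apply List.Sublist.cons_cons |
      apply List.Sublist.cons)
  have s1 : [c0, c1, c2, c6, c7, c11, c12, c16, c17].Sublist C.leaves := by
    rw [e0]
    repeat (first | exact List.nil_sublist _ | apply List.Sublist.cons_cons |
      apply List.Sublist.cons)
  have s2 : [c0, c2, c6, c7, c8].Sublist C.leaves := by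
    rw [e0]
    repeat (first | exact List.nil_sublist _ | apply List.Sublist.cons_cons |
      apply List.Sublist.cons)
  have s3 : [c0, c1, c2].Sublist C.leaves := by
    rw [e0]
    repeat (first | exact List.nil_sublist _ | apply List.Sublist.cons_cons |
      apply List.Sublist.cons)
  have s4 : [c10, c11, c12].Sublist C.leaves := by
    rw [e0]
    repeat (first | exact List.nil_sublist _ | apply List.Sublist.cons_cons |
      apply List.Sublist.cons)
  refine ⟨hperm, hsub, by simp, ?_, ?_, ?_, ?_⟩
  · intro X a b1 b2 hX h1 h2 h3 h4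
    have k := chg_sub X s1
    have g0 := hX c0 (by simp)
    have g2 := hX c2 (by simp)
    have g7 := hX c7 (by simp)
    have g12 := hX c12 (by simp)
    have g17 := hX c17 (by simp)
    simp only [List.map_cons, List.map_nil, List.cons_append, List.nil_append, chg_cons_cons,
      chg_single, g0, g2, g7, g12, g17, h1, h2, h3, h4] at k
    have d1 := dB_comm a b1
    have d2 := dB_comm a b2
    omega
  · intro s _ st X b hr hcr hp
    obtain ⟨pre, mid, post, hL, hpre, hmid, hpost, hlen⟩ := cr_one_interval X hcr hp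
    rw [hr] at hpre hmid hpost
    have ndm : mid.Nodup := by
      have := hnd
      rw [hL] at this
      exact this.of_append_right.of_append_left
    obtain ⟨m1, m2, hm1, hm2, hne⟩ := exists_two ndm hlen
    have f1 := hmid m1 hm1
    have f2 := hmid m2 hm2
    have lm1 : m1 ∈ (c0 :: c2 :: c3 :: c4 :: c5 :: c7 :: c8 :: c9 :: c10 :: c12 :: c13 ::
        c14 :: c15 :: c17 :: L17) ++ [c1, c6, c11, c16] := by
      rw [hperm.mem_iff, hL]; simp [hm1]
    have lm2 : m2 ∈ (c0 :: c2 :: c3 :: c4 :: c5 :: c7 :: c8 :: c9 :: c10 :: c12 :: c13 ::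
        c14 :: c15 :: c17 :: L17) ++ [c1, c6, c11, c16] := by
      rw [hperm.mem_iff, hL]; simp [hm2]
    have k1 := chg_sub X s1
    have k2 := chg_sub X s2
    have k3 := chg_sub X s3
    have k4 := chg_sub X s4
    have four : X c1 = b → X c6 = b → X c11 = b → X c16 = b →
        4 ≤ cc s (fun i => X ((c0 :: c2 :: c3 :: c4 :: c5 :: c7 :: c8 :: c9 :: c10 :: c12 ::
          c13 :: c14 :: c15 :: c17 :: L17).get i)) := by
      intro g1 g6 g11 g16
      refine four_of_two st hsub hL X b hpre hmid hpost ?_ ?_
      · refine ⟨m1, m2, ?_, ?_, hne, f1, f2⟩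
        · rw [List.mem_append] at lm1
          rcases lm1 with h | h
          · exact h
          · exfalso
            simp only [List.mem_cons, List.not_mem_nil, or_false] at h
            rcases h with rfl | rfl | rfl | rfl <;> simp_all
        · rw [List.mem_append] at lm2
          rcases lm2 with h | h
          · exact h
          · exfalso
            simp only [List.mem_cons, List.not_mem_nil, or_false] at h
            rcases h with rfl | rfl | rfl | rfl <;> simp_all
      · have : (X c0 = b ∧ X c2 = b) ∨ (X c7 = b ∧ X c8 = b) := by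
          simp only [List.map_cons, List.map_nil, List.cons_append, List.nil_append,
            chg_cons_cons, chg_single, hr, g6, hcr] at k2
          revert k2
          generalize X c0 = u0
          generalize X c2 = u2
          generalize X c7 = u7
          generalize X c8 = u8
          cases b <;> cases u0 <;> cases u2 <;> cases u7 <;> cases u8 <;> simp [dB]
        rcases this with ⟨q0, q1⟩ | ⟨q0, q1⟩
        · refine ⟨c0, c2, by simp, by simp, ?_, q0, q1⟩
          rintro rfl
          simp at nd'
        · refine ⟨c7, c8, by simp, by simp, ?_, q0, q1⟩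
          rintro rfl
          simp at nd'
    have flipped : ∃ x, x ∈ (c0 :: c2 :: c3 :: c4 :: c5 :: c7 :: c8 :: c9 :: c10 :: c12 ::
          c13 :: c14 :: c15 :: c17 :: L17) ∧ X x = !b := by
      by_contra hno
      have hall : ∀ x ∈ (c0 :: c2 :: c3 :: c4 :: c5 :: c7 :: c8 :: c9 :: c10 :: c12 ::
          c13 :: c14 :: c15 :: c17 :: L17), X x = b := by
        intro x hx
        by_contra h
        exact hno ⟨x, hx, not_flip h⟩
      have g0 := hall c0 (by simp)
      have g2 := hall c2 (by simp)
      have g7 := hall c7 (by simp)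
      have g12 := hall c12 (by simp)
      have g17 := hall c17 (by simp)
      simp only [List.map_cons, List.map_nil, List.cons_append, List.nil_append, chg_cons_cons,
        chg_single, g0, g2, g7, g12, g17, hr, hcr] at k1
      have am1 : m1 ∈ [c1, c6, c11, c16] := by
        rw [List.mem_append] at lm1
        rcases lm1 with h | h
        · have := hall m1 h
          rw [f1] at this; simp at this
        · exact h
      have am2 : m2 ∈ [c1, c6, c11, c16] := by
        rw [List.mem_append] at lm2
        rcases lm2 with h | h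
        · have := hall m2 h
          rw [f2] at this; simp at this
        · exact h
      simp only [List.mem_cons, List.not_mem_nil, or_false] at am1 am2
      have d1 := dB_comm b (X c1)
      have d6 := dB_comm b (X c6)
      have d11 := dB_comm b (X c11)
      have d16 := dB_comm b (X c16)
      have key : dB b (X c1) + dB b (X c6) + dB b (X c11) + dB b (X c16) ≤ 1 := by omega
      have one : ∀ z, X z = (!b) → dB b (X z) = 1 := by
        intro z hz; rw [hz]; cases b <;> rfl
      have o1 := one m1 f1
      have o2 := one m2 f2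
      rcases am1 with rfl | rfl | rfl | rfl <;> rcases am2 with rfl | rfl | rfl | rfl <;>
        first | exact hne rfl | omega
    by_cases g1 : X c1 = b ∧ X c6 = b
    · by_cases g2 : X c11 = b ∧ X c16 = b
      · exact Or.inr (Or.inr (four g1.1 g1.2 g2.1 g2.2))
      · refine Or.inr (Or.inl ⟨Or.inr g2, two_of_ne st X b flipped ?_⟩)
        have : X c0 = b ∨ X c2 = b := by
          simp only [List.map_cons, List.map_nil, List.cons_append, List.nil_append,
            chg_cons_cons, chg_single, hr, g1.1, hcr] at k3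
          revert k3
          generalize X c0 = u0
          generalize X c2 = u2
          cases b <;> cases u0 <;> cases u2 <;> simp [dB]
        rcases this with q0 | q0
        · exact ⟨c0, by simp, q0⟩
        · exact ⟨c2, by simp, q0⟩
    · by_cases g2 : X c11 = b ∧ X c16 = b
      · refine Or.inr (Or.inl ⟨Or.inl g1, two_of_ne st X b flipped ?_⟩)
        have : X c10 = b ∨ X c12 = b := by
          simp only [List.map_cons, List.map_nil, List.cons_append, List.nil_append,
            chg_cons_cons, chg_single, hr, g2.1, hcr] at k4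
          revert k4
          generalize X c10 = u0
          generalize X c12 = u2
          cases b <;> cases u0 <;> cases u2 <;> simp [dB]
        rcases this with q0 | q0
        · exact ⟨c10, by simp, q0⟩
        · exact ⟨c12, by simp, q0⟩
      · exact Or.inl ⟨g1, g2⟩
  · refine ⟨fun h => ?_, fun h => ?_⟩
    · have := (hsep 1 6 c1 c6 (by omega) (by rw [e0]; rfl) (by rw [e0]; rfl)).1 h
      omega
    · have := (hsep 1 6 c1 c6 (by omega) (by rw [e0]; rfl) (by rw [e0]; rfl)).2 h
      omega
  · refine ⟨fun h => ?_, fun h => ?_⟩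
    · have := (hsep 11 16 c11 c16 (by omega) (by rw [e0]; rfl) (by rw [e0]; rfl)).1 h
      omega
    · have := (hsep 11 16 c11 c16 (by omega) (by rw [e0]; rfl) (by rw [e0]; rfl)).2 h
      omega

end Pool.Agent.Helper1.Hist
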