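import Pool.Agent.Helper1.Hist.Assemble

/-! Case A: the side `B` has eleven cherries. -/

namespace Pool.Agent.Helper1.Hist

open BT

variable {B C : BT}

theorem first_two_sub {t : BT} (hN : t.Normal) {S : List t.V} (hS : S.Sublist t.leaves)
    {k : ℕ} {x : t.V} (hk : S[k]? = some x) (h2 : 2 ≤ k) (hx : x ≠ t.root) :
    t.par x ≠ t.root := by
  intro hp
  obtain ⟨f, hf⟩ := List.sublist_iff_exists_orderEmbedding_getElem?_eq.1 hS
  rw [hf] at hk
  have h1 := first_two hN hk hx hp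
  have h2 : ∀ d, d ≤ f d := by
    intro d
    induction d with
    | zero => simp
    | succ d ih =>
      have : f d < f (d + 1) := f.lt_iff_lt.2 (by omega)
      omega
  have := h2 k
  omega

theorem hexOK_A {P3 P5 : B.V} {Pp Pq : C.V} {h : Fin 6 → W B C}
    (e0 : up (h 0) = Sum.inl P3) (e1 : up (h 1) = Sum.inl P5) (e2 : up (h 2) = Sum.inr Pp)
    (e3 : up (h 3) = Sum.inl P3) (e4 : up (h 4) = Sum.inl P5) (e5 : up (h 5) = Sum.inr Pq)
    (n35 : P3 ≠ P5) (t35 : ¬ B.tadj P3 P5) (r3 : P3 ≠ B.root) (r5 : P5 ≠ B.root) :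
    HexOK h := by
  constructor
  · intro k
    fin_cases k
    · show up (h 0) ≠ up (h 1)
      rw [e0, e1]; exact fun h => n35 (Sum.inl.inj h)
    · show up (h 1) ≠ up (h 2)
      rw [e1, e2]; exact Sum.inl_ne_inr
    · show up (h 2) ≠ up (h 3)
      rw [e2, e3]; exact Sum.inr_ne_inl
    · show up (h 3) ≠ up (h 4)
      rw [e3, e4]; exact fun h => n35 (Sum.inl.inj h)
    · show up (h 4) ≠ up (h 5)
      rw [e4, e5]; exact Sum.inl_ne_inr
    · show up (h 5) ≠ up (h 0)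
      rw [e5, e0]; exact Sum.inr_ne_inl
  · intro k
    fin_cases k
    · show ¬ (H B C).Adj (up (h 0)) (up (h 1))
      rw [e0, e1, H_adj_inl]; exact t35
    · show ¬ (H B C).Adj (up (h 1)) (up (h 2))
      rw [e1, e2, H_adj_inl_inr]; exact fun h => r5 h.1
    · show ¬ (H B C).Adj (up (h 2)) (up (h 3))
      rw [e2, e3, SimpleGraph.adj_comm, H_adj_inl_inr]; exact fun h => r3 h.1
    · show ¬ (H B C).Adj (up (h 3)) (up (h 4))
      rw [e3, e4, H_adj_inl]; exact t35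
    · show ¬ (H B C).Adj (up (h 4)) (up (h 5))
      rw [e4, e5, H_adj_inl_inr]; exact fun h => r5 h.1
    · show ¬ (H B C).Adj (up (h 5)) (up (h 0))
      rw [e5, e0, SimpleGraph.adj_comm, H_adj_inl_inr]; exact fun h => r3 h.1
  · intro k
    fin_cases k
    · show up (h 0) ≠ up (h 2)
      rw [e0, e2]; exact Sum.inl_ne_inr
    · show up (h 1) ≠ up (h 3)
      rw [e1, e3]; exact fun h => n35 (Sum.inl.inj h).symm
    · show up (h 2) ≠ up (h 4)
      rw [e2, e4]; exact Sum.inr_ne_inl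
    · show up (h 3) ≠ up (h 5)
      rw [e3, e5]; exact Sum.inl_ne_inr
    · show up (h 4) ≠ up (h 0)
      rw [e4, e0]; exact fun h => n35 (Sum.inl.inj h).symm
    · show up (h 5) ≠ up (h 1)
      rw [e5, e1]; exact Sum.inr_ne_inl

variable {nB : List B.V} {nC : List C.V} {h1 h2 : Fin 6 → W B C}
variable [NeZero nB.length] [NeZero nC.length] {sB : Fin nB.length} {sC : Fin nC.length}
variable {g : W B C → K4} {h : Slots nB nC → K4}

theorem colA1 (cf : ColFacts (posD nB nC h1 h2) (tauD nB nC sB sC) g h)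
    (n0 : g (h1 0) ≠ g (h1 3)) (n1 : g (h1 1) ≠ g (h1 4)) : g (h1 2) = g (h1 5) := by
  have k : ∀ i : Fin 6, g (h1 (i + 1)) = h (Sum.inr (Sum.inr (Sum.inl (i + 1)))) +
      h (Sum.inr (Sum.inr (Sum.inl i))) := fun i => cf.g_pos (Sum.inr (Sum.inr (Sum.inl i)))
  have d : ∀ i : Fin 6, h (Sum.inr (Sum.inr (Sum.inl (i + 1)))) ≠
      h (Sum.inr (Sum.inr (Sum.inl i))) := fun i => cf.h_diff (Sum.inr (Sum.inr (Sum.inl i)))
  have k0 : g (h1 0) = _ := k 5
  have k1 : g (h1 1) = _ := k 0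
  have k2 : g (h1 2) = _ := k 1
  have k3 : g (h1 3) = _ := k 2
  have k4 : g (h1 4) = _ := k 3
  have k5 : g (h1 5) = _ := k 4
  rw [k2, k5]
  rw [k0, k3] at n0
  rw [k1, k4] at n1
  exact hexA _ _ _ _ _ _ (cf.h_ne _) (cf.h_ne _) (cf.h_ne _) (cf.h_ne _) (cf.h_ne _)
    (cf.h_ne _) (d 5) (d 0) (d 1) (d 2) (d 3) (d 4) n0 n1

theorem colA2 (cf : ColFacts (posD nB nC h1 h2) (tauD nB nC sB sC) g h)
    (n0 : g (h2 0) ≠ g (h2 3)) (n1 : g (h2 1) ≠ g (h2 4)) : g (h2 2) = g (h2 5) := by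
  have k : ∀ i : Fin 6, g (h2 (i + 1)) = h (Sum.inr (Sum.inr (Sum.inr (i + 1)))) +
      h (Sum.inr (Sum.inr (Sum.inr i))) := fun i => cf.g_pos (Sum.inr (Sum.inr (Sum.inr i)))
  have d : ∀ i : Fin 6, h (Sum.inr (Sum.inr (Sum.inr (i + 1)))) ≠
      h (Sum.inr (Sum.inr (Sum.inr i))) := fun i => cf.h_diff (Sum.inr (Sum.inr (Sum.inr i)))
  have k0 : g (h2 0) = _ := k 5
  have k1 : g (h2 1) = _ := k 0
  have k2 : g (h2 2) = _ := k 1
  have k3 : g (h2 3) = _ := k 2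
  have k4 : g (h2 4) = _ := k 3
  have k5 : g (h2 5) = _ := k 4
  rw [k2, k5]
  rw [k0, k3] at n0
  rw [k1, k4] at n1
  exact hexA _ _ _ _ _ _ (cf.h_ne _) (cf.h_ne _) (cf.h_ne _) (cf.h_ne _) (cf.h_ne _)
    (cf.h_ne _) (d 5) (d 0) (d 1) (d 2) (d 3) (d 4) n0 n1

theorem cherry_ne {S : Type} {pos : S → W B C} {τ : Equiv.Perm S} {h : S → K4}
    (cf : ColFacts pos τ g h) {x y : B.V} (hx : x ≠ B.root) (hy : y ≠ B.root) (hxy : x ≠ y)
    (hp : B.par x = B.par y) : g (Sum.inl x) ≠ g (Sum.inl y) := by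
  have hn := not_isLf_par B x hx
  have e := cf.g_node (Sum.inl (B.par x)) hn
  have hne := cf.g_ne (Sum.inl (B.par x))
  change g (Sum.inl (B.par x)) = g (Sum.inl (B.lc (B.par x))) + g (Sum.inl (B.rc (B.par x))) at e
  intro hg
  apply hne
  rcases (par_eq_iff B (B.par x) x hn).1 ⟨hx, rfl⟩ with h1 | h1 <;>
  rcases (par_eq_iff B (B.par x) y hn).1 ⟨hy, hp.symm⟩ with h2 | h2
  · exact absurd (h1.trans h2.symm) hxy
  · rw [e, ← h1, ← h2, hg]; exact K4_two _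
  · rw [e, ← h1, ← h2, hg]; exact K4_two _
  · exact absurd (h1.trans h2.symm) hxy

theorem ccA {F : Fin 6 → Bool} {u v b : Bool} (e0 : F 0 = u) (e1 : F 1 = v) (e2 : F 2 = b)
    (e3 : F 3 = u) (e4 : F 4 = v) (e5 : F 5 = b) (hn : ¬ (u = b ∧ v = b)) : 4 ≤ cc 1 F := by
  have : cc 1 F = dB (F 0) (F 1) + dB (F 1) (F 2) + dB (F 2) (F 3) + dB (F 3) (F 4) +
      dB (F 4) (F 5) + dB (F 5) (F 0) := by
    unfold cc
    rw [Fin.sum_univ_six]
    rfl
  rw [this, e0, e1, e2, e3, e4, e5]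
  revert hn
  cases u <;> cases v <;> cases b <;> simp [dB]

end Pool.Agent.Helper1.Hist
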