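import Pool.Agent.Helper1.Hist.CaseA

/-! Case A, assembled. -/

namespace Pool.Agent.Helper1.Hist

open BT

variable {B C : BT}

theorem sepL_two {t : BT} {S : List t.V} (hS : SepL t S) {i j : ℕ} {x y : t.V}
    (hi : S[i]? = some x) (hj : S[j]? = some y) (hij : i + 3 ≤ j) :
    t.par x ≠ t.par y ∧ ¬ t.tadj (t.par x) (t.par y) := by
  have := hS i j x y (by omega) hi hj
  exact ⟨fun h => by have := this.1 h; omega, fun h => by have := this.2 h; omega⟩

theorem nodup_adj {α : Type*} {L : List α} (h : L.Nodup) {i j : ℕ} {x y : α}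
    (hx : L[i]? = some x) (hy : L[j]? = some y) (hij : i ≠ j) : x ≠ y := by
  rintro rfl
  obtain ⟨h1, h2⟩ := List.getElem?_eq_some_iff.1 hx
  obtain ⟨h3, h4⟩ := List.getElem?_eq_some_iff.1 hy
  exact hij ((h.getElem_inj_iff).1 (h2.trans h4.symm))

theorem perm_mix {α : Type*} (n m : List α) (a b c d e f g h p q r s : α) :
    (n ++ (m ++ ([a, b, p, c, d, q] ++ [e, f, r, g, h, s]))).Perm
      ((n ++ [a, b, c, d, e, f, g, h]) ++ (m ++ [p, q, r, s])) := by
  classical
  rw [List.perm_iff_count]
  intro z
  simp only [List.count_append, List.count_cons, List.count_nil]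
  ring

theorem caseA (hB : B.Normal) (hch : HasCh B 11 B.leaves) (hC : C.Normal)
    (hlen : 19 ≤ C.leaves.length) (hH : (H B C).IsAcyclic) :
    ∃ G : SimpleGraph (W B C), IsSnark G ∧ H B C ≤ G := by
  obtain ⟨a1, x1, y1, r1, e1, xr1, yr1, pe1, hch⟩ := hch
  obtain ⟨a2, x2, y2, r2, e2, xr2, yr2, pe2, hch⟩ := hch
  obtain ⟨a3, x3, y3, r3, e3, xr3, yr3, pe3, hch⟩ := hch
  obtain ⟨a4, x4, y4, r4, e4, xr4, yr4, pe4, hch⟩ := hch
  obtain ⟨a5, x5, y5, r5, e5, xr5, yr5, pe5, hch⟩ := hch
  obtain ⟨a6, x6, y6, r6, e6, xr6, yr6, pe6, hch⟩ := hch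
  obtain ⟨a7, x7, y7, r7, e7, xr7, yr7, pe7, hch⟩ := hch
  obtain ⟨a8, x8, y8, r8, e8, xr8, yr8, pe8, hch⟩ := hch
  obtain ⟨a9, x9, y9, r9, e9, xr9, yr9, pe9, hch⟩ := hch
  obtain ⟨a10, x10, y10, r10, e10, xr10, yr10, pe10, hch⟩ := hch
  obtain ⟨a11, x11, y11, r11, e11, xr11, yr11, pe11, hch⟩ := hch
  subst e11 e10 e9 e8 e7 e6 e5 e4 e3 e2
  clear hch
  have hnd := leaves_nodup B
  have hsep := sepL_leaves hB
  have hBl : B ≠ leaf := by
    rintro rfl
    exact xr1 (leaf_eq_root x1)
  have hCl : C ≠ leaf := by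
    rintro rfl
    simp at hlen
  obtain ⟨nC, p1, q1, p2, q2, cd⟩ := exists_CData C hC hlen
  -- normal leaves of `B`
  obtain ⟨nB, hnB⟩ : ∃ nB, nB = a1 ++ x1 :: y1 :: (a2 ++ x2 :: y2 :: (a3 ++ (a4 ++ x4 :: y4 ::
    (a5 ++ (a6 ++ x6 :: y6 :: (a7 ++ (a8 ++ x8 :: y8 :: (a9 ++ (a10 ++ x10 :: y10 ::
    (a11 ++ x11 :: y11 :: r11)))))))))) := ⟨_, rfl⟩
  have hperm : (nB ++ [x3, x5, y3, y5, x7, x9, y7, y9]).Perm B.leaves := by
    rw [e1, hnB, List.perm_iff_count]
    intro a
    simp only [List.count_append, List.count_cons, List.count_nil]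
    ring
  have hsub : nB.Sublist B.leaves := by
    rw [e1, hnB]
    refine (List.Sublist.refl _).append ?_
    refine ((List.Sublist.append (List.Sublist.refl _) ?_).cons_cons _).cons_cons _
    refine ((List.Sublist.append (List.Sublist.refl _) ?_).cons_cons _).cons_cons _
    refine ((List.Sublist.append (List.Sublist.refl _) ?_).cons _).cons _
    refine ((List.Sublist.append (List.Sublist.refl _) ?_).cons_cons _).cons_cons _
    refine ((List.Sublist.append (List.Sublist.refl _) ?_).cons _).cons _
    refine ((List.Sublist.append (List.Sublist.refl _) ?_).cons_cons _).cons_cons _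
    refine ((List.Sublist.append (List.Sublist.refl _) ?_).cons _).cons _
    refine ((List.Sublist.append (List.Sublist.refl _) ?_).cons_cons _).cons_cons _
    refine ((List.Sublist.append (List.Sublist.refl _) ?_).cons _).cons _
    exact List.Sublist.refl _
  have hS : [x1, y1, x2, y2, x3, y3, x4, y4, x5, y5, x6, y6, x7, y7, x8, y8, x9, y9, x10, y10,
      x11, y11].Sublist B.leaves := by
    rw [e1]
    have key : ∀ (a : List B.V) (x y : B.V) (S r : List B.V), S.Sublist r →
        (x :: y :: S).Sublist (a ++ x :: y :: r) := by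
      intro a x y S r h
      exact ((h.cons_cons _).cons_cons _).trans (List.sublist_append_right _ _)
    repeat (first | exact List.nil_sublist _ | apply key)
  have nd' := hperm.nodup_iff.2 hnd
  have ndS := hS.nodup hnd
  have sepS := hsep.sublist hS
  have hlenB : 12 ≤ nB.length := by
    rw [hnB]
    simp only [List.length_append, List.length_cons]
    omega
  have mem : ∀ z : B.V, z ∈ [x1, y1, x2, y2, x4, y4, x6, y6, x8, y8, x10, y10, x11, y11] →
      z ∈ nB := by
    intro z hz
    refine List.Sublist.subset ?_ hz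
    rw [hnB]
    have key : ∀ (a : List B.V) (x y : B.V) (S r : List B.V), S.Sublist r →
        (x :: y :: S).Sublist (a ++ x :: y :: r) := by
      intro a x y S r h
      exact ((h.cons_cons _).cons_cons _).trans (List.sublist_append_right _ _)
    have key' : ∀ (a S r : List B.V), S.Sublist r → S.Sublist (a ++ r) := by
      intro a S r h
      exact h.trans (List.sublist_append_right _ _)
    repeat (first | exact List.nil_sublist _ | apply key | apply key')
  have : NeZero nB.length := ⟨by omega⟩
  have : NeZero nC.length := ⟨by have := cd.len; omega⟩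
  obtain ⟨s, hs3, hs2, hsc⟩ := exists_step hlenB
  obtain ⟨s', hs3', hs2', hsc'⟩ := exists_step cd.len
  set sB : Fin nB.length := ⟨s, by omega⟩ with hsB
  set sC : Fin nC.length := ⟨s', by omega⟩ with hsC
  have stB : Step nB.length sB.val := ⟨hlenB, hs3, hs2, hsc⟩
  have stC : Step nC.length sC.val := ⟨cd.len, hs3', hs2', hsc'⟩
  obtain ⟨h1, hh1⟩ : ∃ h1 : Fin 6 → W B C, h1 = ![Sum.inl x3, Sum.inl x5, Sum.inr p1,
    Sum.inl y3, Sum.inl y5, Sum.inr q1] := ⟨_, rfl⟩
  obtain ⟨h2, hh2⟩ : ∃ h2 : Fin 6 → W B C, h2 = ![Sum.inl x7, Sum.inl x9, Sum.inr p2,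
    Sum.inl y7, Sum.inl y9, Sum.inr q2] := ⟨_, rfl⟩
  have perm : (nB.map Sum.inl ++ (nC.map Sum.inr ++ (List.ofFn h1 ++ List.ofFn h2))).Perm
      (B.leaves.map Sum.inl ++ C.leaves.map (Sum.inr : C.V → W B C)) := by
    have k1 := (hperm.map (Sum.inl : B.V → W B C)).append
      (cd.perm.map (Sum.inr : C.V → W B C))
    refine List.Perm.trans ?_ k1
    have o1 : List.ofFn h1 = [Sum.inl x3, Sum.inl x5, Sum.inr p1,
      Sum.inl y3, Sum.inl y5, Sum.inr q1] := by rw [hh1]; rfl
    have o2 : List.ofFn h2 = [Sum.inl x7, Sum.inl x9, Sum.inr p2,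
      Sum.inl y7, Sum.inl y9, Sum.inr q2] := by rw [hh2]; rfl
    rw [o1, o2, List.map_append, List.map_append]
    exact perm_mix _ _ _ _ _ _ _ _ _ _ _ _ _ _
  have lfS : ∀ z, z ∈ [x1, y1, x2, y2, x3, y3, x4, y4, x5, y5, x6, y6, x7, y7, x8, y8, x9, y9,
      x10, y10, x11, y11] → B.IsLf z := by
    intro z hz
    rw [← mem_leaves]
    exact hS.subset hz
  have lfP : ∀ z, z ∈ [p1, q1, p2, q2] → z ≠ C.root := by
    intro z hz
    apply leaf_ne_root hCl
    rw [← mem_leaves, ← cd.perm.mem_iff, List.mem_append]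
    exact Or.inr hz
  have x1h : HexOK h1 := by
    refine hexOK_A (P3 := B.par x3) (P5 := B.par x5) (Pp := C.par p1) (Pq := C.par q1)
      ?_ ?_ ?_ ?_ ?_ ?_ ?_ ?_ ?_ ?_
    · rw [hh1]; exact up_inl xr3
    · rw [hh1]; exact up_inl xr5
    · rw [hh1]; exact up_inr (lfP _ (by simp))
    · rw [hh1]; exact (up_inl yr3).trans (by rw [pe3])
    · rw [hh1]; exact (up_inl yr5).trans (by rw [pe5])
    · rw [hh1]; exact up_inr (lfP _ (by simp))
    · exact (sepL_two sepS (i := 4) (j := 8) rfl rfl (by omega)).1
    · exact (sepL_two sepS (i := 4) (j := 8) rfl rfl (by omega)).2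
    · exact first_two_sub hB hS (k := 4) rfl (by omega) xr3
    · exact first_two_sub hB hS (k := 8) rfl (by omega) xr5
  have x2h : HexOK h2 := by
    refine hexOK_A (P3 := B.par x7) (P5 := B.par x9) (Pp := C.par p2) (Pq := C.par q2)
      ?_ ?_ ?_ ?_ ?_ ?_ ?_ ?_ ?_ ?_
    · rw [hh2]; exact up_inl xr7
    · rw [hh2]; exact up_inl xr9
    · rw [hh2]; exact up_inr (lfP _ (by simp))
    · rw [hh2]; exact (up_inl yr7).trans (by rw [pe7])
    · rw [hh2]; exact (up_inl yr9).trans (by rw [pe9])
    · rw [hh2]; exact up_inr (lfP _ (by simp))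
    · exact (sepL_two sepS (i := 12) (j := 16) rfl rfl (by omega)).1
    · exact (sepL_two sepS (i := 12) (j := 16) rfl rfl (by omega)).2
    · exact first_two_sub hB hS (k := 12) rfl (by omega) xr7
    · exact first_two_sub hB hS (k := 16) rfl (by omega) xr9
  have hg : Good (posD nB nC h1 h2) (tauD nB nC sB sC) :=
    goodD hBl hCl perm (hsep.sublist hsub) ((sepL_leaves hC).sublist cd.sub) stB stC x1h x2h
  have v1 : ∀ k : Fin 6, h1 k = (![Sum.inl x3, Sum.inl x5, Sum.inr p1,
      Sum.inl y3, Sum.inl y5, Sum.inr q1] : Fin 6 → W B C) k := by intro k; rw [hh1]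
  have v2 : ∀ k : Fin 6, h2 k = (![Sum.inl x7, Sum.inl x9, Sum.inr p2,
      Sum.inl y7, Sum.inl y9, Sum.inr q2] : Fin 6 → W B C) k := by intro k; rw [hh2]
  refine ⟨GG (posD nB nC h1 h2) (tauD nB nC sB sC), ?_, H_le_GG⟩
  refine snark_final hBl hCl hH stB.co stC.co hg cd ?_ ?_
  · refine sides_of cd ⟨⟨0, x3, v1 0⟩, ⟨2, v1 2⟩, ⟨5, v1 5⟩⟩ ⟨⟨0, x7, v2 0⟩, ⟨2, v2 2⟩, ⟨5, v2 5⟩⟩
      stC ?_ ?_
    · intro X a b1 b2 hX f1 f2
      have s1 : [x2, x3, x4, x5, x6, x7, x8, x9, x10].Sublist B.leaves := by
        refine List.Sublist.trans ?_ hS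
        repeat (first | exact List.nil_sublist _ | apply List.Sublist.cons_cons |
          apply List.Sublist.cons)
      have k := chg_sub X s1
      have g2 := hX x2 (mem x2 (by simp))
      have g4 := hX x4 (mem x4 (by simp))
      have g6 := hX x6 (mem x6 (by simp))
      have g8 := hX x8 (mem x8 (by simp))
      have g10 := hX x10 (mem x10 (by simp))
      have g3 := f1 0 x3 (v1 0)
      have g5 := f1 1 x5 (v1 1)
      have g7 := f2 0 x7 (v2 0)
      have g9 := f2 1 x9 (v2 1)
      simp only [List.map_cons, List.map_nil, List.cons_append, List.nil_append, chg_cons_cons,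
        chg_single, g2, g4, g6, g8, g10, g3, g5, g7, g9] at k
      have d1 := dB_comm a b1
      have d2 := dB_comm a b2
      omega
    · intro X b hCb hr hcr hp
      have ch : ∀ x y : B.V, x ∈ [x1, y1, x2, y2, x3, y3, x4, y4, x5, y5, x6, y6, x7, y7, x8, y8,
          x9, y9, x10, y10, x11, y11] → y ∈ [x1, y1, x2, y2, x3, y3, x4, y4, x5, y5, x6, y6, x7,
          y7, x8, y8, x9, y9, x10, y10, x11, y11] → B.par x = B.par y →
          X (Sum.inl y) = X (Sum.inl x) := by
        intro x y hx hy hxy
        have lx := lfS x hx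
        have ly := lfS y hy
        rw [hp x lx (leaf_ne_root hBl lx), hp y ly (leaf_ne_root hBl ly), hxy]
      have c1 := ch x1 y1 (by simp) (by simp) pe1
      have c3 := ch x3 y3 (by simp) (by simp) pe3
      have c5 := ch x5 y5 (by simp) (by simp) pe5
      have c7 := ch x7 y7 (by simp) (by simp) pe7
      have c9 := ch x9 y9 (by simp) (by simp) pe9
      have c11 := ch x11 y11 (by simp) (by simp) pe11
      rw [oW_eq]
      by_cases k1 : X (Sum.inl x3) = b ∧ X (Sum.inl x5) = b
      · by_cases k2 : X (Sum.inl x7) = b ∧ X (Sum.inl x9) = b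
        · obtain ⟨pre, mid, post, hL, hpre, hmid, hpost, hlen⟩ :=
            cr_one_interval (fun x => X (Sum.inl x)) hcr hp
          simp only [hr] at hpre hmid hpost
          have ndm : mid.Nodup := by
            have := hnd
            rw [hL] at this
            exact this.of_append_right.of_append_left
          obtain ⟨m1, m2, hm1, hm2, hne⟩ := exists_two ndm hlen
          have f1 := hmid m1 hm1
          have f2 := hmid m2 hm2
          have gb : ∀ z ∈ [x3, x5, y3, y5, x7, x9, y7, y9], X (Sum.inl z) = b := by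
            intro z hz
            simp only [List.mem_cons, List.not_mem_nil, or_false] at hz
            rcases hz with hz | hz | hz | hz | hz | hz | hz | hz <;> rw [hz]
            · exact k1.1
            · exact k1.2
            · exact c3.trans k1.1
            · exact c5.trans k1.2
            · exact k2.1
            · exact k2.2
            · exact c7.trans k2.1
            · exact c9.trans k2.2
          have inN : ∀ z ∈ mid, z ∈ nB := by
            intro z hz
            have hzL : z ∈ nB ++ [x3, x5, y3, y5, x7, x9, y7, y9] := by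
              rw [hperm.mem_iff, hL]; simp [hz]
            rw [List.mem_append] at hzL
            rcases hzL with h | h
            · exact h
            · exfalso
              have f := hmid z hz
              have f' := gb z h
              rw [f'] at f
              simp at f
          have key := four_of_two stB hsub hL (fun x => X (Sum.inl x)) b hpre hmid hpost
            ⟨m1, m2, inN m1 hm1, inN m2 hm2, hne, f1, f2⟩ (by
              have s1 : [x1, x5, x11].Sublist B.leaves := by
                refine List.Sublist.trans ?_ hS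
                repeat (first | exact List.nil_sublist _ | apply List.Sublist.cons_cons |
                  apply List.Sublist.cons)
              have k := chg_sub (fun x => X (Sum.inl x)) s1
              have : X (Sum.inl x1) = b ∨ X (Sum.inl x11) = b := by
                simp only [List.map_cons, List.map_nil, List.cons_append, List.nil_append,
                  chg_cons_cons, chg_single, hr, hcr, k1.2] at k
                revert k
                generalize X (Sum.inl x1) = u0
                generalize X (Sum.inl x11) = u2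
                cases b <;> cases u0 <;> cases u2 <;> simp [dB]
              rcases this with q0 | q0
              · exact ⟨x1, y1, mem x1 (by simp), mem y1 (by simp),
                  nodup_adj ndS (i := 0) (j := 1) rfl rfl (by omega), q0, c1.trans q0⟩
              · exact ⟨x11, y11, mem x11 (by simp), mem y11 (by simp),
                  nodup_adj ndS (i := 20) (j := 21) rfl rfl (by omega), q0, c11.trans q0⟩)
          omega
        · have := ccA (F := fun k => X (h2 k)) (u := X (Sum.inl x7)) (v := X (Sum.inl x9))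
            (b := b) (by rw [v2]; rfl) (by rw [v2]; rfl) (by rw [v2]; exact hCb _)
            (by rw [v2]; exact c7) (by rw [v2]; exact c9) (by rw [v2]; exact hCb _) k2
          omega
      · have := ccA (F := fun k => X (h1 k)) (u := X (Sum.inl x3)) (v := X (Sum.inl x5))
            (b := b) (by rw [v1]; rfl) (by rw [v1]; rfl) (by rw [v1]; exact hCb _)
            (by rw [v1]; exact c3) (by rw [v1]; exact c5) (by rw [v1]; exact hCb _) k1
        omega
  · intro g h cf
    have ne : ∀ x y : B.V, x ≠ B.root → y ≠ B.root → x ≠ y → B.par x = B.par y →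
        g (Sum.inl x) ≠ g (Sum.inl y) := fun x y hx hy hxy hp => cherry_ne cf hx hy hxy hp
    constructor
    · have := colA1 cf (by
        rw [v1, v1]
        exact ne x3 y3 xr3 yr3 (nodup_adj ndS (i := 4) (j := 5) rfl rfl (by omega)) pe3) (by
        rw [v1, v1]
        exact ne x5 y5 xr5 yr5 (nodup_adj ndS (i := 8) (j := 9) rfl rfl (by omega)) pe5)
      rw [v1, v1] at this
      exact this
    · have := colA2 cf (by
        rw [v2, v2]
        exact ne x7 y7 xr7 yr7 (nodup_adj ndS (i := 12) (j := 13) rfl rfl (by omega)) pe7) (by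
        rw [v2, v2]
        exact ne x9 y9 xr9 yr9 (nodup_adj ndS (i := 16) (j := 17) rfl rfl (by omega)) pe9)
      rw [v2, v2] at this
      exact this

end Pool.Agent.Helper1.Hist
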