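import Pool.Agent.Helper1.Hist.Chain
import Pool.Agent.Helper1.Hist.CaseA2

/-! Case B: the side `B` is a long chain on top of some tree. -/

namespace Pool.Agent.Helper1.Hist

open BT

variable {B C : BT}

theorem hexOK_B {P0 P1 P2 P3 : B.V} {Pp Pq : C.V} {h : Fin 6 → W B C}
    (e0 : up (h 0) = Sum.inl P0) (e1 : up (h 1) = Sum.inl P1) (e2 : up (h 2) = Sum.inl P2)
    (e3 : up (h 3) = Sum.inl P3) (e4 : up (h 4) = Sum.inr Pp) (e5 : up (h 5) = Sum.inr Pq)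
    (n01 : P0 ≠ P1) (n12 : P1 ≠ P2) (n23 : P2 ≠ P3) (n02 : P0 ≠ P2) (n13 : P1 ≠ P3)
    (t01 : ¬ B.tadj P0 P1) (t12 : ¬ B.tadj P1 P2) (t23 : ¬ B.tadj P2 P3)
    (r0 : P0 ≠ B.root) (r3 : P3 ≠ B.root) (npq : Pp ≠ Pq) (tpq : ¬ C.tadj Pp Pq) :
    HexOK h := by
  constructor
  · intro k
    fin_cases k
    · show up (h 0) ≠ up (h 1)
      rw [e0, e1]; exact fun h => n01 (Sum.inl.inj h)
    · show up (h 1) ≠ up (h 2)
      rw [e1, e2]; exact fun h => n12 (Sum.inl.inj h)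
    · show up (h 2) ≠ up (h 3)
      rw [e2, e3]; exact fun h => n23 (Sum.inl.inj h)
    · show up (h 3) ≠ up (h 4)
      rw [e3, e4]; exact Sum.inl_ne_inr
    · show up (h 4) ≠ up (h 5)
      rw [e4, e5]; exact fun h => npq (Sum.inr.inj h)
    · show up (h 5) ≠ up (h 0)
      rw [e5, e0]; exact Sum.inr_ne_inl
  · intro k
    fin_cases k
    · show ¬ (H B C).Adj (up (h 0)) (up (h 1))
      rw [e0, e1, H_adj_inl]; exact t01
    · show ¬ (H B C).Adj (up (h 1)) (up (h 2))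
      rw [e1, e2, H_adj_inl]; exact t12
    · show ¬ (H B C).Adj (up (h 2)) (up (h 3))
      rw [e2, e3, H_adj_inl]; exact t23
    · show ¬ (H B C).Adj (up (h 3)) (up (h 4))
      rw [e3, e4, H_adj_inl_inr]; exact fun h => r3 h.1
    · show ¬ (H B C).Adj (up (h 4)) (up (h 5))
      rw [e4, e5, H_adj_inr]; exact tpq
    · show ¬ (H B C).Adj (up (h 5)) (up (h 0))
      rw [e5, e0, SimpleGraph.adj_comm, H_adj_inl_inr]; exact fun h => r0 h.1
  · intro k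
    fin_cases k
    · show up (h 0) ≠ up (h 2)
      rw [e0, e2]; exact fun h => n02 (Sum.inl.inj h)
    · show up (h 1) ≠ up (h 3)
      rw [e1, e3]; exact fun h => n13 (Sum.inl.inj h)
    · show up (h 2) ≠ up (h 4)
      rw [e2, e4]; exact Sum.inl_ne_inr
    · show up (h 3) ≠ up (h 5)
      rw [e3, e5]; exact Sum.inl_ne_inr
    · show up (h 4) ≠ up (h 0)
      rw [e4, e0]; exact Sum.inr_ne_inl
    · show up (h 5) ≠ up (h 1)
      rw [e5, e1]; exact Sum.inr_ne_inl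

section

variable {nB : List B.V} {nC : List C.V} {h1 h2 : Fin 6 → W B C}
variable [NeZero nB.length] [NeZero nC.length] {sB : Fin nB.length} {sC : Fin nC.length}
variable {g : W B C → K4} {h : Slots nB nC → K4}

theorem colB1 (cf : ColFacts (posD nB nC h1 h2) (tauD nB nC sB sC) g h) (s : K4) (s0 : s ≠ 0)
    (s1 : s + g (h1 2) ≠ 0) (s2 : s + g (h1 2) + g (h1 0) ≠ 0)
    (s3 : s + g (h1 2) + g (h1 0) + g (h1 3) ≠ 0)
    (s4 : s + g (h1 2) + g (h1 0) + g (h1 3) + g (h1 1) ≠ 0) : g (h1 4) = g (h1 5) := by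
  have k : ∀ i : Fin 6, g (h1 (i + 1)) = h (Sum.inr (Sum.inr (Sum.inl (i + 1)))) +
      h (Sum.inr (Sum.inr (Sum.inl i))) := fun i => cf.g_pos (Sum.inr (Sum.inr (Sum.inl i)))
  have d : ∀ i : Fin 6, h (Sum.inr (Sum.inr (Sum.inl (i + 1)))) ≠
      h (Sum.inr (Sum.inr (Sum.inl i))) := fun i => cf.h_diff (Sum.inr (Sum.inr (Sum.inl i)))
  have k0 : g (h1 0) = _ := k 5
  have k1 : g (h1 1) = _ := k 0
  have k2 : g (h1 2) = _ := k 1
  have k3 : g (h1 3) = _ := k 2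
  have k4 : g (h1 4) = _ := k 3
  have k5 : g (h1 5) = _ := k 4
  rw [k4, k5]
  rw [k2] at s1
  rw [k2, k0] at s2
  rw [k2, k0, k3] at s3
  rw [k2, k0, k3, k1] at s4
  exact hexB _ _ _ _ _ _ s (cf.h_ne _) (cf.h_ne _) (cf.h_ne _) (cf.h_ne _) (cf.h_ne _)
    (cf.h_ne _) (d 5) (d 0) (d 1) (d 2) (d 3) (d 4) s0 s1 s2 s3 s4

theorem colB2 (cf : ColFacts (posD nB nC h1 h2) (tauD nB nC sB sC) g h) (s : K4) (s0 : s ≠ 0)
    (s1 : s + g (h2 2) ≠ 0) (s2 : s + g (h2 2) + g (h2 0) ≠ 0)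
    (s3 : s + g (h2 2) + g (h2 0) + g (h2 3) ≠ 0)
    (s4 : s + g (h2 2) + g (h2 0) + g (h2 3) + g (h2 1) ≠ 0) : g (h2 4) = g (h2 5) := by
  have k : ∀ i : Fin 6, g (h2 (i + 1)) = h (Sum.inr (Sum.inr (Sum.inr (i + 1)))) +
      h (Sum.inr (Sum.inr (Sum.inr i))) := fun i => cf.g_pos (Sum.inr (Sum.inr (Sum.inr i)))
  have d : ∀ i : Fin 6, h (Sum.inr (Sum.inr (Sum.inr (i + 1)))) ≠
      h (Sum.inr (Sum.inr (Sum.inr i))) := fun i => cf.h_diff (Sum.inr (Sum.inr (Sum.inr i)))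
  have k0 : g (h2 0) = _ := k 5
  have k1 : g (h2 1) = _ := k 0
  have k2 : g (h2 2) = _ := k 1
  have k3 : g (h2 3) = _ := k 2
  have k4 : g (h2 4) = _ := k 3
  have k5 : g (h2 5) = _ := k 4
  rw [k4, k5]
  rw [k2] at s1
  rw [k2, k0] at s2
  rw [k2, k0, k3] at s3
  rw [k2, k0, k3, k1] at s4
  exact hexB _ _ _ _ _ _ s (cf.h_ne _) (cf.h_ne _) (cf.h_ne _) (cf.h_ne _) (cf.h_ne _)
    (cf.h_ne _) (d 5) (d 0) (d 1) (d 2) (d 3) (d 4) s0 s1 s2 s3 s4

end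

theorem dB_Ico (U : ℕ → Bool) (i : ℕ) : ∀ j, i ≤ j →
    dB (U i) (U j) ≤ ∑ k ∈ Finset.Ico i j, dB (U (k + 1)) (U k) := by
  intro j hij
  induction j, hij using Nat.le_induction with
  | base => simp
  | succ j hij ih =>
    rw [Finset.sum_Ico_succ_top hij]
    have h1 := dB_tri (U i) (U j) (U (j + 1))
    have h2 := dB_comm (U j) (U (j + 1))
    omega

/-- the spine changes at most as often as there are crossings -/
theorem spine_two {n : ℕ} {t : BT} (X : (chain n t).V → Bool) {i j : ℕ} (hij : i ≤ j)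
    (hj : j ≤ n) : dB (X (uu n t 0)) (X (uu n t i)) + dB (X (uu n t i)) (X (uu n t j)) ≤
      (chain n t).cr X := by
  have h0 := cr_chain n t X
  have h1 := dB_Ico (fun k => X (uu n t k)) 0 i (by omega)
  have h2 := dB_Ico (fun k => X (uu n t k)) i j hij
  have h3 : ∑ k ∈ Finset.Ico 0 i, dB (X (uu n t (k + 1))) (X (uu n t k)) +
      ∑ k ∈ Finset.Ico i j, dB (X (uu n t (k + 1))) (X (uu n t k)) =
      ∑ k ∈ Finset.Ico 0 j, dB (X (uu n t (k + 1))) (X (uu n t k)) :=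
    Finset.sum_Ico_consecutive _ (by omega) hij
  have h4 : ∑ k ∈ Finset.Ico 0 j, dB (X (uu n t (k + 1))) (X (uu n t k)) ≤
      ∑ k ∈ Finset.range n, (dB (X (ll n t k)) (X (uu n t k)) +
        dB (X (uu n t (k + 1))) (X (uu n t k))) := by
    rw [← Finset.range_eq_Ico]
    refine (Finset.sum_le_sum_of_subset (Finset.range_subset_range.2 hj)).trans ?_
    apply Finset.sum_le_sum
    intro k _
    omega
  omega

theorem spine_mono {n : ℕ} {t : BT} (X : (chain n t).V → Bool) (hcr : (chain n t).cr X = 1)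
    {i j : ℕ} (hij : i ≤ j) (hj : j ≤ n) {b : Bool} (h0 : X (chain n t).root = b)
    (hb : X (uu n t j) = b) : X (uu n t i) = b := by
  have h := spine_two X hij hj
  rw [uu_zero, h0, hb, hcr] at h
  by_contra hne
  have e := not_flip hne
  rw [e] at h
  cases b <;> simp [dB] at h

theorem chain_leaves20 (t : BT) : (chain 20 t).leaves =
    [ll 20 t 0, ll 20 t 1, ll 20 t 2, ll 20 t 3, ll 20 t 4, ll 20 t 5, ll 20 t 6, ll 20 t 7,
      ll 20 t 8, ll 20 t 9, ll 20 t 10, ll 20 t 11, ll 20 t 12, ll 20 t 13, ll 20 t 14,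
      ll 20 t 15, ll 20 t 16, ll 20 t 17, ll 20 t 18, ll 20 t 19] ++ restL 20 t := by
  rw [leaves_chain]
  rfl

end Pool.Agent.Helper1.Hist
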