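import Pool.Agent.Helper1.Hist.CaseB

/-! Case B, assembled. -/

namespace Pool.Agent.Helper1.Hist

open BT

variable {B C : BT}

theorem perm_mixB {α : Type*} (n m : List α) (a b c d e f g h p q r s : α) :
    (n ++ (m ++ ([b, d, a, c, p, q] ++ [f, h, e, g, r, s]))).Perm
      ((n ++ [a, b, c, d, e, f, g, h]) ++ (m ++ [p, q, r, s])) := by
  classical
  rw [List.perm_iff_count]
  intro z
  simp only [List.count_append, List.count_cons, List.count_nil]
  ring

/-- the properties of a long chain which are used -/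
structure ChainData (B : BT) (l u : ℕ → B.V) (rs : List B.V) : Prop where
  hL : B.leaves = [l 0, l 1, l 2, l 3, l 4, l 5, l 6, l 7, l 8, l 9, l 10, l 11, l 12, l 13,
    l 14, l 15, l 16, l 17, l 18, l 19] ++ rs
  parl : ∀ j, j < 20 → B.par (l j) = u j
  rootl : ∀ j, j < 20 → l j ≠ B.root
  rootu : ∀ j, j < 20 → u (j + 1) ≠ B.root
  lfl : ∀ j, j < 20 → B.IsLf (l j)
  lcu : ∀ j, j < 20 → B.lc (u j) = l j ∧ B.rc (u j) = u (j + 1)
  nlfu : ∀ j, j < 20 → ¬ B.IsLf (u j)
  uinj : ∀ i j, i ≤ 20 → j ≤ 20 → i ≠ j → u i ≠ u j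
  tadju : ∀ i j, i ≤ 20 → j ≤ 20 → (i + 2 ≤ j ∨ j + 2 ≤ i) → ¬ B.tadj (u i) (u j)
  mono : ∀ (X : B.V → Bool), B.cr X = 1 → ∀ {i j : ℕ}, i ≤ j → j ≤ 20 → ∀ {b : Bool},
    X B.root = b → X (u j) = b → X (u i) = b
  crc : ∀ X : B.V → Bool, ∑ j ∈ Finset.range 20, (dB (X (l j)) (X (u j)) +
    dB (X (u (j + 1))) (X (u j))) ≤ B.cr X
  u0 : u 0 = B.root

theorem chainData_chain (t : BT) : ChainData (chain 20 t) (ll 20 t) (uu 20 t) (restL 20 t) where
  hL := chain_leaves20 t
  parl := par_ll 20 t
  rootl := ll_ne_root 20 t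
  rootu := uu_ne_root 20 t
  lfl := isLf_ll 20 t
  lcu := lc_uu 20 t
  nlfu := not_isLf_uu 20 t
  uinj := fun _ _ hi hj hij h => hij (uu_inj hi hj h)
  tadju := fun _ _ hi hj h => not_tadj_uu hi hj h
  mono := fun X h _ _ hij hj _ h0 hb => spine_mono X h hij hj h0 hb
  crc := cr_chain 20 t
  u0 := uu_zero 20 t

theorem chain_normal {t : BT} (ht : t.Normal) (n : ℕ) : (chain n t).Normal := by
  induction n with
  | zero => exact ht
  | succ n ih => exact ⟨trivial, ih, fun _ => rfl⟩

theorem caseB {l u : ℕ → B.V} {rs : List B.V} (cb : ChainData B l u rs) (hB : B.Normal)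
    (hC : C.Normal) (hlen : 19 ≤ C.leaves.length) (hH : (H B C).IsAcyclic) :
    ∃ G : SimpleGraph (W B C), IsSnark G ∧ H B C ≤ G := by
  obtain ⟨hL, parl, rootl, rootu, lfl, lcu, nlfu, uinj, tadju, mono, crc, u0⟩ := cb
  have hBl : B ≠ leaf := by
    rintro rfl
    exact rootl 0 (by omega) (leaf_eq_root _)
  have hCl : C ≠ leaf := by
    rintro rfl
    simp at hlen
  have hsepB := sepL_leaves hB
  have hnd := leaves_nodup B
  obtain ⟨nC, p1, q1, p2, q2, cd⟩ := exists_CData C hC hlen
  -- normal leaves of `B`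
  obtain ⟨nB, hnB⟩ : ∃ nB, nB = [l 0, l 1, l 6, l 7, l 12, l 13, l 14, l 15, l 16, l 17, l 18,
    l 19] ++ rs := ⟨_, rfl⟩
  have hperm : (nB ++ [l 2, l 3, l 4, l 5, l 8, l 9, l 10, l 11]).Perm B.leaves := by
    rw [hL, hnB, List.perm_iff_count]
    intro a
    simp only [List.count_append, List.count_cons, List.count_nil]
    ring
  have hsub : nB.Sublist B.leaves := by
    rw [hL, hnB]
    refine List.Sublist.append ?_ (List.Sublist.refl _)
    repeat (first | exact List.nil_sublist _ | apply List.Sublist.cons_cons |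
      apply List.Sublist.cons)
  have ndS : [l 0, l 1, l 2, l 3, l 4, l 5, l 6, l 7, l 8, l 9, l 10, l 11, l 12, l 13, l 14,
      l 15, l 16, l 17, l 18, l 19].Nodup := by
    have := hnd
    rw [hL] at this
    exact this.of_append_left
  have hlenB : 12 ≤ nB.length := by
    rw [hnB]
    simp only [List.length_append, List.length_cons]
    omega
  have mem : ∀ z : B.V, z ∈ [l 0, l 1, l 6, l 7, l 12, l 13, l 14, l 15, l 16, l 17, l 18,
      l 19] → z ∈ nB := by
    intro z hz
    rw [hnB, List.mem_append]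
    exact Or.inl hz
  have : NeZero nB.length := ⟨by omega⟩
  have : NeZero nC.length := ⟨by have := cd.len; omega⟩
  obtain ⟨s, hs3, hs2, hsc⟩ := exists_step hlenB
  obtain ⟨s', hs3', hs2', hsc'⟩ := exists_step cd.len
  set sB : Fin nB.length := ⟨s, by omega⟩ with hsB
  set sC : Fin nC.length := ⟨s', by omega⟩ with hsC
  have stB : Step nB.length sB.val := ⟨hlenB, hs3, hs2, hsc⟩
  have stC : Step nC.length sC.val := ⟨cd.len, hs3', hs2', hsc'⟩
  obtain ⟨h1, hh1⟩ : ∃ h1 : Fin 6 → W B C, h1 = ![Sum.inl (l 3), Sum.inl (l 5), Sum.inl (l 2),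
    Sum.inl (l 4), Sum.inr p1, Sum.inr q1] := ⟨_, rfl⟩
  obtain ⟨h2, hh2⟩ : ∃ h2 : Fin 6 → W B C, h2 = ![Sum.inl (l 9), Sum.inl (l 11), Sum.inl (l 8),
    Sum.inl (l 10), Sum.inr p2, Sum.inr q2] := ⟨_, rfl⟩
  have perm : (nB.map Sum.inl ++ (nC.map Sum.inr ++ (List.ofFn h1 ++ List.ofFn h2))).Perm
      (B.leaves.map Sum.inl ++ C.leaves.map (Sum.inr : C.V → W B C)) := by
    have k1 := (hperm.map (Sum.inl : B.V → W B C)).append
      (cd.perm.map (Sum.inr : C.V → W B C))
    refine List.Perm.trans ?_ k1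
    have o1 : List.ofFn h1 = [Sum.inl (l 3), Sum.inl (l 5), Sum.inl (l 2),
      Sum.inl (l 4), Sum.inr p1, Sum.inr q1] := by rw [hh1]; rfl
    have o2 : List.ofFn h2 = [Sum.inl (l 9), Sum.inl (l 11), Sum.inl (l 8),
      Sum.inl (l 10), Sum.inr p2, Sum.inr q2] := by rw [hh2]; rfl
    rw [o1, o2, List.map_append, List.map_append]
    exact perm_mixB _ _ _ _ _ _ _ _ _ _ _ _ _ _
  have lfP : ∀ z, z ∈ [p1, q1, p2, q2] → z ≠ C.root := by
    intro z hz
    apply leaf_ne_root hCl
    rw [← mem_leaves, ← cd.perm.mem_iff, List.mem_append]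
    exact Or.inr hz
  have upl : ∀ j, j < 20 → (up (Sum.inl (l j)) : W B C) = Sum.inl (u j) := by
    intro j hj
    rw [up_inl (rootl j hj), parl j hj]
  have x1h : HexOK h1 := by
    refine hexOK_B (P0 := u 3) (P1 := u 5) (P2 := u 2) (P3 := u 4) (Pp := C.par p1)
      (Pq := C.par q1) ?_ ?_ ?_ ?_ ?_ ?_ ?_ ?_ ?_ ?_ ?_ ?_ ?_ ?_ ?_ ?_ ?_ ?_
    · rw [hh1]; exact upl 3 (by omega)
    · rw [hh1]; exact upl 5 (by omega)
    · rw [hh1]; exact upl 2 (by omega)
    · rw [hh1]; exact upl 4 (by omega)
    · rw [hh1]; exact up_inr (lfP _ (by simp))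
    · rw [hh1]; exact up_inr (lfP _ (by simp))
    · exact uinj _ _ (by omega) (by omega) (by omega)
    · exact uinj _ _ (by omega) (by omega) (by omega)
    · exact uinj _ _ (by omega) (by omega) (by omega)
    · exact uinj _ _ (by omega) (by omega) (by omega)
    · exact uinj _ _ (by omega) (by omega) (by omega)
    · exact tadju _ _ (by omega) (by omega) (by omega)
    · exact tadju _ _ (by omega) (by omega) (by omega)
    · exact tadju _ _ (by omega) (by omega) (by omega)
    · exact rootu 2 (by omega)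
    · exact rootu 3 (by omega)
    · exact cd.sep1.1
    · exact cd.sep1.2
  have x2h : HexOK h2 := by
    refine hexOK_B (P0 := u 9) (P1 := u 11) (P2 := u 8) (P3 := u 10) (Pp := C.par p2)
      (Pq := C.par q2) ?_ ?_ ?_ ?_ ?_ ?_ ?_ ?_ ?_ ?_ ?_ ?_ ?_ ?_ ?_ ?_ ?_ ?_
    · rw [hh2]; exact upl 9 (by omega)
    · rw [hh2]; exact upl 11 (by omega)
    · rw [hh2]; exact upl 8 (by omega)
    · rw [hh2]; exact upl 10 (by omega)
    · rw [hh2]; exact up_inr (lfP _ (by simp))
    · rw [hh2]; exact up_inr (lfP _ (by simp))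
    · exact uinj _ _ (by omega) (by omega) (by omega)
    · exact uinj _ _ (by omega) (by omega) (by omega)
    · exact uinj _ _ (by omega) (by omega) (by omega)
    · exact uinj _ _ (by omega) (by omega) (by omega)
    · exact uinj _ _ (by omega) (by omega) (by omega)
    · exact tadju _ _ (by omega) (by omega) (by omega)
    · exact tadju _ _ (by omega) (by omega) (by omega)
    · exact tadju _ _ (by omega) (by omega) (by omega)
    · exact rootu 8 (by omega)
    · exact rootu 9 (by omega)
    · exact cd.sep2.1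
    · exact cd.sep2.2
  have hg : Good (posD nB nC h1 h2) (tauD nB nC sB sC) :=
    goodD hBl hCl perm (hsepB.sublist hsub) ((sepL_leaves hC).sublist cd.sub) stB stC x1h x2h
  have v1 : ∀ k : Fin 6, h1 k = (![Sum.inl (l 3), Sum.inl (l 5), Sum.inl (l 2),
    Sum.inl (l 4), Sum.inr p1, Sum.inr q1] : Fin 6 → W B C) k := by intro k; rw [hh1]
  have v2 : ∀ k : Fin 6, h2 k = (![Sum.inl (l 9), Sum.inl (l 11), Sum.inl (l 8),
    Sum.inl (l 10), Sum.inr p2, Sum.inr q2] : Fin 6 → W B C) k := by intro k; rw [hh2]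
  refine ⟨GG (posD nB nC h1 h2) (tauD nB nC sB sC), ?_, H_le_GG⟩
  refine snark_final hBl hCl hH stB.co stC.co hg cd ?_ ?_
  · refine sides_of cd ⟨⟨0, l 3, v1 0⟩, ⟨4, v1 4⟩, ⟨5, v1 5⟩⟩
      ⟨⟨0, l 9, v2 0⟩, ⟨4, v2 4⟩, ⟨5, v2 5⟩⟩ stC ?_ ?_
    · intro X a b1 b2 hX f1 f2
      have k := crc X
      simp only [Finset.sum_range_succ, Finset.sum_range_zero, Nat.reduceAdd] at k
      have g1 := hX (l 1) (mem _ (by simp))
      have g6 := hX (l 6) (mem _ (by simp))
      have g7 := hX (l 7) (mem _ (by simp))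
      have g12 := hX (l 12) (mem _ (by simp))
      have g2 := f1 2 (l 2) (v1 2)
      have g5 := f1 1 (l 5) (v1 1)
      have g8 := f2 2 (l 8) (v2 2)
      have g11 := f2 1 (l 11) (v2 1)
      have w : ∀ i j, dB (X (l i)) (X (l j)) ≤ dB (X (l i)) (X (u i)) +
          dB (X (u j)) (X (u i)) + dB (X (l j)) (X (u j)) := by
        intro i j
        have := dB_tri (X (l i)) (X (u i)) (X (l j))
        have := dB_tri (X (u i)) (X (u j)) (X (l j))
        have := dB_comm (X (u j)) (X (u i))
        have := dB_comm (X (l j)) (X (u j))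
        omega
      have w1 := w 1 2
      have w2 := w 5 6
      have w3 := w 7 8
      have w4 := w 11 12
      rw [g1, g2] at w1
      rw [g5, g6] at w2
      rw [g7, g8] at w3
      rw [g11, g12] at w4
      rw [g1, g2, g5, g6, g7, g8, g11, g12] at k
      have d1 := dB_comm a b1
      have d2 := dB_comm a b2
      omega
    · intro X b hCb hr hcr hp
      have eqlu : ∀ j, j < 20 → X (Sum.inl (l j)) = X (Sum.inl (u j)) := by
        intro j hj
        rw [hp _ (lfl j hj) (rootl j hj), parl j hj]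
      have mn : ∀ i j, i ≤ j → j < 20 → X (Sum.inl (l j)) = b → X (Sum.inl (l i)) = b := by
        intro i j hij hj hb
        rw [eqlu i (by omega)]
        rw [eqlu j hj] at hb
        exact mono (fun x => X (Sum.inl x)) hcr hij (by omega) hr hb
      rw [oW_eq]
      have hex1 : X (Sum.inl (l 5)) ≠ b → 2 ≤ cc 1 (fun k => X (h1 k)) := by
        intro hne
        apply two_le_cc6 (i := 1) (j := 4)
        show X (h1 1) ≠ X (h1 4)
        rw [v1, v1]
        show X (Sum.inl (l 5)) ≠ X (Sum.inr p1)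
        rw [hCb]; exact hne
      have hex2 : X (Sum.inl (l 11)) ≠ b → 2 ≤ cc 1 (fun k => X (h2 k)) := by
        intro hne
        apply two_le_cc6 (i := 1) (j := 4)
        show X (h2 1) ≠ X (h2 4)
        rw [v2, v2]
        show X (Sum.inl (l 11)) ≠ X (Sum.inr p2)
        rw [hCb]; exact hne
      have l0 : X (Sum.inl (l 0)) = b := by
        rw [eqlu 0 (by omega), u0, hr]
      by_cases k1 : X (Sum.inl (l 11)) = b
      · obtain ⟨pre, mid, post, hL', hpre, hmid, hpost, hlen⟩ :=
          cr_one_interval (fun x => X (Sum.inl x)) hcr hp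
        simp only [hr] at hpre hmid hpost
        have ndm : mid.Nodup := by
          have := hnd
          rw [hL'] at this
          exact this.of_append_right.of_append_left
        obtain ⟨m1, m2, hm1, hm2, hne⟩ := exists_two ndm hlen
        have f1 := hmid m1 hm1
        have f2 := hmid m2 hm2
        have gb : ∀ z ∈ [l 2, l 3, l 4, l 5, l 8, l 9, l 10, l 11], X (Sum.inl z) = b := by
          intro z hz
          simp only [List.mem_cons, List.not_mem_nil, or_false] at hz
          rcases hz with hz | hz | hz | hz | hz | hz | hz | hz <;> rw [hz]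
          · exact mn 2 11 (by omega) (by omega) k1
          · exact mn 3 11 (by omega) (by omega) k1
          · exact mn 4 11 (by omega) (by omega) k1
          · exact mn 5 11 (by omega) (by omega) k1
          · exact mn 8 11 (by omega) (by omega) k1
          · exact mn 9 11 (by omega) (by omega) k1
          · exact mn 10 11 (by omega) (by omega) k1
          · exact k1
        have inN : ∀ z ∈ mid, z ∈ nB := by
          intro z hz
          have hzL : z ∈ nB ++ [l 2, l 3, l 4, l 5, l 8, l 9, l 10, l 11] := by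
            rw [hperm.mem_iff, hL']; simp [hz]
          rw [List.mem_append] at hzL
          rcases hzL with h | h
          · exact h
          · exfalso
            have f := hmid z hz
            have f' := gb z h
            rw [f'] at f
            simp at f
        have key := four_of_two stB hsub hL' (fun x => X (Sum.inl x)) b hpre hmid hpost
          ⟨m1, m2, inN m1 hm1, inN m2 hm2, hne, f1, f2⟩
          ⟨l 0, l 1, mem _ (by simp), mem _ (by simp),
            nodup_adj ndS (i := 0) (j := 1) rfl rfl (by omega), l0,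
            mn 1 11 (by omega) (by omega) k1⟩
        omega
      · have q2 := hex2 k1
        by_cases k2 : X (Sum.inl (l 5)) = b
        · have k3 : X (Sum.inl (l 12)) ≠ b := fun h => k1 (mn 11 12 (by omega) (by omega) h)
          have := two_of_ne stB (fun x => X (Sum.inl x)) b
            ⟨l 12, mem _ (by simp), not_flip k3⟩ ⟨l 0, mem _ (by simp), l0⟩
          omega
        · have := hex1 k2
          omega
  · intro g h cf
    have sp : ∀ j, j < 20 → g (Sum.inl (u j)) + g (Sum.inl (l j)) = g (Sum.inl (u (j + 1))) := by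
      intro j hj
      have e := cf.g_node (Sum.inl (u j)) (nlfu j hj)
      change g (Sum.inl (u j)) = g (Sum.inl (B.lc (u j))) + g (Sum.inl (B.rc (u j))) at e
      rw [(lcu j hj).1, (lcu j hj).2] at e
      rw [e, add_comm (g (Sum.inl (l j))), add_assoc, K4_two, add_zero]
    constructor
    · have := colB1 cf (g (Sum.inl (u 2))) (cf.g_ne _) (by
        rw [v1]
        show g (Sum.inl (u 2)) + g (Sum.inl (l 2)) ≠ 0
        rw [sp 2 (by omega)]; exact cf.g_ne _) (by
        rw [v1, v1]
        show g (Sum.inl (u 2)) + g (Sum.inl (l 2)) + g (Sum.inl (l 3)) ≠ 0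
        rw [sp 2 (by omega), sp 3 (by omega)]; exact cf.g_ne _) (by
        rw [v1, v1, v1]
        show g (Sum.inl (u 2)) + g (Sum.inl (l 2)) + g (Sum.inl (l 3)) + g (Sum.inl (l 4)) ≠ 0
        rw [sp 2 (by omega), sp 3 (by omega), sp 4 (by omega)]; exact cf.g_ne _) (by
        rw [v1, v1, v1, v1]
        show g (Sum.inl (u 2)) + g (Sum.inl (l 2)) + g (Sum.inl (l 3)) + g (Sum.inl (l 4)) +
          g (Sum.inl (l 5)) ≠ 0
        rw [sp 2 (by omega), sp 3 (by omega), sp 4 (by omega), sp 5 (by omega)]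
        exact cf.g_ne _)
      rw [v1, v1] at this
      exact this
    · have := colB2 cf (g (Sum.inl (u 8))) (cf.g_ne _) (by
        rw [v2]
        show g (Sum.inl (u 8)) + g (Sum.inl (l 8)) ≠ 0
        rw [sp 8 (by omega)]; exact cf.g_ne _) (by
        rw [v2, v2]
        show g (Sum.inl (u 8)) + g (Sum.inl (l 8)) + g (Sum.inl (l 9)) ≠ 0
        rw [sp 8 (by omega), sp 9 (by omega)]; exact cf.g_ne _) (by
        rw [v2, v2, v2]
        show g (Sum.inl (u 8)) + g (Sum.inl (l 8)) + g (Sum.inl (l 9)) + g (Sum.inl (l 10)) ≠ 0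
        rw [sp 8 (by omega), sp 9 (by omega), sp 10 (by omega)]; exact cf.g_ne _) (by
        rw [v2, v2, v2, v2]
        show g (Sum.inl (u 8)) + g (Sum.inl (l 8)) + g (Sum.inl (l 9)) + g (Sum.inl (l 10)) +
          g (Sum.inl (l 11)) ≠ 0
        rw [sp 8 (by omega), sp 9 (by omega), sp 10 (by omega), sp 11 (by omega)]
        exact cf.g_ne _)
      rw [v2, v2] at this
      exact this

end Pool.Agent.Helper1.Hist
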