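import Pool.Agent.Helper1.Hist.CaseA

/-! Chains: `node leaf (node leaf (... t))`. -/

namespace Pool.Agent.Helper1.Hist

open BT

namespace BT

/-- a chain with `n` nodes on top of `t` -/
def chain : ℕ → BT → BT
  | 0, t => t
  | n + 1, t => node leaf (chain n t)

/-- spine vertices -/
def uu : (n : ℕ) → (t : BT) → ℕ → (chain n t).V
  | 0, t, _ => t.root
  | _ + 1, _, 0 => tp
  | n + 1, t, j + 1 => ir (uu n t j)

/-- chain leaves -/
def ll : (n : ℕ) → (t : BT) → ℕ → (chain n t).V
  | 0, t, _ => t.root
  | _ + 1, _, 0 => il leaf.root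
  | n + 1, t, j + 1 => ir (ll n t j)

/-- the other leaves -/
def restL : (n : ℕ) → (t : BT) → List (chain n t).V
  | 0, t => t.leaves
  | n + 1, t => (restL n t).map ir

@[simp] theorem uu_zero (n : ℕ) (t : BT) : uu n t 0 = (chain n t).root := by
  cases n <;> rfl

@[simp] theorem uu_succ (n : ℕ) (t : BT) (j : ℕ) : uu (n + 1) t (j + 1) = ir (uu n t j) := rfl
@[simp] theorem ll_zero (n : ℕ) (t : BT) : ll (n + 1) t 0 = il leaf.root := rfl
@[simp] theorem ll_succ (n : ℕ) (t : BT) (j : ℕ) : ll (n + 1) t (j + 1) = ir (ll n t j) := rfl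

theorem chain_succ (n : ℕ) (t : BT) : chain (n + 1) t = node leaf (chain n t) := rfl

theorem leaves_chain : (n : ℕ) → (t : BT) →
    (chain n t).leaves = (List.range n).map (ll n t) ++ restL n t
  | 0, t => rfl
  | n + 1, t => by
      show (node leaf (chain n t)).leaves = _
      rw [leaves_node, leaves_chain n t, List.range_succ_eq_map]
      simp only [leaves_leaf, List.map_cons, List.map_nil, List.map_append, List.map_map,
        List.cons_append, List.nil_append, restL]
      rfl

theorem ll_ne_root : (n : ℕ) → (t : BT) → (j : ℕ) → j < n → ll n t j ≠ (chain n t).root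
  | 0, _, _, h => absurd h (by omega)
  | n + 1, t, 0, _ => il_ne_tp
  | n + 1, t, j + 1, _ => ir_ne_tp

theorem uu_ne_root : (n : ℕ) → (t : BT) → (j : ℕ) → j < n → uu n t (j + 1) ≠ (chain n t).root
  | 0, _, _, h => absurd h (by omega)
  | n + 1, t, j, _ => ir_ne_tp

theorem par_ll : (n : ℕ) → (t : BT) → (j : ℕ) → j < n → (chain n t).par (ll n t j) = uu n t j
  | 0, _, _, h => absurd h (by omega)
  | n + 1, t, 0, _ => by
      show (node leaf (chain n t)).par (il leaf.root) = tp
      rw [par_il, if_pos rfl]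
  | n + 1, t, j + 1, h => by
      show (node leaf (chain n t)).par (ir (ll n t j)) = ir (uu n t j)
      rw [par_ir, if_neg (ll_ne_root n t j (by omega)), par_ll n t j (by omega)]

theorem par_uu : (n : ℕ) → (t : BT) → (j : ℕ) → j < n →
    (chain n t).par (uu n t (j + 1)) = uu n t j
  | 0, _, _, h => absurd h (by omega)
  | n + 1, t, 0, _ => by
      show (node leaf (chain n t)).par (ir (uu n t 0)) = tp
      rw [uu_zero, par_ir, if_pos rfl]
  | n + 1, t, j + 1, h => by
      show (node leaf (chain n t)).par (ir (uu n t (j + 1))) = ir (uu n t j)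
      rw [par_ir, if_neg (uu_ne_root n t j (by omega)), par_uu n t j (by omega)]

theorem lc_uu : (n : ℕ) → (t : BT) → (j : ℕ) → j < n →
    (chain n t).lc (uu n t j) = ll n t j ∧ (chain n t).rc (uu n t j) = uu n t (j + 1)
  | 0, _, _, h => absurd h (by omega)
  | n + 1, t, 0, _ => by
      refine ⟨rfl, ?_⟩
      show ir (chain n t).root = ir (uu n t 0)
      rw [uu_zero]
  | n + 1, t, j + 1, h => by
      have ih := lc_uu n t j (by omega)
      refine ⟨?_, ?_⟩
      · show ir ((chain n t).lc (uu n t j)) = ir (ll n t j)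
        rw [ih.1]
      · show ir ((chain n t).rc (uu n t j)) = ir (uu n t (j + 1))
        rw [ih.2]

theorem depth_uu : (n : ℕ) → (t : BT) → (j : ℕ) → j ≤ n → (chain n t).depth (uu n t j) = j
  | 0, t, 0, _ => depth_root t
  | 0, _, j + 1, h => absurd h (by omega)
  | n + 1, t, 0, _ => rfl
  | n + 1, t, j + 1, h => by
      show (chain n t).depth (uu n t j) + 1 = j + 1
      rw [depth_uu n t j (by omega)]

theorem uu_inj {n : ℕ} {t : BT} {i j : ℕ} (hi : i ≤ n) (hj : j ≤ n) (h : uu n t i = uu n t j) :
    i = j := by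
  have h1 := depth_uu n t i hi
  have h2 := depth_uu n t j hj
  rw [h] at h1
  omega

theorem isLf_ll : (n : ℕ) → (t : BT) → (j : ℕ) → j < n → (chain n t).IsLf (ll n t j)
  | 0, _, _, h => absurd h (by omega)
  | n + 1, t, 0, _ => trivial
  | n + 1, t, j + 1, h => isLf_ll n t j (by omega)

theorem not_isLf_uu : (n : ℕ) → (t : BT) → (j : ℕ) → j < n → ¬ (chain n t).IsLf (uu n t j)
  | 0, _, _, h => absurd h (by omega)
  | n + 1, t, 0, _ => fun h => h
  | n + 1, t, j + 1, h => not_isLf_uu n t j (by omega)

/-- crossings along the spine and the pendant edges -/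
theorem cr_chain : (n : ℕ) → (t : BT) → (X : (chain n t).V → Bool) →
    ∑ j ∈ Finset.range n, (dB (X (ll n t j)) (X (uu n t j)) +
      dB (X (uu n t (j + 1))) (X (uu n t j))) ≤ (chain n t).cr X
  | 0, t, X => by simp
  | n + 1, t, X => by
      have ih := cr_chain n t (fun x => X (ir x))
      rw [Finset.sum_range_succ']
      have e : (chain (n + 1) t).cr X = (0 : ℕ) + (chain n t).cr (fun x => X (ir x)) +
        dB (X (il leaf.root)) (X tp) + dB (X (ir (chain n t).root)) (X tp) := rfl
      rw [e]
      have e1 : X (uu (n + 1) t 0) = X tp := rfl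
      have e2 : X (uu (n + 1) t (0 + 1)) = X (ir (chain n t).root) := by
        show X (ir (uu n t 0)) = _
        rw [uu_zero]
      have e3 : X (ll (n + 1) t 0) = X (il leaf.root) := rfl
      rw [e1, e2, e3]
      have e4 : ∑ k ∈ Finset.range n, (dB (X (ll (n + 1) t (k + 1))) (X (uu (n + 1) t (k + 1))) +
          dB (X (uu (n + 1) t (k + 1 + 1))) (X (uu (n + 1) t (k + 1)))) =
          ∑ j ∈ Finset.range n, (dB (X (ir (ll n t j))) (X (ir (uu n t j))) +
            dB (X (ir (uu n t (j + 1)))) (X (ir (uu n t j)))) := rfl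
      rw [e4]
      omega

/-- adjacency on the spine -/
theorem not_tadj_uu {n : ℕ} {t : BT} {i j : ℕ} (hi : i ≤ n) (hj : j ≤ n)
    (h : i + 2 ≤ j ∨ j + 2 ≤ i) : ¬ (chain n t).tadj (uu n t i) (uu n t j) := by
  rintro (⟨h1, h2⟩ | ⟨h1, h2⟩)
  · cases i with
    | zero => rw [uu_zero] at h1; exact h1 rfl
    | succ i =>
      rw [par_uu n t i (by omega)] at h2
      have := uu_inj (by omega) (by omega) h2
      omega
  · cases j with
    | zero => rw [uu_zero] at h1; exact h1 rfl
    | succ j =>
      rw [par_uu n t j (by omega)] at h2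
      have := uu_inj (by omega) (by omega) h2
      omega

end BT

end Pool.Agent.Helper1.Hist
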