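import Pool.Agent.Helper1.Hist.Tree

/-! Circulant cycles `i ↦ i + s` on `Fin m`: counting changes of a Boolean function. -/

namespace Pool.Agent.Helper1.Hist

open BT

/-- number of changes of `F` along the cycle `i ↦ i + s` -/
def cc {m : ℕ} (s : Fin m) (F : Fin m → Bool) : ℕ := ∑ i : Fin m, dB (F i) (F (i + s))

theorem dB_parity (a b : Bool) : dB a b % 2 = (a.toNat + b.toNat) % 2 := by
  cases a <;> cases b <;> rfl

theorem cc_even {m : ℕ} [NeZero m] (s : Fin m) (F : Fin m → Bool) : cc s F % 2 = 0 := by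
  have h1 : cc s F % 2 = (∑ i : Fin m, ((F i).toNat + (F (i + s)).toNat)) % 2 := by
    unfold cc
    rw [Finset.sum_nat_mod, Finset.sum_nat_mod Finset.univ 2 (fun i =>
      ((F i).toNat + (F (i + s)).toNat))]
    congr 1
    apply Finset.sum_congr rfl
    intro i _
    exact dB_parity _ _
  rw [h1, Finset.sum_add_distrib]
  have h2 : ∑ i : Fin m, (F (i + s)).toNat = ∑ i : Fin m, (F i).toNat :=
    Equiv.sum_comp (Equiv.addRight s) (fun i => (F i).toNat)
  rw [h2]
  omega

theorem cc_const {m : ℕ} [NeZero m] (s : Fin m) (hs : Nat.Coprime s.val m) (F : Fin m → Bool)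
    (h : cc s F ≤ 1) : ∀ i, F i = F 0 := by
  have h0 : cc s F = 0 := by have := cc_even s F; omega
  have h1 : ∀ i, F i = F (i + s) := by
    intro i
    have := (Finset.sum_eq_zero_iff.1 h0) i (Finset.mem_univ i)
    exact dB_eq_zero.1 this
  have h2 : ∀ k : ℕ, ∀ i : Fin m, i.val = (k * s.val) % m → F i = F 0 := by
    intro k
    induction k with
    | zero =>
      intro i hi
      congr 1
      apply Fin.ext
      simpa using hi
    | succ k ih =>
      intro i hi
      have hm : 0 < m := Nat.pos_of_ne_zero (NeZero.ne m)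
      have h3 := ih ⟨(k * s.val) % m, Nat.mod_lt _ hm⟩ rfl
      rw [h1] at h3
      rw [← h3]
      congr 1
      apply Fin.ext
      rw [Fin.val_add, hi]
      simp only [Nat.mod_add_mod]
      congr 1
      ring
  intro i
  have hm : 0 < m := Nat.pos_of_ne_zero (NeZero.ne m)
  have hu : ((s.val : ZMod m)) * (s.val : ZMod m)⁻¹ = 1 := ZMod.coe_mul_inv_eq_one _ hs
  set k : ℕ := ((i.val : ZMod m) * (s.val : ZMod m)⁻¹).val with hk
  apply h2 k i
  have h4 : (((k * s.val : ℕ)) : ZMod m) = ((i.val : ℕ) : ZMod m) := by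
    push_cast
    rw [hk, ZMod.natCast_zmod_val, mul_assoc, mul_comm ((s.val : ZMod m)⁻¹), hu, mul_one]
  have h5 := (ZMod.natCast_eq_natCast_iff' _ _ _).1 h4
  rw [h5, Nat.mod_eq_of_lt i.isLt]

theorem mod_two_cases {x m : ℕ} (h : x < 2 * m) : x % m = if x < m then x else x - m := by
  by_cases hx : x < m
  · rw [if_pos hx, Nat.mod_eq_of_lt hx]
  · rw [if_neg hx, Nat.mod_eq_sub_mod (by omega), Nat.mod_eq_of_lt (by omega)]

theorem four_le_sum {m : ℕ} (g : Fin m → ℕ) (a b c d : Fin m) (hab : a ≠ b) (hac : a ≠ c)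
    (had : a ≠ d) (hbc : b ≠ c) (hbd : b ≠ d) (hcd : c ≠ d) (ha : 1 ≤ g a) (hb : 1 ≤ g b)
    (hc : 1 ≤ g c) (hd : 1 ≤ g d) : 4 ≤ ∑ i : Fin m, g i := by
  have h1 : ∑ i ∈ ({a, b, c, d} : Finset (Fin m)), g i ≤ ∑ i : Fin m, g i :=
    Finset.sum_le_sum_of_subset (Finset.subset_univ _)
  rw [Finset.sum_insert (by simp [hab, hac, had]), Finset.sum_insert (by simp [hbc, hbd]),
    Finset.sum_insert (by simp [hcd]), Finset.sum_singleton] at h1
  omega

theorem one_le_dB {a b : Bool} (h : a ≠ b) : 1 ≤ dB a b := by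
  unfold dB; rw [if_neg h]

/-- interval pattern -/
theorem cc_four {m : ℕ} (s : Fin m) (hs2 : 2 ≤ s.val) (hsm : s.val + 2 ≤ m) (F : Fin m → Bool)
    (b : Bool) (l a : ℕ) (hla : l + a ≤ m) (ha : 2 ≤ a) (ham : a + 2 ≤ m)
    (hF : ∀ i : Fin m, F i = if l ≤ i.val ∧ i.val < l + a then !b else b) : 4 ≤ cc s F := by
  have key : ∀ (i : Fin m) (j : ℕ), (i.val + s.val) % m = j →
      ((l ≤ i.val ∧ i.val < l + a ∧ ¬ (l ≤ j ∧ j < l + a)) ∨
       (¬ (l ≤ i.val ∧ i.val < l + a) ∧ (l ≤ j ∧ j < l + a))) → 1 ≤ dB (F i) (F (i + s)) := by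
    intro i j hj h
    apply one_le_dB
    rw [hF i, hF (i + s), Fin.val_add, hj]
    rcases h with ⟨h1, h2, h3⟩ | ⟨h1, h2⟩
    · rw [if_pos ⟨h1, h2⟩, if_neg h3]; cases b <;> simp
    · rw [if_neg h1, if_pos h2]; cases b <;> simp
  unfold cc
  by_cases hc : s.val + a ≤ m
  · -- out: l+a-1, l+a-2 ; in: l - s, l + 1 - s
    have e1 : l + a - 1 < m := by omega
    have e2 : l + a - 2 < m := by omega
    have e3 : (if s.val ≤ l then l - s.val else l + m - s.val) < m := by split_ifs <;> omega
    have e4 : (if s.val ≤ l + 1 then l + 1 - s.val else l + 1 + m - s.val) < m := by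
      split_ifs <;> omega
    refine four_le_sum _ ⟨_, e1⟩ ⟨_, e2⟩ ⟨_, e3⟩ ⟨_, e4⟩ ?_ ?_ ?_ ?_ ?_ ?_ ?_ ?_ ?_ ?_
    · simp only [ne_eq, Fin.mk.injEq]; omega
    · simp only [ne_eq, Fin.mk.injEq]; split_ifs <;> omega
    · simp only [ne_eq, Fin.mk.injEq]; split_ifs <;> omega
    · simp only [ne_eq, Fin.mk.injEq]; split_ifs <;> omega
    · simp only [ne_eq, Fin.mk.injEq]; split_ifs <;> omega
    · simp only [ne_eq, Fin.mk.injEq]; split_ifs <;> omega
    · refine key _ _ rfl (Or.inl ?_)
      simp only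
      rw [mod_two_cases (by omega)]
      split_ifs <;> omega
    · refine key _ _ rfl (Or.inl ?_)
      simp only
      rw [mod_two_cases (by omega)]
      split_ifs <;> omega
    · refine key _ _ rfl (Or.inr ?_)
      simp only
      by_cases h : s.val ≤ l
      · rw [if_pos h, mod_two_cases (by omega)]
        split_ifs <;> omega
      · rw [if_neg h, mod_two_cases (by omega)]
        split_ifs <;> omega
    · refine key _ _ rfl (Or.inr ?_)
      simp only
      by_cases h : s.val ≤ l + 1
      · rw [if_pos h, mod_two_cases (by omega)]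
        split_ifs <;> omega
      · rw [if_neg h, mod_two_cases (by omega)]
        split_ifs <;> omega
  · -- complement interval starts at l + a, length m - a < s
    have e1 : (if l + a < m then l + a else 0) < m := by split_ifs <;> omega
    have e2 : (if l + a + 1 < m then l + a + 1 else l + a + 1 - m) < m := by
      split_ifs <;> omega
    -- i + s = l - 1 , l - 2 (mod m)
    have e3 : (if s.val + 1 ≤ l then l - 1 - s.val else l + m - 1 - s.val) < m := by
      split_ifs <;> omega
    have e4 : (if s.val + 2 ≤ l then l - 2 - s.val else l + m - 2 - s.val) < m := by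
      split_ifs <;> omega
    refine four_le_sum _ ⟨_, e1⟩ ⟨_, e2⟩ ⟨_, e3⟩ ⟨_, e4⟩ ?_ ?_ ?_ ?_ ?_ ?_ ?_ ?_ ?_ ?_
    · simp only [ne_eq, Fin.mk.injEq]; split_ifs <;> omega
    · simp only [ne_eq, Fin.mk.injEq]; split_ifs <;> omega
    · simp only [ne_eq, Fin.mk.injEq]; split_ifs <;> omega
    · simp only [ne_eq, Fin.mk.injEq]; split_ifs <;> omega
    · simp only [ne_eq, Fin.mk.injEq]; split_ifs <;> omega
    · simp only [ne_eq, Fin.mk.injEq]; split_ifs <;> omega
    · refine key _ _ rfl (Or.inr ?_)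
      simp only
      by_cases h : l + a < m
      · rw [if_pos h, mod_two_cases (by omega)]
        split_ifs <;> omega
      · rw [if_neg h, mod_two_cases (by omega)]
        split_ifs <;> omega
    · refine key _ _ rfl (Or.inr ?_)
      simp only
      by_cases h : l + a + 1 < m
      · rw [if_pos h, mod_two_cases (by omega)]
        split_ifs <;> omega
      · rw [if_neg h, mod_two_cases (by omega)]
        split_ifs <;> omega
    · refine key _ _ rfl (Or.inl ?_)
      simp only
      by_cases h : s.val + 1 ≤ l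
      · rw [if_pos h, mod_two_cases (by omega)]
        split_ifs <;> omega
      · rw [if_neg h, mod_two_cases (by omega)]
        split_ifs <;> omega
    · refine key _ _ rfl (Or.inl ?_)
      simp only
      by_cases h : s.val + 2 ≤ l
      · rw [if_pos h, mod_two_cases (by omega)]
        split_ifs <;> omega
      · rw [if_neg h, mod_two_cases (by omega)]
        split_ifs <;> omega

theorem exists_step {m : ℕ} (hm : 12 ≤ m) : ∃ s, 3 ≤ s ∧ 2 * s + 2 ≤ m ∧ Nat.Coprime s m := by
  rcases Nat.even_or_odd m with ⟨h, hh⟩ | ho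
  · rcases Nat.even_or_odd h with he | ho
    · refine ⟨h - 1, by omega, by omega, ?_⟩
      obtain ⟨k, hk⟩ := he
      have h1 : m = 2 * (h - 1) + 2 := by omega
      rw [h1, Nat.coprime_mul_right_add_right]
      rw [Nat.coprime_two_right]
      exact ⟨k - 1, by omega⟩
    · refine ⟨h - 2, by omega, by omega, ?_⟩
      obtain ⟨k, hk⟩ := ho
      have h1 : m = 2 * (h - 2) + 2 * 2 := by omega
      rw [h1, Nat.coprime_mul_right_add_right]
      refine Nat.Coprime.mul_right ?_ ?_ <;>
      · rw [Nat.coprime_two_right]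
        exact ⟨k - 1, by omega⟩
  · refine ⟨4, by omega, by omega, ?_⟩
    have : (4 : ℕ) = 2 * 2 := rfl
    rw [this]
    refine Nat.Coprime.mul_left ?_ ?_ <;>
    · rw [Nat.coprime_comm, Nat.coprime_two_right]
      exact ho

end Pool.Agent.Helper1.Hist
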