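import Pool.Agent.Helper1.Hist.Setup

/-! The counting claim, modulo properties of the two sides. -/

namespace Pool.Agent.Helper1.Hist

open BT

variable {B C : BT}
variable {nB : List B.V} {nC : List C.V} {h1 h2 : Fin 6 → W B C}
variable [NeZero nB.length] [NeZero nC.length] {sB : Fin nB.length} {sC : Fin nC.length}

theorem two_le_cc6 {F : Fin 6 → Bool} {i j : Fin 6} (h : F i ≠ F j) : 2 ≤ cc 1 F := by
  by_contra hn
  have h1 := cc_const (1 : Fin 6) (by decide) F (by omega)
  exact h ((h1 i).trans (h1 j).symm)

theorem two_le_cc {m : ℕ} [NeZero m] {s : Fin m} (hs : Nat.Coprime s.val m) {F : Fin m → Bool}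
    {i j : Fin m} (h : F i ≠ F j) : 2 ≤ cc s F := by
  by_contra hn
  have h1 := cc_const s hs F (by omega)
  exact h ((h1 i).trans (h1 j).symm)

/-- all hypotheses on the two sides -/
structure Sides (nB : List B.V) (nC : List C.V) (h1 h2 : Fin 6 → W B C)
    [NeZero nB.length] [NeZero nC.length] (sB : Fin nB.length) (sC : Fin nC.length) : Prop where
  MB : ∀ (X : B.V → Bool) (a b1 b2 : Bool), (∀ x ∈ nB, X x = a) →
    (∀ k x, h1 k = Sum.inl x → X x = b1) → (∀ k x, h2 k = Sum.inl x → X x = b2) →
    2 * dB a b1 + 2 * dB a b2 ≤ B.cr X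
  MC : ∀ (X : C.V → Bool) (a b1 b2 : Bool), (∀ x ∈ nC, X x = a) →
    (∀ k x, h1 k = Sum.inr x → X x = b1) → (∀ k x, h2 k = Sum.inr x → X x = b2) →
    2 * dB a b1 + 2 * dB a b2 ≤ C.cr X
  SB : ∀ (X : W B C → Bool) (b : Bool), (∀ y, X (Sum.inr y) = b) → X (Sum.inl B.root) = b →
    B.cr (fun x => X (Sum.inl x)) = 1 →
    (∀ x, B.IsLf x → x ≠ B.root → X (Sum.inl x) = X (Sum.inl (B.par x))) →
    4 ≤ oW (posD nB nC h1 h2) (tauD nB nC sB sC) X
  SC : ∀ (X : W B C → Bool) (b : Bool), (∀ y, X (Sum.inl y) = b) → X (Sum.inr C.root) = b →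
    C.cr (fun x => X (Sum.inr x)) = 1 →
    (∀ x, C.IsLf x → x ≠ C.root → X (Sum.inr x) = X (Sum.inr (C.par x))) →
    4 ≤ oW (posD nB nC h1 h2) (tauD nB nC sB sC) X
  b1 : ∃ k x, h1 k = Sum.inl x
  b2 : ∃ k x, h2 k = Sum.inl x
  c1 : ∃ k x, h1 k = Sum.inr x
  c2 : ∃ k x, h2 k = Sum.inr x

theorem claimK (hg : Good (posD nB nC h1 h2) (tauD nB nC sB sC))
    (coB : Nat.Coprime sB.val nB.length) (coC : Nat.Coprime sC.val nC.length)
    (hs : Sides nB nC h1 h2 sB sC) (X : W B C → Bool)
    (hX : tW X + oW (posD nB nC h1 h2) (tauD nB nC sB sC) X ≤ 3) : Side X := by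
  by_cases ho : oW (posD nB nC h1 h2) (tauD nB nC sB sC) X ≤ 1
  · have ho' := ho
    rw [oW_eq] at ho'
    have k1 := cc_const sB coB (fun i => X (Sum.inl (nB.get i))) (by omega)
    have k2 := cc_const sC coC (fun i => X (Sum.inr (nC.get i))) (by omega)
    have k3 := cc_const (1 : Fin 6) (by decide) (fun k => X (h1 k)) (by omega)
    have k4 := cc_const (1 : Fin 6) (by decide) (fun k => X (h2 k)) (by omega)
    set a := X (Sum.inl (nB.get 0))
    set a' := X (Sum.inr (nC.get 0))
    set b1 := X (h1 0)
    set b2 := X (h2 0)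
    have m1 := hs.MB (fun x => X (Sum.inl x)) a b1 b2 (by
      intro x hx
      obtain ⟨i, rfl⟩ := List.get_of_mem hx
      exact k1 i) (by
      intro k x hk
      show X (Sum.inl x) = b1
      rw [← hk]; exact k3 k) (by
      intro k x hk
      show X (Sum.inl x) = b2
      rw [← hk]; exact k4 k)
    have m2 := hs.MC (fun x => X (Sum.inr x)) a' b1 b2 (by
      intro x hx
      obtain ⟨i, rfl⟩ := List.get_of_mem hx
      exact k2 i) (by
      intro k x hk
      show X (Sum.inr x) = b1
      rw [← hk]; exact k3 k) (by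
      intro k x hk
      show X (Sum.inr x) = b2
      rw [← hk]; exact k4 k)
    have ht : tW X ≤ 3 := by omega
    unfold tW at ht
    have hall : a' = a ∧ b1 = a ∧ b2 = a := by
      have hsum : 2 * dB a b1 + 2 * dB a b2 + (2 * dB a' b1 + 2 * dB a' b2) ≤ 3 := by omega
      clear_value a a' b1 b2
      revert hsum
      cases a <;> cases a' <;> cases b1 <;> cases b2 <;> simp [dB]
    obtain ⟨e1, e2, e3⟩ := hall
    have hlf : ∀ u, IsLfW u → X u = a := by
      intro u hu
      obtain ⟨s, rfl⟩ := hg.surj u hu
      rcases s with i | i | i | i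
      · exact k1 i
      · exact (k2 i).trans e1
      · exact (k3 i).trans e2
      · exact (k4 i).trans e3
    rcases Bool.eq_false_or_eq_true a with ha | ha
    · left; intro u hu; rw [hlf u hu, ha]
    · right; left; intro u hu; rw [hlf u hu, ha]
  · have ht : tW X ≤ 1 := by omega
    have ht' := ht
    unfold tW at ht'
    by_cases he : dB (X (Sum.inl B.root)) (X (Sum.inr C.root)) = 1
    · -- the root edge is the only crossing tree edge
      exfalso
      have z1 := cr_zero B (fun x => X (Sum.inl x)) (by omega)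
      have z2 := cr_zero C (fun x => X (Sum.inr x)) (by omega)
      have hne : X (Sum.inl B.root) ≠ X (Sum.inr C.root) := by
        intro h; rw [h, dB_self] at he; omega
      obtain ⟨k, x, hk⟩ := hs.b1
      obtain ⟨k', y, hk'⟩ := hs.c1
      have q1 : 2 ≤ cc 1 (fun k => X (h1 k)) := by
        apply two_le_cc6 (i := k) (j := k')
        simp only [hk, hk', z1 x, z2 y]; exact hne
      obtain ⟨k, x, hk⟩ := hs.b2
      obtain ⟨k', y, hk'⟩ := hs.c2
      have q2 : 2 ≤ cc 1 (fun k => X (h2 k)) := by
        apply two_le_cc6 (i := k) (j := k')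
        simp only [hk, hk', z1 x, z2 y]; exact hne
      rw [oW_eq] at hX
      omega
    · have he0 : dB (X (Sum.inl B.root)) (X (Sum.inr C.root)) = 0 := by
        have := dB_le (X (Sum.inl B.root)) (X (Sum.inr C.root)); omega
      have heq := dB_eq_zero.1 he0
      by_cases c1 : B.cr (fun x => X (Sum.inl x)) = 1
      · have z2 := cr_zero C (fun x => X (Sum.inr x)) (by omega)
        obtain ⟨pre, mid, post, _, _, _, _, hor⟩ := cr_one B (fun x => X (Sum.inl x)) c1
        rcases hor with ⟨z, _, hz⟩ | ⟨_, hp⟩
        · have hz' : ∀ u, X u = (!X (Sum.inl B.root)) → u = Sum.inl z := by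
            intro u hu
            rcases u with x | y
            · rw [hz x hu]
            · exfalso; rw [z2 y, ← heq] at hu; simp at hu
          rcases Bool.eq_false_or_eq_true (X (Sum.inl B.root)) with hb | hb
          · right; right; right
            exact ⟨Sum.inl z, fun u hu => hz' u (by rw [hu, hb]; rfl)⟩
          · right; right; left
            exact ⟨Sum.inl z, fun u hu => hz' u (by rw [hu, hb]; rfl)⟩
        · exfalso
          have := hs.SB X (X (Sum.inl B.root)) (fun y => by rw [z2 y, heq]) rfl c1 hp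
          omega
      · by_cases c2 : C.cr (fun x => X (Sum.inr x)) = 1
        · have z1 := cr_zero B (fun x => X (Sum.inl x)) (by omega)
          obtain ⟨pre, mid, post, _, _, _, _, hor⟩ := cr_one C (fun x => X (Sum.inr x)) c2
          rcases hor with ⟨z, _, hz⟩ | ⟨_, hp⟩
          · have hz' : ∀ u, X u = (!X (Sum.inr C.root)) → u = Sum.inr z := by
              intro u hu
              rcases u with x | y
              · exfalso; rw [z1 x, heq] at hu; simp at hu
              · rw [hz y hu]
            rcases Bool.eq_false_or_eq_true (X (Sum.inr C.root)) with hb | hb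
            · right; right; right
              exact ⟨Sum.inr z, fun u hu => hz' u (by rw [hu, hb]; rfl)⟩
            · right; right; left
              exact ⟨Sum.inr z, fun u hu => hz' u (by rw [hu, hb]; rfl)⟩
          · exfalso
            have := hs.SC X (X (Sum.inr C.root)) (fun y => by rw [z1 y, heq]) rfl c2 hp
            omega
        · have z1 := cr_zero B (fun x => X (Sum.inl x)) (by omega)
          have z2 := cr_zero C (fun x => X (Sum.inr x)) (by omega)
          have hall : ∀ u, X u = X (Sum.inl B.root) := by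
            intro u
            rcases u with x | y
            · exact z1 x
            · rw [z2 y, heq]
          rcases Bool.eq_false_or_eq_true (X (Sum.inl B.root)) with hb | hb
          · left; intro u _; rw [hall u, hb]
          · right; left; intro u _; rw [hall u, hb]

end Pool.Agent.Helper1.Hist
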