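import Pool.Agent.Helper1.Hist.Graph

/-! Colourings: parity facts. -/

namespace Pool.Agent.Helper1.Hist

open BT

/-- Klein four-group -/
abbrev K4 : Type := ZMod 2 × ZMod 2

/-- the three nonzero elements -/
def nz : Fin 3 → K4 := ![(0, 1), (1, 0), (1, 1)]

theorem nz_ne (a : Fin 3) : nz a ≠ 0 := by revert a; decide
theorem nz_ne_nz {a b : Fin 3} (h : a ≠ b) : nz a ≠ nz b := by revert a b; decide
theorem nz_sum {a b c : Fin 3} (h1 : a ≠ b) (h2 : a ≠ c) (h3 : b ≠ c) : nz a = nz b + nz c := by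
  revert a b c; decide
theorem K4_two (a : K4) : a + a = 0 := by revert a; decide

/-- Boolean form of `hexA` -/
def chkA (h0 h1 h2 h3 h4 h5 : K4) : Bool :=
  h0 == 0 || h1 == 0 || h2 == 0 || h3 == 0 || h4 == 0 || h5 == 0 || h0 == h5 || h1 == h0 ||
  h2 == h1 || h3 == h2 || h4 == h3 || h5 == h4 || h0 + h5 == h3 + h2 || h1 + h0 == h4 + h3 ||
  h2 + h1 == h5 + h4

theorem chkA_all : ∀ h0 h1 h2 h3 h4 h5 : K4, chkA h0 h1 h2 h3 h4 h5 = true := by
  decide +kernel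

theorem hexA (h0 h1 h2 h3 h4 h5 : K4) (n0 : h0 ≠ 0) (n1 : h1 ≠ 0) (n2 : h2 ≠ 0) (n3 : h3 ≠ 0)
    (n4 : h4 ≠ 0) (n5 : h5 ≠ 0) (d0 : h0 ≠ h5) (d1 : h1 ≠ h0) (d2 : h2 ≠ h1) (d3 : h3 ≠ h2)
    (d4 : h4 ≠ h3) (d5 : h5 ≠ h4) (e0 : h0 + h5 ≠ h3 + h2) (e1 : h1 + h0 ≠ h4 + h3) :
    h2 + h1 = h5 + h4 := by
  have h := chkA_all h0 h1 h2 h3 h4 h5
  unfold chkA at h
  simpa only [Bool.or_eq_true, beq_iff_eq, n0, n1, n2, n3, n4, n5, d0, d1, d2, d3, d4, d5, e0, e1,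
    false_or] using h

/-- Boolean form of `hexB` -/
def chkB (h0 h1 h2 h3 h4 h5 s : K4) : Bool :=
  h0 == 0 || h1 == 0 || h2 == 0 || h3 == 0 || h4 == 0 || h5 == 0 || h0 == h5 || h1 == h0 ||
  h2 == h1 || h3 == h2 || h4 == h3 || h5 == h4 || s == 0 || s + (h2 + h1) == 0 ||
  s + (h2 + h1) + (h0 + h5) == 0 || s + (h2 + h1) + (h0 + h5) + (h3 + h2) == 0 ||
  s + (h2 + h1) + (h0 + h5) + (h3 + h2) + (h1 + h0) == 0 || h4 + h3 == h5 + h4

theorem chkB_all : ∀ h0 h1 h2 h3 h4 h5 s : K4, chkB h0 h1 h2 h3 h4 h5 s = true := by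
  decide +kernel

theorem hexB (h0 h1 h2 h3 h4 h5 s : K4) (n0 : h0 ≠ 0) (n1 : h1 ≠ 0) (n2 : h2 ≠ 0) (n3 : h3 ≠ 0)
    (n4 : h4 ≠ 0) (n5 : h5 ≠ 0) (d0 : h0 ≠ h5) (d1 : h1 ≠ h0) (d2 : h2 ≠ h1) (d3 : h3 ≠ h2)
    (d4 : h4 ≠ h3) (d5 : h5 ≠ h4) (s0 : s ≠ 0) (s1 : s + (h2 + h1) ≠ 0)
    (s2 : s + (h2 + h1) + (h0 + h5) ≠ 0) (s3 : s + (h2 + h1) + (h0 + h5) + (h3 + h2) ≠ 0)
    (s4 : s + (h2 + h1) + (h0 + h5) + (h3 + h2) + (h1 + h0) ≠ 0) :
    h4 + h3 = h5 + h4 := by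
  have h := chkB_all h0 h1 h2 h3 h4 h5 s
  unfold chkB at h
  simpa only [Bool.or_eq_true, beq_iff_eq, n0, n1, n2, n3, n4, n5, d0, d1, d2, d3, d4, d5, s0, s1,
    s2, s3, s4, false_or] using h

/-- facts about a proper colouring of `GG` with values in `K4` -/
structure ColFacts {B C : BT} {S : Type} (pos : S → W B C) (τ : Equiv.Perm S)
    (g : W B C → K4) (h : S → K4) : Prop where
  g_ne : ∀ u, g u ≠ 0
  h_ne : ∀ s, h s ≠ 0
  h_diff : ∀ s, h (τ s) ≠ h s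
  g_pos : ∀ s, g (pos (τ s)) = h (τ s) + h s
  g_node : ∀ u, ¬ IsLfW u → g u = g (lcW u) + g (rcW u)
  g_root : g (Sum.inl B.root) = g (Sum.inr C.root)

theorem exists_colFacts {B C : BT} {S : Type} {pos : S → W B C} {τ : Equiv.Perm S}
    (hB : B ≠ leaf) (hC : C ≠ leaf) (hg : Good pos τ)
    (hc : ThreeEdgeColourable (GG pos τ)) : ∃ g h, ColFacts pos τ g h := by
  obtain ⟨c, hc⟩ := hc
  refine ⟨fun u => nz (c s(u, up u)), fun s => nz (c s(pos s, pos (τ s))), ?_⟩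
  constructor
  · intro u; exact nz_ne _
  · intro s; exact nz_ne _
  · intro s
    apply nz_ne_nz
    rw [Sym2.eq_swap (a := pos s)]
    apply hc
    · rw [GG_adj_leaf hB hC hg]; exact Or.inr (Or.inl rfl)
    · rw [GG_adj_leaf hB hC hg]; right; right; rw [Equiv.symm_apply_apply]
    · intro h; exact hg.t2 s (hg.inj h)
  · intro s
    show nz (c s(pos (τ s), up (pos (τ s)))) = nz (c s(pos (τ s), pos (τ (τ s)))) +
      nz (c s(pos s, pos (τ s)))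
    have a1 : (GG pos τ).Adj (pos (τ s)) (up (pos (τ s))) := by
      rw [GG_adj_leaf hB hC hg]; exact Or.inl rfl
    have a2 : (GG pos τ).Adj (pos (τ s)) (pos (τ (τ s))) := by
      rw [GG_adj_leaf hB hC hg]; exact Or.inr (Or.inl rfl)
    have a3 : (GG pos τ).Adj (pos (τ s)) (pos s) := by
      rw [GG_adj_leaf hB hC hg]; right; right; rw [Equiv.symm_apply_apply]
    rw [Sym2.eq_swap (a := pos s)]
    apply nz_sum
    · exact hc _ _ _ a1 a2 (up_ne_pos hB hC hg _ _)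
    · exact hc _ _ _ a1 a3 (up_ne_pos hB hC hg _ _)
    · exact hc _ _ _ a2 a3 (fun h => hg.t2 s (hg.inj h))
  · intro u hu
    show nz (c s(u, up u)) = nz (c s(lcW u, up (lcW u))) + nz (c s(rcW u, up (rcW u)))
    rw [up_lcW hu, up_rcW hu, Sym2.eq_swap (a := lcW u), Sym2.eq_swap (a := rcW u)]
    have a1 : (GG pos τ).Adj u (up u) := by
      rw [GG_adj_nonleaf hg hu, H_adj_nonleaf hu]; exact Or.inr (Or.inr rfl)
    have a2 : (GG pos τ).Adj u (lcW u) := by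
      rw [GG_adj_nonleaf hg hu, H_adj_nonleaf hu]; exact Or.inl rfl
    have a3 : (GG pos τ).Adj u (rcW u) := by
      rw [GG_adj_nonleaf hg hu, H_adj_nonleaf hu]; exact Or.inr (Or.inl rfl)
    apply nz_sum
    · exact hc _ _ _ a1 a2 (lcW_ne_up hu).symm
    · exact hc _ _ _ a1 a3 (rcW_ne_up hu).symm
    · exact hc _ _ _ a2 a3 (lcW_ne_rcW hu)
  · show nz (c s(Sum.inl B.root, up (Sum.inl B.root))) =
      nz (c s(Sum.inr C.root, up (Sum.inr C.root)))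
    simp only [up, if_true]
    rw [Sym2.eq_swap]

theorem root_sum : (t : BT) → (g : t.V → K4) →
    (∀ x, ¬ t.IsLf x → g x = g (t.lc x) + g (t.rc x)) → g t.root = (t.leaves.map g).sum
  | leaf, g, _ => by simp
  | node l r, g, hg => by
      have h0 := hg tp isLf_tp
      have hl := root_sum l (fun x => g (il x)) (fun x hx => hg (il x) hx)
      have hr := root_sum r (fun x => g (ir x)) (fun x hx => hg (ir x) hx)
      rw [root_node, h0, lc_tp, rc_tp, leaves_node]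
      simp only [List.map_append, List.map_map, List.sum_append]
      rw [hl, hr]
      rfl

end Pool.Agent.Helper1.Hist
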