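import Pool.Agent.Helper1.Hist.Tree

/-! Sign changes along the leaves, cuts with one crossing tree edge, separation of leaves, cherries. -/

namespace Pool.Agent.Helper1.Hist

open BT

/-- number of changes in a Boolean list -/
def chg : List Bool → ℕ
  | [] => 0
  | [_] => 0
  | a :: b :: l => dB a b + chg (b :: l)

@[simp] theorem chg_nil : chg [] = 0 := rfl
@[simp] theorem chg_single (a : Bool) : chg [a] = 0 := rfl
theorem chg_cons_cons (a b : Bool) (l : List Bool) :
    chg (a :: b :: l) = dB a b + chg (b :: l) := rfl

theorem chg_cons_le (a : Bool) (l : List Bool) : chg l ≤ chg (a :: l) := by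
  cases l with
  | nil => simp
  | cons b l => rw [chg_cons_cons]; omega

theorem chg_cons_tri (a b : Bool) (l : List Bool) : chg (a :: l) ≤ dB a b + chg (b :: l) := by
  cases l with
  | nil => simp
  | cons c l =>
    rw [chg_cons_cons, chg_cons_cons]
    have := dB_tri a b c
    omega

theorem chg_sublist_aux {l l' : List Bool} (h : l.Sublist l') :
    ∀ a, chg (a :: l) ≤ chg (a :: l') := by
  induction h with
  | slnil => intro a; exact le_rfl
  | @cons l1 l2 b _ ih =>
    intro a
    rw [chg_cons_cons a b]
    have := chg_cons_tri a b l1
    have := ih b
    omega
  | @cons_cons l1 l2 b _ ih =>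
    intro a
    rw [chg_cons_cons, chg_cons_cons]
    have := ih b
    omega

theorem chg_sublist {l l' : List Bool} (h : l.Sublist l') : chg l ≤ chg l' := by
  induction h with
  | slnil => exact le_rfl
  | @cons l1 l2 b _ ih => exact ih.trans (chg_cons_le b l2)
  | @cons_cons l1 l2 b h _ => exact chg_sublist_aux h b

theorem chg_append (l l' : List Bool) (a : Bool) :
    chg (l ++ a :: l') = chg (l ++ [a]) + chg (a :: l') := by
  induction l with
  | nil => simp
  | cons b l ih =>
    cases l with
    | nil => simp [chg_cons_cons]
    | cons c l =>
      simp only [List.cons_append] at ih ⊢
      rw [chg_cons_cons, chg_cons_cons, ih]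
      omega

theorem chg_snoc (l : List Bool) (a b : Bool) :
    chg (l ++ [a, b]) = chg (l ++ [a]) + dB a b := by
  have := chg_append l [b] a
  simpa [chg_cons_cons] using this

/-- The number of changes along the leaves is at most twice the number of crossing edges. -/
theorem chg_leaves_le : (t : BT) → (X : t.V → Bool) →
    chg (X t.root :: (t.leaves.map X ++ [X t.root])) ≤ 2 * t.cr X
  | leaf, X => by
      simp only [leaves_leaf, List.map_cons, List.map_nil, cr_leaf]
      simp [chg_cons_cons]
  | node l r, X => by
      have hl := chg_leaves_le l (fun x => X (il x))
      have hr := chg_leaves_le r (fun x => X (ir x))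
      rw [cr_node, root_node, leaves_node]
      set r0 := X tp
      set rl := X (il l.root)
      set rr := X (ir r.root)
      have e1 : ((l.leaves.map il ++ r.leaves.map ir).map X : List Bool) =
          l.leaves.map (fun x => X (il x)) ++ r.leaves.map (fun x => X (ir x)) := by
        simp [List.map_append, List.map_map, Function.comp_def]
      rw [e1]
      set L1 := l.leaves.map (fun x => X (il x))
      set L2 := r.leaves.map (fun x => X (ir x))
      have hsub : (r0 :: ((L1 ++ L2) ++ [r0])).Sublist
          ((r0 :: rl :: (L1 ++ [rl])) ++ r0 :: (rr :: (L2 ++ [rr]) ++ [r0])) := by
        have h1 : (r0 :: ((L1 ++ L2) ++ [r0])) = ([r0] ++ L1) ++ (L2 ++ [r0]) := by simp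
        have h2 : ((r0 :: rl :: (L1 ++ [rl])) ++ r0 :: (rr :: (L2 ++ [rr]) ++ [r0])) =
            (([r0] ++ [rl]) ++ L1 ++ [rl]) ++ ([r0, rr] ++ (L2 ++ ([rr] ++ [r0]))) := by simp
        rw [h1, h2]
        refine List.Sublist.append ?_ ?_
        · refine List.Sublist.trans ?_ (List.sublist_append_left _ _)
          exact List.Sublist.append (List.sublist_append_left _ _) (List.Sublist.refl _)
        · refine List.Sublist.trans ?_ (List.sublist_append_right _ _)
          exact List.Sublist.append (List.Sublist.refl _) (List.sublist_append_right _ _)
      have h3 := chg_sublist hsub
      rw [chg_append] at h3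
      have h4 : chg ((r0 :: rl :: (L1 ++ [rl])) ++ [r0]) =
          dB r0 rl + chg (rl :: (L1 ++ [rl])) + dB rl r0 := by
        have := chg_snoc (r0 :: rl :: L1) rl r0
        have h5 : (r0 :: rl :: (L1 ++ [rl])) ++ [r0] = (r0 :: rl :: L1) ++ [rl, r0] := by simp
        rw [h5, this]
        have h6 : (r0 :: rl :: L1) ++ [rl] = r0 :: rl :: (L1 ++ [rl]) := by simp
        rw [h6, chg_cons_cons]
      have h7 : chg (r0 :: (rr :: (L2 ++ [rr]) ++ [r0])) =
          dB r0 rr + chg (rr :: (L2 ++ [rr])) + dB rr r0 := by
        have := chg_snoc (r0 :: rr :: L2) rr r0
        have h5 : r0 :: (rr :: (L2 ++ [rr]) ++ [r0]) = (r0 :: rr :: L2) ++ [rr, r0] := by simp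
        rw [h5, this]
        have h6 : (r0 :: rr :: L2) ++ [rr] = r0 :: rr :: (L2 ++ [rr]) := by simp
        rw [h6, chg_cons_cons]
      rw [h4, h7] at h3
      have h8 := dB_comm r0 rl
      have h9 := dB_comm r0 rr
      omega

theorem cr_zero : (t : BT) → (X : t.V → Bool) → t.cr X = 0 → ∀ x, X x = X t.root
  | leaf, X, _, x => by rw [leaf_eq_root x]
  | node l r, X, h, x => by
      rw [cr_node] at h
      have h1 : l.cr (fun x => X (il x)) = 0 := by omega
      have h2 : r.cr (fun x => X (ir x)) = 0 := by omega
      have h3 : X (il l.root) = X tp := dB_eq_zero.1 (by omega)
      have h4 : X (ir r.root) = X tp := dB_eq_zero.1 (by omega)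
      have ihl := cr_zero l _ h1
      have ihr := cr_zero r _ h2
      rw [root_node]
      refine node_cases (P := fun x => X x = X tp) rfl ?_ ?_ x
      · intro y; rw [ihl y, h3]
      · intro y; rw [ihr y, h4]

theorem cr_one : (t : BT) → (X : t.V → Bool) → t.cr X = 1 →
    ∃ pre mid post : List t.V, t.leaves = pre ++ (mid ++ post) ∧
      (∀ x ∈ pre, X x = X t.root) ∧ (∀ x ∈ mid, X x = !X t.root) ∧
      (∀ x ∈ post, X x = X t.root) ∧
      ((∃ z, mid = [z] ∧ ∀ x, X x = (!X t.root) → x = z) ∨
        (2 ≤ mid.length ∧ ∀ x, t.IsLf x → x ≠ t.root → X x = X (t.par x)))
  | leaf, X, h => by simp at h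
  | node l r, X, h => by
      rw [cr_node] at h
      rw [leaves_node]
      simp only [root_node]
      have d1 := dB_le (X (il l.root)) (X tp)
      have d2 := dB_le (X (ir r.root)) (X tp)
      by_cases c1 : dB (X (il l.root)) (X tp) = 1
      · have h1 : l.cr (fun x => X (il x)) = 0 := by omega
        have h2 : r.cr (fun x => X (ir x)) = 0 := by omega
        have h4 : X (ir r.root) = X tp := dB_eq_zero.1 (by omega)
        have h3 : X (il l.root) = !X tp := dB_eq_one.1 c1
        have ihl := cr_zero l _ h1
        have ihr := cr_zero r _ h2
        refine ⟨[], l.leaves.map il, r.leaves.map ir, rfl, by simp, ?_, ?_, ?_⟩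
        · intro x hx
          simp only [List.mem_map] at hx
          obtain ⟨y, _, rfl⟩ := hx
          rw [ihl y, h3]
        · intro x hx
          simp only [List.mem_map] at hx
          obtain ⟨y, _, rfl⟩ := hx
          rw [ihr y, h4]
        · cases l with
          | leaf =>
            left
            refine ⟨il leaf.root, rfl, ?_⟩
            intro x
            refine node_cases (P := fun x => X x = (!X tp) → x = il leaf.root) ?_ ?_ ?_ x
            · intro hx; simp at hx
            · intro y _; rw [leaf_eq_root y]
            · intro y hy
              rw [ihr y, h4] at hy
              simp at hy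
          | node a b =>
            right
            refine ⟨by simpa using leaves_node_two a b, ?_⟩
            intro x
            refine node_cases (P := fun x => (node (node a b) r).IsLf x → x ≠ tp →
              X x = X ((node (node a b) r).par x)) ?_ ?_ ?_ x
            · intro hx; exact absurd hx isLf_tp
            · intro y hy _
              have hy0 : y ≠ (node a b).root := by
                rintro rfl
                exact (isLf_tp (l := a) (r := b)) hy
              rw [par_il, if_neg hy0, ihl y, ihl (par _ y)]
            · intro y hy _
              rw [par_ir]
              by_cases hy0 : y = r.root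
              · rw [if_pos hy0, ihr y, h4]
              · rw [if_neg hy0, ihr y, ihr (par _ y)]
      · by_cases c2 : dB (X (ir r.root)) (X tp) = 1
        · have h1 : l.cr (fun x => X (il x)) = 0 := by omega
          have h2 : r.cr (fun x => X (ir x)) = 0 := by omega
          have h4 : X (ir r.root) = !X tp := dB_eq_one.1 c2
          have h3 : X (il l.root) = X tp := dB_eq_zero.1 (by omega)
          have ihl := cr_zero l _ h1
          have ihr := cr_zero r _ h2
          refine ⟨l.leaves.map il, r.leaves.map ir, [], by simp, ?_, ?_, by simp, ?_⟩
          · intro x hx
            simp only [List.mem_map] at hx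
            obtain ⟨y, _, rfl⟩ := hx
            rw [ihl y, h3]
          · intro x hx
            simp only [List.mem_map] at hx
            obtain ⟨y, _, rfl⟩ := hx
            rw [ihr y, h4]
          · cases r with
            | leaf =>
              left
              refine ⟨ir leaf.root, rfl, ?_⟩
              intro x
              refine node_cases (P := fun x => X x = (!X tp) → x = ir leaf.root) ?_ ?_ ?_ x
              · intro hx; simp at hx
              · intro y hy
                rw [ihl y, h3] at hy
                simp at hy
              · intro y _; rw [leaf_eq_root y]
            | node a b =>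
              right
              refine ⟨by simpa using leaves_node_two a b, ?_⟩
              intro x
              refine node_cases (P := fun x => (node l (node a b)).IsLf x → x ≠ tp →
                X x = X ((node l (node a b)).par x)) ?_ ?_ ?_ x
              · intro hx; exact absurd hx isLf_tp
              · intro y hy _
                rw [par_il]
                by_cases hy0 : y = l.root
                · rw [if_pos hy0, ihl y, h3]
                · rw [if_neg hy0, ihl y, ihl (par _ y)]
              · intro y hy _
                have hy0 : y ≠ (node a b).root := by
                  rintro rfl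
                  exact (isLf_tp (l := a) (r := b)) hy
                rw [par_ir, if_neg hy0, ihr y, ihr (par _ y)]
        · have e1 : dB (X (il l.root)) (X tp) = 0 := by omega
          have e2 : dB (X (ir r.root)) (X tp) = 0 := by omega
          have f1 : X (il l.root) = X tp := dB_eq_zero.1 e1
          have f2 : X (ir r.root) = X tp := dB_eq_zero.1 e2
          by_cases c3 : l.cr (fun x => X (il x)) = 1
          · have c4 : r.cr (fun x => X (ir x)) = 0 := by omega
            have ihr := cr_zero r _ c4
            obtain ⟨pre, mid, post, hL, hpre, hmid, hpost, hor⟩ := cr_one l _ c3
            simp only [f1] at hpre hmid hpost hor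
            refine ⟨pre.map il, mid.map il, post.map il ++ r.leaves.map ir, ?_, ?_, ?_, ?_, ?_⟩
            · rw [hL]; simp
            · intro x hx
              simp only [List.mem_map] at hx
              obtain ⟨y, hy, rfl⟩ := hx
              exact hpre y hy
            · intro x hx
              simp only [List.mem_map] at hx
              obtain ⟨y, hy, rfl⟩ := hx
              exact hmid y hy
            · intro x hx
              simp only [List.mem_append, List.mem_map] at hx
              rcases hx with ⟨y, hy, rfl⟩ | ⟨y, hy, rfl⟩
              · exact hpost y hy
              · rw [ihr y, f2]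
            · rcases hor with ⟨z, hz, hz2⟩ | ⟨hlen, hpar⟩
              · left
                refine ⟨il z, by rw [hz]; rfl, ?_⟩
                intro x
                refine node_cases (P := fun x => X x = (!X tp) → x = il z) ?_ ?_ ?_ x
                · intro hx; simp at hx
                · intro y hy; rw [hz2 y hy]
                · intro y hy
                  rw [ihr y, f2] at hy
                  simp at hy
              · right
                refine ⟨by simpa using hlen, ?_⟩
                intro x
                refine node_cases (P := fun x => (node l r).IsLf x → x ≠ tp →
                  X x = X ((node l r).par x)) ?_ ?_ ?_ x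
                · intro hx; exact absurd hx isLf_tp
                · intro y hy _
                  rw [par_il]
                  by_cases hy0 : y = l.root
                  · rw [if_pos hy0, hy0, f1]
                  · rw [if_neg hy0]
                    exact hpar y hy hy0
                · intro y hy _
                  rw [par_ir]
                  by_cases hy0 : y = r.root
                  · rw [if_pos hy0, hy0, f2]
                  · rw [if_neg hy0, ihr y, ihr (par _ y)]
          · have c4 : r.cr (fun x => X (ir x)) = 1 := by omega
            have c5 : l.cr (fun x => X (il x)) = 0 := by omega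
            have ihl := cr_zero l _ c5
            obtain ⟨pre, mid, post, hL, hpre, hmid, hpost, hor⟩ := cr_one r _ c4
            simp only [f2] at hpre hmid hpost hor
            refine ⟨l.leaves.map il ++ pre.map ir, mid.map ir, post.map ir, ?_, ?_, ?_, ?_, ?_⟩
            · rw [hL]; simp
            · intro x hx
              simp only [List.mem_append, List.mem_map] at hx
              rcases hx with ⟨y, hy, rfl⟩ | ⟨y, hy, rfl⟩
              · rw [ihl y, f1]
              · exact hpre y hy
            · intro x hx
              simp only [List.mem_map] at hx
              obtain ⟨y, hy, rfl⟩ := hx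
              exact hmid y hy
            · intro x hx
              simp only [List.mem_map] at hx
              obtain ⟨y, hy, rfl⟩ := hx
              exact hpost y hy
            · rcases hor with ⟨z, hz, hz2⟩ | ⟨hlen, hpar⟩
              · left
                refine ⟨ir z, by rw [hz]; rfl, ?_⟩
                intro x
                refine node_cases (P := fun x => X x = (!X tp) → x = ir z) ?_ ?_ ?_ x
                · intro hx; simp at hx
                · intro y hy
                  rw [ihl y, f1] at hy
                  simp at hy
                · intro y hy; rw [hz2 y hy]
              · right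
                refine ⟨by simpa using hlen, ?_⟩
                intro x
                refine node_cases (P := fun x => (node l r).IsLf x → x ≠ tp →
                  X x = X ((node l r).par x)) ?_ ?_ ?_ x
                · intro hx; exact absurd hx isLf_tp
                · intro y hy _
                  rw [par_il]
                  by_cases hy0 : y = l.root
                  · rw [if_pos hy0, hy0, f1]
                  · rw [if_neg hy0, ihl y, ihl (par _ y)]
                · intro y hy _
                  rw [par_ir]
                  by_cases hy0 : y = r.root
                  · rw [if_pos hy0, hy0, f2]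
                  · rw [if_neg hy0]
                    exact hpar y hy hy0

end Pool.Agent.Helper1.Hist
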