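import Pool.Agent.Helper1.Hist.Graph

/-! From the counting claim to cyclic 4-edge-connectivity. -/

namespace Pool.Agent.Helper1.Hist

open BT

variable {B C : BT} {S : Type} [Fintype S]

/-- number of crossing tree edges -/
def tW (X : W B C → Bool) : ℕ :=
  B.cr (fun x => X (Sum.inl x)) + C.cr (fun y => X (Sum.inr y)) +
    dB (X (Sum.inl B.root)) (X (Sum.inr C.root))

/-- number of crossing outer edges -/
def oW (pos : S → W B C) (τ : Equiv.Perm S) (X : W B C → Bool) : ℕ :=
  ∑ s, dB (X (pos s)) (X (pos (τ s)))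

theorem card_tree (X : W B C → Bool) :
    (Finset.univ.filter (fun u : W B C => u ≠ Sum.inr C.root ∧ X u ≠ X (up u))).card = tW X := by
  rw [Finset.card_filter, Fintype.sum_sum_type]
  have h1 : ∀ x : B.V, (if (Sum.inl x : W B C) ≠ Sum.inr C.root ∧
      X (Sum.inl x) ≠ X (up (Sum.inl x)) then 1 else 0) =
      (if x = B.root then 0 else dB (X (Sum.inl x)) (X (Sum.inl (B.par x)))) +
      (if x = B.root then dB (X (Sum.inl B.root)) (X (Sum.inr C.root)) else 0) := by
    intro x
    by_cases hx : x = B.root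
    · subst hx
      simp [up, dB]
    · simp [up, hx, dB]
  have h2 : ∀ y : C.V, (if (Sum.inr y : W B C) ≠ Sum.inr C.root ∧
      X (Sum.inr y) ≠ X (up (Sum.inr y)) then 1 else 0) =
      (if y = C.root then 0 else dB (X (Sum.inr y)) (X (Sum.inr (C.par y)))) := by
    intro y
    by_cases hy : y = C.root
    · subst hy
      simp
    · simp [up, hy, dB]
  rw [Finset.sum_congr rfl (fun x _ => h1 x), Finset.sum_congr rfl (fun y _ => h2 y),
    Finset.sum_add_distrib, ← cr_eq_sum B (fun x => X (Sum.inl x)),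
    ← cr_eq_sum C (fun y => X (Sum.inr y))]
  simp only [Finset.sum_ite_eq', Finset.mem_univ, if_true]
  unfold tW
  omega

theorem card_outer (pos : S → W B C) (τ : Equiv.Perm S) (X : W B C → Bool) :
    (Finset.univ.filter (fun s : S => X (pos s) ≠ X (pos (τ s)))).card = oW pos τ X := by
  rw [Finset.card_filter]
  unfold oW
  apply Finset.sum_congr rfl
  intro s _
  simp [dB]

theorem count_le (hB : B ≠ leaf) (hC : C ≠ leaf) {pos : S → W B C} {τ : Equiv.Perm S}
    (hg : Good pos τ) (X : W B C → Bool) (F : Finset (Sym2 (W B C)))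
    (hF : ∀ u v, (GG pos τ).Adj u v → X u ≠ X v → s(u, v) ∈ F) :
    tW X + oW pos τ X ≤ F.card := by
  classical
  rw [← card_tree, ← card_outer]
  set A1 := Finset.univ.filter (fun u : W B C => u ≠ Sum.inr C.root ∧ X u ≠ X (up u))
  set A2 := Finset.univ.filter (fun s : S => X (pos s) ≠ X (pos (τ s)))
  have i1 : (A1.image (fun u => s(u, up u))).card = A1.card := by
    apply Finset.card_image_of_injOn
    intro u hu v hv huv
    simp only [A1, Finset.coe_filter, Finset.mem_univ, true_and, Set.mem_ofPred_eq] at hu hv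
    simp only [Sym2.eq_iff] at huv
    rcases huv with ⟨h, _⟩ | ⟨h1, h2⟩
    · exact h
    · exfalso
      have h3 : up (up u) = u := by rw [h2]; exact h1.symm
      have h4 : up (up v) = v := by rw [← h1]; exact h2
      rcases up_up h3 with h3 | h3
      · rcases up_up h4 with h4 | h4
        · rw [h3, h4] at h1; simp [up] at h1
        · exact hv.1 h4
      · exact hu.1 h3
  have i2 : (A2.image (fun s => s(pos s, pos (τ s)))).card = A2.card := by
    apply Finset.card_image_of_injOn
    intro s _ s' _ hss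
    simp only [Sym2.eq_iff] at hss
    rcases hss with ⟨h, _⟩ | ⟨h1, h2⟩
    · exact hg.inj h
    · exfalso
      have h3 := hg.inj h1
      have h4 := hg.inj h2
      apply hg.t2 s
      rw [h4, ← h3]
  have hd : Disjoint (A1.image (fun u => s(u, up u)))
      (A2.image (fun s => s(pos s, pos (τ s)))) := by
    rw [Finset.disjoint_left]
    intro e he1 he2
    simp only [Finset.mem_image] at he1 he2
    obtain ⟨u, _, rfl⟩ := he1
    obtain ⟨s, _, hs⟩ := he2
    simp only [Sym2.eq_iff] at hs
    have := not_isLfW_up hB hC u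
    rcases hs with ⟨_, h⟩ | ⟨h, _⟩
    · rw [← h] at this; exact this (hg.lf _)
    · rw [← h] at this; exact this (hg.lf _)
  rw [← i1, ← i2, ← Finset.card_union_of_disjoint hd]
  apply Finset.card_le_card
  intro e he
  rw [Finset.mem_union, Finset.mem_image, Finset.mem_image] at he
  rcases he with ⟨u, hu, rfl⟩ | ⟨s, hs, rfl⟩
  · simp only [A1, Finset.mem_filter, Finset.mem_univ, true_and] at hu
    exact hF u (up u) (H_le_GG (Or.inl rfl)) hu.2
  · simp only [A2, Finset.mem_filter, Finset.mem_univ, true_and] at hs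
    refine hF _ _ ?_ hs
    rw [GG_adj_leaf hB hC hg]
    exact Or.inr (Or.inl rfl)

/-- one of the two sides of the cut has no leaf or is a single vertex -/
def Side (X : W B C → Bool) : Prop :=
  (∀ u, IsLfW u → X u = true) ∨ (∀ u, IsLfW u → X u = false) ∨
    (∃ z, ∀ u, X u = true → u = z) ∨ (∃ z, ∀ u, X u = false → u = z)

omit [Fintype S] in
theorem no_cycle_nonleaf {pos : S → W B C} {τ : Equiv.Perm S} (hg : Good pos τ)
    (hH : (H B C).IsAcyclic) {G' : SimpleGraph (W B C)} (hG' : G' ≤ GG pos τ) {v : W B C}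
    (p : G'.Walk v v) (hp : p.IsCycle) (hn : ∀ u, G'.Reachable v u → ¬ IsLfW u) : False := by
  have hr : ∀ u ∈ p.support, G'.Reachable v u := fun u hu => (p.takeUntil u hu).reachable
  have he : ∀ e ∈ p.edges, e ∈ (H B C).edgeSet := by
    intro e he
    induction e with
    | _ a b =>
      have hab := hG' (p.adj_of_mem_edges he)
      have ha := hn a (hr a (p.fst_mem_support_of_mem_edges he))
      exact (GG_adj_nonleaf hg ha).1 hab
  exact hH (p.transfer _ he) (hp.transfer he)

theorem no_cycle_single {V : Type*} {G' : SimpleGraph V} {v : V}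
    (p : G'.Walk v v) (hp : p.IsCycle) (z : V) (hz : ∀ u, G'.Reachable v u → u = z) : False := by
  cases p with
  | nil => exact SimpleGraph.Walk.not_isCycle_nil hp
  | cons h q =>
    have h1 := hz _ (SimpleGraph.Reachable.refl v)
    have h2 := hz _ h.reachable
    exact h.ne (h1.trans h2.symm)

theorem cyc4_aux (hB : B ≠ leaf) (hC : C ≠ leaf) {pos : S → W B C} {τ : Equiv.Perm S}
    (hg : Good pos τ) (hH : (H B C).IsAcyclic)
    (hK : ∀ X : W B C → Bool, tW X + oW pos τ X ≤ 3 → Side X)
    (G' : SimpleGraph (W B C)) (hG' : G' ≤ GG pos τ) (F : Finset (Sym2 (W B C)))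
    (hF : ∀ u v, (GG pos τ).Adj u v → ¬ G'.Adj u v → s(u, v) ∈ F) (hcard : F.card ≤ 3)
    (C1 D : G'.ConnectedComponent) (hC1 : ContainsCycle C1) (hD : ContainsCycle D) :
    C1 = D := by
  classical
  by_contra hne
  obtain ⟨v, hv, p, hp⟩ := hC1
  obtain ⟨w, hw, q, hq⟩ := hD
  rw [SimpleGraph.ConnectedComponent.mem_supp_iff] at hv hw
  let X : W B C → Bool := fun u => decide (G'.connectedComponentMk u = C1)
  have hX : ∀ u, X u = decide (G'.connectedComponentMk u = C1) := fun u => rfl
  have hcount : tW X + oW pos τ X ≤ 3 := by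
    refine le_trans (count_le hB hC hg X F ?_) hcard
    intro u v huv hXuv
    refine hF u v huv ?_
    intro hadj
    apply hXuv
    rw [hX, hX, SimpleGraph.ConnectedComponent.eq.2 hadj.reachable]
  have hv' : ∀ u, G'.Reachable v u → X u = true := by
    intro u hu
    rw [hX, decide_eq_true_eq, ← hv]
    exact (SimpleGraph.ConnectedComponent.eq.2 hu).symm
  have hw' : ∀ u, G'.Reachable w u → X u = false := by
    intro u hu
    rw [hX, decide_eq_false_iff_not]
    intro h
    apply hne
    rw [← h, ← hw]; exact (SimpleGraph.ConnectedComponent.eq.2 hu).symm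
  rcases hK X hcount with h | h | ⟨z, h⟩ | ⟨z, h⟩
  · apply no_cycle_nonleaf hg hH hG' q hq
    intro u hu hlf
    exact absurd ((hw' u hu).symm.trans (h u hlf)) (by simp)
  · apply no_cycle_nonleaf hg hH hG' p hp
    intro u hu hlf
    exact absurd ((hv' u hu).symm.trans (h u hlf)) (by simp)
  · exact no_cycle_single p hp z (fun u hu => h u (hv' u hu))
  · exact no_cycle_single q hq z (fun u hu => h u (hw' u hu))

theorem cyc4 (hB : B ≠ leaf) (hC : C ≠ leaf) {pos : S → W B C} {τ : Equiv.Perm S}
    (hg : Good pos τ) (hH : (H B C).IsAcyclic)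
    (hK : ∀ X : W B C → Bool, tW X + oW pos τ X ≤ 3 → Side X) :
    CyclicallyFourEdgeConnected (GG pos τ) := by
  intro F hF hcard C1 D hC1 hD
  have hfin : F.Finite := Set.toFinite F
  refine cyc4_aux hB hC hg hH hK _ (SimpleGraph.deleteEdges_le F) hfin.toFinset ?_ ?_ C1 D hC1 hD
  · intro u v huv hn
    rw [Set.Finite.mem_toFinset]
    by_contra hnot
    exact hn (SimpleGraph.deleteEdges_adj.2 ⟨huv, hnot⟩)
  · rw [← Set.ncard_eq_toFinset_card F hfin]; exact hcard

end Pool.Agent.Helper1.Hist
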