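import Mathlib

/-! Cubic graphs, cyclic 4-edge-connectivity, snarks, Hists, 1,3-trees. -/

namespace Pool.Agent.Helper1.Hist

/-- Every vertex has exactly three neighbours. -/
def IsCubic {V : Type*} (G : SimpleGraph V) : Prop :=
  ∀ v, (G.neighborSet v).ncard = 3

/-- The connected component `C` of `G` contains a cycle. -/
def ContainsCycle {V : Type*} {G : SimpleGraph V} (C : G.ConnectedComponent) : Prop :=
  ∃ v ∈ C.supp, ∃ p : G.Walk v v, p.IsCycle

/-- For every set `F` of at most three edges, at most one component of `G - F` contains a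
cycle. -/
def CyclicallyFourEdgeConnected {V : Type*} (G : SimpleGraph V) : Prop :=
  ∀ F : Set (Sym2 V), F ⊆ G.edgeSet → F.ncard ≤ 3 →
    ∀ C D : (G.deleteEdges F).ConnectedComponent, ContainsCycle C → ContainsCycle D → C = D

/-- `G` has a proper 3-edge-colouring. -/
def ThreeEdgeColourable {V : Type*} (G : SimpleGraph V) : Prop :=
  ∃ c : Sym2 V → Fin 3, ∀ u v w, G.Adj u v → G.Adj u w → v ≠ w → c s(u, v) ≠ c s(u, w)

/-- A snark: cubic, cyclically 4-edge-connected, girth at least 5, not 3-edge-colourable. -/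
def IsSnark {V : Type*} (G : SimpleGraph V) : Prop :=
  IsCubic G ∧ CyclicallyFourEdgeConnected G ∧ 5 ≤ G.egirth ∧ ¬ ThreeEdgeColourable G

/-- `T` is a Hist of `G`: a spanning tree without vertices of degree 2. -/
def IsHist {V : Type*} (G T : SimpleGraph V) : Prop :=
  T ≤ G ∧ T.IsTree ∧ ∀ v, (T.neighborSet v).ncard ≠ 2

/-- A 1,3-tree: a tree in which every vertex has degree 1 or 3. -/
def Is13Tree {V : Type*} (T : SimpleGraph V) : Prop :=
  T.IsTree ∧ ∀ v, (T.neighborSet v).ncard = 1 ∨ (T.neighborSet v).ncard = 3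

end Pool.Agent.Helper1.Hist
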