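import Pool.Agent.Helper1.Hist.Build

/-! The cubic graph `GG` built from the tree `H B C` and a permutation of slots. -/

namespace Pool.Agent.Helper1.Hist

open BT

variable {B C : BT} {S : Type}

/-- outer adjacency -/
def OA (pos : S → W B C) (τ : Equiv.Perm S) (u v : W B C) : Prop :=
  ∃ s, (pos s = u ∧ pos (τ s) = v) ∨ (pos s = v ∧ pos (τ s) = u)

/-- the graph: tree plus outer cycles -/
def GG (pos : S → W B C) (τ : Equiv.Perm S) : SimpleGraph (W B C) where
  Adj u v := u ≠ v ∧ ((H B C).Adj u v ∨ OA pos τ u v)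
  symm := ⟨fun _ _ h => ⟨h.1.symm, h.2.imp (fun h => h.symm) (fun ⟨s, h⟩ => ⟨s, Or.symm h⟩)⟩⟩
  loopless := ⟨fun _ h => h.1 rfl⟩

/-- admissible slot data -/
structure Good (pos : S → W B C) (τ : Equiv.Perm S) : Prop where
  inj : Function.Injective pos
  lf : ∀ s, IsLfW (pos s)
  surj : ∀ u, IsLfW u → ∃ s, pos s = u
  t1 : ∀ s, τ s ≠ s
  t2 : ∀ s, τ (τ s) ≠ s
  t3 : ∀ s, τ (τ (τ s)) ≠ s
  t4 : ∀ s, τ (τ (τ (τ s))) ≠ s
  c1 : ∀ s, up (pos s) ≠ up (pos (τ s))
  c2 : ∀ s, ¬ (H B C).Adj (up (pos s)) (up (pos (τ s)))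
  c3 : ∀ s, up (pos s) ≠ up (pos (τ (τ s)))

variable {pos : S → W B C} {τ : Equiv.Perm S}

theorem OA_symm {u v : W B C} (h : OA pos τ u v) : OA pos τ v u := by
  obtain ⟨s, h⟩ := h
  exact ⟨s, Or.symm h⟩

theorem OA_lf (hg : Good pos τ) {u v : W B C} (h : OA pos τ u v) : IsLfW u ∧ IsLfW v := by
  obtain ⟨s, ⟨rfl, rfl⟩ | ⟨rfl, rfl⟩⟩ := h
  · exact ⟨hg.lf _, hg.lf _⟩
  · exact ⟨hg.lf _, hg.lf _⟩

theorem OA_pos_iff (hg : Good pos τ) (s : S) (v : W B C) :
    OA pos τ (pos s) v ↔ (v = pos (τ s) ∨ v = pos (τ.symm s)) := by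
  constructor
  · rintro ⟨s', ⟨h1, h2⟩ | ⟨h1, h2⟩⟩
    · left; rw [← h2, hg.inj h1]
    · right
      have := hg.inj h2
      rw [← h1, ← this, Equiv.symm_apply_apply]
  · rintro (h | h)
    · exact ⟨s, Or.inl ⟨rfl, h.symm⟩⟩
    · exact ⟨τ.symm s, Or.inr ⟨h.symm, by rw [Equiv.apply_symm_apply]⟩⟩

theorem OA_ne (hg : Good pos τ) {u v : W B C} (h : OA pos τ u v) : u ≠ v := by
  obtain ⟨s, ⟨rfl, rfl⟩ | ⟨rfl, rfl⟩⟩ := h
  · intro h; exact hg.t1 s (hg.inj h).symm
  · intro h; exact hg.t1 s (hg.inj h)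

theorem GG_adj_nonleaf (hg : Good pos τ) {u v : W B C} (hu : ¬ IsLfW u) :
    (GG pos τ).Adj u v ↔ (H B C).Adj u v := by
  constructor
  · rintro ⟨_, h | h⟩
    · exact h
    · exact absurd (OA_lf hg h).1 hu
  · intro h; exact ⟨h.ne, Or.inl h⟩

theorem GG_adj_leaf_nonleaf (hB : B ≠ leaf) (hC : C ≠ leaf) (hg : Good pos τ) {u v : W B C}
    (hu : IsLfW u) (hv : ¬ IsLfW v) (h : (GG pos τ).Adj u v) : v = up u := by
  rcases h with ⟨_, h | h⟩
  · exact (H_adj_leaf hB hC hu).1 h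
  · exact absurd (OA_lf hg h).2 hv

theorem GG_adj_leaf_leaf (hB : B ≠ leaf) (hC : C ≠ leaf) {u v : W B C}
    (hu : IsLfW u) (hv : IsLfW v) (h : (GG pos τ).Adj u v) : OA pos τ u v := by
  rcases h with ⟨_, h | h⟩
  · exfalso
    rw [(H_adj_leaf hB hC hu).1 h] at hv
    exact not_isLfW_up hB hC u hv
  · exact h

theorem H_le_GG : H B C ≤ GG pos τ := fun _ _ h => ⟨SimpleGraph.Adj.ne h, Or.inl h⟩

theorem GG_adj_leaf (hB : B ≠ leaf) (hC : C ≠ leaf) (hg : Good pos τ) (s : S) (v : W B C) :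
    (GG pos τ).Adj (pos s) v ↔ (v = up (pos s) ∨ v = pos (τ s) ∨ v = pos (τ.symm s)) := by
  rw [← OA_pos_iff hg]
  constructor
  · rintro ⟨_, h | h⟩
    · left; exact (H_adj_leaf hB hC (hg.lf s)).1 h
    · right; exact h
  · rintro (h | h)
    · refine ⟨?_, Or.inl ((H_adj_leaf hB hC (hg.lf s)).2 h)⟩
      rw [h]; exact (up_ne _).symm
    · exact ⟨OA_ne hg h, Or.inr h⟩

theorem pos_tau_ne_symm (hg : Good pos τ) (s : S) : pos (τ s) ≠ pos (τ.symm s) := by
  intro h
  have h1 := hg.inj h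
  apply hg.t2 (τ.symm s)
  rw [Equiv.apply_symm_apply, h1]

theorem up_ne_pos (hB : B ≠ leaf) (hC : C ≠ leaf) (hg : Good pos τ) (u : W B C) (s : S) :
    up u ≠ pos s := by
  intro h
  exact not_isLfW_up hB hC u (h ▸ hg.lf s)

theorem GG_cubic (hB : B ≠ leaf) (hC : C ≠ leaf) (hg : Good pos τ) : IsCubic (GG pos τ) := by
  intro u
  by_cases hu : IsLfW u
  · obtain ⟨s, rfl⟩ := hg.surj u hu
    have h1 : (GG pos τ).neighborSet (pos s) =
        {up (pos s), pos (τ s), pos (τ.symm s)} := by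
      ext v
      rw [SimpleGraph.mem_neighborSet, GG_adj_leaf hB hC hg]
      simp
    rw [h1]
    exact Set.ncard_eq_three.2 ⟨_, _, _, up_ne_pos hB hC hg _ _, up_ne_pos hB hC hg _ _,
      pos_tau_ne_symm hg s, rfl⟩
  · have h1 : (GG pos τ).neighborSet u = {lcW u, rcW u, up u} := by
      ext v
      rw [SimpleGraph.mem_neighborSet, GG_adj_nonleaf hg hu, H_adj_nonleaf hu]
      simp
    rw [h1]
    exact Set.ncard_eq_three.2 ⟨_, _, _, lcW_ne_rcW hu, lcW_ne_up hu, rcW_ne_up hu, rfl⟩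

theorem two_apart (hg : Good pos τ) {x y z : W B C} (h1 : OA pos τ z x) (h2 : OA pos τ z y)
    (hxy : x ≠ y) : up x ≠ up y := by
  obtain ⟨s, rfl⟩ := hg.surj z (OA_lf hg h1).1
  rw [OA_pos_iff hg] at h1 h2
  have key := hg.c3 (τ.symm s)
  rw [Equiv.apply_symm_apply] at key
  rcases h1 with rfl | rfl <;> rcases h2 with rfl | rfl
  · exact absurd rfl hxy
  · exact key.symm
  · exact key
  · exact absurd rfl hxy

theorem OA_c2 (hg : Good pos τ) {x y : W B C} (h : OA pos τ x y) :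
    ¬ (H B C).Adj (up x) (up y) ∧ up x ≠ up y := by
  obtain ⟨s, ⟨rfl, rfl⟩ | ⟨rfl, rfl⟩⟩ := h
  · exact ⟨hg.c2 s, hg.c1 s⟩
  · exact ⟨fun h => hg.c2 s h.symm, (hg.c1 s).symm⟩

theorem no_outer_triangle (hg : Good pos τ) {x y z : W B C} (h1 : OA pos τ x y)
    (h2 : OA pos τ y z) (h3 : OA pos τ z x) : False := by
  obtain ⟨s, rfl⟩ := hg.surj x (OA_lf hg h1).1
  have h3' := OA_symm h3
  rw [OA_pos_iff hg] at h1 h3'
  have hyz := OA_ne hg h2
  -- y, z are the two outer neighbours of pos s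
  have key : ∀ {y z}, y = pos (τ s) → z = pos (τ.symm s) → OA pos τ y z → False := by
    rintro y z rfl rfl h
    rw [OA_pos_iff hg] at h
    rcases h with h | h
    · apply hg.t3 (τ.symm s)
      rw [Equiv.apply_symm_apply, ← hg.inj h]
    · have := hg.inj h
      rw [Equiv.symm_apply_apply] at this
      exact hg.t1 s (by rw [← this, Equiv.apply_symm_apply, this])
  rcases h1 with h1 | h1 <;> rcases h3' with h3' | h3'
  · exact hyz (h1.trans h3'.symm)
  · exact key h1 h3' h2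
  · exact key h3' h1 (OA_symm h2)
  · exact hyz (h1.trans h3'.symm)

theorem no_outer_square (hg : Good pos τ) {a b c d : W B C} (h1 : OA pos τ a b)
    (h2 : OA pos τ b c) (h3 : OA pos τ c d) (h4 : OA pos τ d a) (hac : a ≠ c) (hbd : b ≠ d) :
    False := by
  obtain ⟨s, rfl⟩ := hg.surj a (OA_lf hg h1).1
  have h4' := OA_symm h4
  rw [OA_pos_iff hg] at h1 h4'
  have key : ∀ {b d}, b = pos (τ s) → d = pos (τ.symm s) → OA pos τ b c → OA pos τ d c →
      False := by
    rintro b d rfl rfl hb hd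
    rw [OA_pos_iff hg] at hb hd
    rw [Equiv.symm_apply_apply] at hb
    rw [Equiv.apply_symm_apply] at hd
    rcases hb with hb | hb
    · rcases hd with hd | hd
      · exact hac hd.symm
      · rw [hb] at hd
        have h5 := hg.inj hd
        apply hg.t4 (τ.symm (τ.symm s))
        rw [Equiv.apply_symm_apply, Equiv.apply_symm_apply, h5]
    · exact hac hb.symm
  rcases h1 with h1 | h1 <;> rcases h4' with h4' | h4'
  · exact hbd (h1.trans h4'.symm)
  · exact key h1 h4' h2 (OA_symm h3)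
  · exact key h4' h1 (OA_symm h3) h2
  · exact hbd (h1.trans h4'.symm)

theorem GG_no_triangle (hB : B ≠ leaf) (hC : C ≠ leaf) (hg : Good pos τ)
    (hH : (H B C).IsAcyclic) {a b c : W B C} (hab : (GG pos τ).Adj a b)
    (hbc : (GG pos τ).Adj b c) (hca : (GG pos τ).Adj c a) : False := by
  have core : ∀ {a b c : W B C}, IsLfW a → (GG pos τ).Adj a b → (GG pos τ).Adj b c →
      (GG pos τ).Adj c a → False := by
    intro a b c ha hab hbc hca
    by_cases hb : IsLfW b
    · have o1 := GG_adj_leaf_leaf hB hC ha hb hab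
      by_cases hc : IsLfW c
      · exact no_outer_triangle hg o1 (GG_adj_leaf_leaf hB hC hb hc hbc)
          (GG_adj_leaf_leaf hB hC hc ha hca)
      · have e1 := GG_adj_leaf_nonleaf hB hC hg ha hc hca.symm
        have e2 := GG_adj_leaf_nonleaf hB hC hg hb hc hbc
        exact (OA_c2 hg o1).2 (e1.symm.trans e2)
    · have e1 := GG_adj_leaf_nonleaf hB hC hg ha hb hab
      by_cases hc : IsLfW c
      · have e2 := GG_adj_leaf_nonleaf hB hC hg hc hb hbc.symm
        exact (OA_c2 hg (GG_adj_leaf_leaf hB hC hc ha hca)).2 (e2.symm.trans e1)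
      · have e2 := GG_adj_leaf_nonleaf hB hC hg ha hc hca.symm
        exact hbc.ne (e1.trans e2.symm)
  by_cases ha : IsLfW a
  · exact core ha hab hbc hca
  by_cases hb : IsLfW b
  · exact core hb hbc hca hab
  by_cases hc : IsLfW c
  · exact core hc hca hab hbc
  exact no_triangle_of_acyclic hH ((GG_adj_nonleaf hg ha).1 hab) ((GG_adj_nonleaf hg hb).1 hbc)
    ((GG_adj_nonleaf hg hc).1 hca)

theorem GG_no_square (hB : B ≠ leaf) (hC : C ≠ leaf) (hg : Good pos τ)
    (hH : (H B C).IsAcyclic) {a b c d : W B C} (hab : (GG pos τ).Adj a b)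
    (hbc : (GG pos τ).Adj b c) (hcd : (GG pos τ).Adj c d) (hda : (GG pos τ).Adj d a)
    (hac : a ≠ c) (hbd : b ≠ d) : False := by
  -- `a` leaf, `b` non-leaf, `d` leaf
  have core1 : ∀ {a b c d : W B C}, IsLfW a → ¬ IsLfW b → IsLfW d → (GG pos τ).Adj a b →
      (GG pos τ).Adj b c → (GG pos τ).Adj c d → (GG pos τ).Adj d a → a ≠ c → False := by
    intro a b c d ha hb hd hab hbc hcd hda hac
    have e1 := GG_adj_leaf_nonleaf hB hC hg ha hb hab
    have o1 := GG_adj_leaf_leaf hB hC hd ha hda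
    by_cases hc : IsLfW c
    · have e2 := GG_adj_leaf_nonleaf hB hC hg hc hb hbc.symm
      have o2 := GG_adj_leaf_leaf hB hC hd hc hcd.symm
      exact two_apart hg o1 o2 hac (e1.symm.trans e2)
    · have e2 := GG_adj_leaf_nonleaf hB hC hg hd hc hcd.symm
      have e3 := (GG_adj_nonleaf hg hb).1 hbc
      rw [e1, e2] at e3
      exact (OA_c2 hg (OA_symm o1)).1 e3
  have core : ∀ {a b c d : W B C}, IsLfW a → (GG pos τ).Adj a b → (GG pos τ).Adj b c →
      (GG pos τ).Adj c d → (GG pos τ).Adj d a → a ≠ c → b ≠ d → False := by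
    intro a b c d ha hab hbc hcd hda hac hbd
    by_cases hb : IsLfW b
    · by_cases hd : IsLfW d
      · have o1 := GG_adj_leaf_leaf hB hC ha hb hab
        have o2 := GG_adj_leaf_leaf hB hC hd ha hda
        by_cases hc : IsLfW c
        · exact no_outer_square hg o1 (GG_adj_leaf_leaf hB hC hb hc hbc)
            (GG_adj_leaf_leaf hB hC hc hd hcd) o2 hac hbd
        · have e1 := GG_adj_leaf_nonleaf hB hC hg hb hc hbc
          have e2 := GG_adj_leaf_nonleaf hB hC hg hd hc hcd.symm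
          exact two_apart hg o1 (OA_symm o2) hbd (e1.symm.trans e2)
      · exact core1 ha hd hb hda.symm hcd.symm hbc.symm hab.symm hac
    · by_cases hd : IsLfW d
      · exact core1 ha hb hd hab hbc hcd hda hac
      · have e1 := GG_adj_leaf_nonleaf hB hC hg ha hb hab
        have e2 := GG_adj_leaf_nonleaf hB hC hg ha hd hda.symm
        exact hbd (e1.trans e2.symm)
  by_cases ha : IsLfW a
  · exact core ha hab hbc hcd hda hac hbd
  by_cases hb : IsLfW b
  · exact core hb hbc hcd hda hab hbd hac.symm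
  by_cases hc : IsLfW c
  · exact core hc hcd hda hab hbc hac.symm hbd.symm
  by_cases hd : IsLfW d
  · exact core hd hda hab hbc hcd hbd.symm hac
  exact no_four_cycle_of_acyclic hH ((GG_adj_nonleaf hg ha).1 hab)
    ((GG_adj_nonleaf hg hb).1 hbc) ((GG_adj_nonleaf hg hc).1 hcd)
    ((GG_adj_nonleaf hg hd).1 hda) hac hbd

theorem GG_girth (hB : B ≠ leaf) (hC : C ≠ leaf) (hg : Good pos τ)
    (hH : (H B C).IsAcyclic) : 5 ≤ (GG pos τ).egirth :=
  five_le_egirth (fun _ _ _ h1 h2 h3 => GG_no_triangle hB hC hg hH h1 h2 h3)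
    (fun _ _ _ _ h1 h2 h3 h4 h5 h6 => GG_no_square hB hC hg hH h1 h2 h3 h4 h5 h6)

end Pool.Agent.Helper1.Hist
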