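import Pool.Agent.Helper1.Hist.Build

/-! Isomorphisms of the trees `H B C`: re-rooting, swapping children, normal form. -/

namespace Pool.Agent.Helper1.Hist

open BT

/-- a bijection mapping parent pairs to edges in both directions is an isomorphism -/
def isoOf {B C B' C' : BT} (e : W B C ≃ W B' C')
    (h : ∀ u, (H B' C').Adj (e u) (e (up u)))
    (h' : ∀ u', (H B C).Adj (e.symm u') (e.symm (up u'))) : H B C ≃g H B' C' where
  toEquiv := e
  map_rel_iff' := by
    intro a b
    constructor
    · intro hab
      rcases H_adj.1 hab with hh | hh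
      · have := h' (e a)
        rw [hh] at this
        simpa using this
      · have := h' (e b)
        rw [hh] at this
        simpa using this.symm
    · intro hab
      rcases H_adj.1 hab with hh | hh
      · have := h a
        rw [hh] at this
        exact this
      · have := h b
        rw [hh] at this
        exact this.symm

theorem adj_of_up {B C : BT} {u v : W B C} (h : v = up u) : (H B C).Adj u v := Or.inl h.symm
theorem adj_of_up' {B C : BT} {u v : W B C} (h : u = up v) : (H B C).Adj u v := Or.inr h.symm

/-- re-rooting map -/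
def rotL {l r c : BT} : W (node l r) c → W l (node r c)
  | Sum.inl none => Sum.inr tp
  | Sum.inl (some (Sum.inl x)) => Sum.inl x
  | Sum.inl (some (Sum.inr x)) => Sum.inr (il x)
  | Sum.inr y => Sum.inr (ir y)

/-- inverse re-rooting map -/
def rotL' {l r c : BT} : W l (node r c) → W (node l r) c
  | Sum.inr none => Sum.inl tp
  | Sum.inl x => Sum.inl (il x)
  | Sum.inr (some (Sum.inl x)) => Sum.inl (ir x)
  | Sum.inr (some (Sum.inr y)) => Sum.inr y

@[simp] theorem rotL_tp {l r c : BT} : (rotL (Sum.inl tp) : W l (node r c)) = Sum.inr tp := rfl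
@[simp] theorem rotL_il {l r c : BT} (x : l.V) :
    (rotL (Sum.inl (il x : (node l r).V)) : W l (node r c)) = Sum.inl x := rfl
@[simp] theorem rotL_ir {l r c : BT} (x : r.V) :
    (rotL (Sum.inl (ir x : (node l r).V)) : W l (node r c)) = Sum.inr (il x) := rfl
@[simp] theorem rotL_inr {l r c : BT} (x : c.V) :
    (rotL (Sum.inr x : W (node l r) c) : W l (node r c)) = Sum.inr (ir x) := rfl
@[simp] theorem rotL'_tp {l r c : BT} :
    (rotL' (Sum.inr tp : W l (node r c)) : W (node l r) c) = Sum.inl tp := rfl
@[simp] theorem rotL'_il {l r c : BT} (x : r.V) :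
    (rotL' (Sum.inr (il x) : W l (node r c)) : W (node l r) c) = Sum.inl (ir x) := rfl
@[simp] theorem rotL'_ir {l r c : BT} (x : c.V) :
    (rotL' (Sum.inr (ir x) : W l (node r c)) : W (node l r) c) = Sum.inr x := rfl
@[simp] theorem rotL'_inl {l r c : BT} (x : l.V) :
    (rotL' (Sum.inl x : W l (node r c)) : W (node l r) c) = Sum.inl (il x) := rfl

/-- re-rooting -/
def rotLE {l r c : BT} : W (node l r) c ≃ W l (node r c) where
  toFun := rotL
  invFun := rotL'
  left_inv := by
    rintro ((_ | (x | x)) | y) <;> rfl
  right_inv := by
    rintro (x | (_ | (x | x))) <;> rfl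

theorem iso_left (l r c : BT) : Nonempty (H (node l r) c ≃g H l (node r c)) := by
  refine ⟨isoOf rotLE ?_ ?_⟩
  · intro u
    rcases u with x | y
    · refine node_cases (P := fun x => (H l (node r c)).Adj (rotLE (Sum.inl x))
        (rotLE (up (Sum.inl x)))) ?_ ?_ ?_ x
      · show (H l (node r c)).Adj (Sum.inr tp) (rotL (up (Sum.inl tp)))
        have : (up (Sum.inl tp) : W (node l r) c) = Sum.inr c.root := by
          simp [up, root_node]
        rw [this]
        refine adj_of_up' ?_
        show Sum.inr tp = up (Sum.inr (ir c.root))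
        simp [up, root_node]
      · intro z
        refine adj_of_up ?_
        show rotL (up (Sum.inl (il z))) = up (Sum.inl z)
        by_cases hz : z = l.root
        · simp [up, root_node, hz]
        · simp [up, root_node, hz]
      · intro z
        refine adj_of_up ?_
        show rotL (up (Sum.inl (ir z))) = up (Sum.inr (il z))
        by_cases hz : z = r.root
        · simp [up, root_node, hz]
        · simp [up, root_node, hz]
    · refine adj_of_up ?_
      show rotL (up (Sum.inr y)) = up (Sum.inr (ir y))
      by_cases hy : y = c.root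
      · simp [up, root_node, hy]
      · simp [up, root_node, hy]
  · intro u
    rcases u with x | y
    · show (H (node l r) c).Adj (Sum.inl (il x)) (rotL' (up (Sum.inl x)))
      refine adj_of_up ?_
      by_cases hx : x = l.root
      · simp [up, root_node, hx]
      · simp [up, root_node, hx]
    · refine node_cases (P := fun y => (H (node l r) c).Adj (rotLE.symm (Sum.inr y))
        (rotLE.symm (up (Sum.inr y)))) ?_ ?_ ?_ y
      · show (H (node l r) c).Adj (Sum.inl tp) (rotL' (up (Sum.inr tp)))
        have : (up (Sum.inr tp) : W l (node r c)) = Sum.inl l.root := by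
          simp [up, root_node]
        rw [this]
        refine adj_of_up' ?_
        show Sum.inl tp = up (Sum.inl (il l.root))
        simp [up, root_node]
      · intro z
        refine adj_of_up ?_
        show rotL' (up (Sum.inr (il z))) = up (Sum.inl (ir z))
        by_cases hz : z = r.root
        · simp [up, root_node, hz]
        · simp [up, root_node, hz]
      · intro z
        refine adj_of_up ?_
        show rotL' (up (Sum.inr (ir z))) = up (Sum.inr z)
        by_cases hz : z = c.root
        · simp [up, root_node, hz]
        · simp [up, root_node, hz]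

/-- isomorphism of rooted trees -/
structure RIso (t t' : BT) where
  e : t.V ≃ t'.V
  root : e t.root = t'.root
  par : ∀ x, e (t.par x) = t'.par (e x)

/-- identity -/
def RIso.refl (t : BT) : RIso t t := ⟨Equiv.refl _, rfl, fun _ => rfl⟩

/-- composition -/
def RIso.trans {t t' t'' : BT} (a : RIso t t') (b : RIso t' t'') : RIso t t'' where
  e := a.e.trans b.e
  root := by rw [Equiv.trans_apply, a.root, b.root]
  par x := by rw [Equiv.trans_apply, Equiv.trans_apply, a.par, b.par]

/-- inverse -/
def RIso.symm {t t' : BT} (a : RIso t t') : RIso t' t where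
  e := a.e.symm
  root := by rw [Equiv.symm_apply_eq, a.root]
  par x := by rw [Equiv.symm_apply_eq, a.par, Equiv.apply_symm_apply]

theorem RIso.eq_root {t t' : BT} (a : RIso t t') (x : t.V) : a.e x = t'.root ↔ x = t.root := by
  rw [← a.root]; exact a.e.apply_eq_iff_eq

/-- congruence -/
def RIso.node {l r l' r' : BT} (a : RIso l l') (b : RIso r r') :
    RIso (node l r) (node l' r') where
  e := (Equiv.optionCongr (Equiv.sumCongr a.e b.e) :
    Option (l.V ⊕ r.V) ≃ Option (l'.V ⊕ r'.V))
  root := rfl
  par x := by
    refine node_cases (P := fun x => (Equiv.optionCongr (Equiv.sumCongr a.e b.e) :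
      Option (l.V ⊕ r.V) ≃ Option (l'.V ⊕ r'.V)) ((BT.node l r).par x) =
      (BT.node l' r').par ((Equiv.optionCongr (Equiv.sumCongr a.e b.e) :
        Option (l.V ⊕ r.V) ≃ Option (l'.V ⊕ r'.V)) x)) rfl ?_ ?_ x
    · intro z
      have e1 : (Equiv.optionCongr (Equiv.sumCongr a.e b.e) :
        Option (l.V ⊕ r.V) ≃ Option (l'.V ⊕ r'.V)) (il z : (BT.node l r).V) =
        (il (a.e z) : (BT.node l' r').V) := rfl
      rw [e1, par_il, par_il]
      by_cases hz : z = l.root
      · rw [if_pos hz, if_pos ((a.eq_root z).2 hz)]; rfl
      · rw [if_neg hz, if_neg (fun h => hz ((a.eq_root z).1 h)), ← a.par]; rfl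
    · intro z
      have e1 : (Equiv.optionCongr (Equiv.sumCongr a.e b.e) :
        Option (l.V ⊕ r.V) ≃ Option (l'.V ⊕ r'.V)) (ir z : (BT.node l r).V) =
        (ir (b.e z) : (BT.node l' r').V) := rfl
      rw [e1, par_ir, par_ir]
      by_cases hz : z = r.root
      · rw [if_pos hz, if_pos ((b.eq_root z).2 hz)]; rfl
      · rw [if_neg hz, if_neg (fun h => hz ((b.eq_root z).1 h)), ← b.par]; rfl

/-- swapping the children of the root -/
def RIso.swap (l r : BT) : RIso (BT.node l r) (BT.node r l) where
  e := (Equiv.optionCongr (Equiv.sumComm _ _) : Option (l.V ⊕ r.V) ≃ Option (r.V ⊕ l.V))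
  root := rfl
  par x := by
    refine node_cases (P := fun x => (Equiv.optionCongr (Equiv.sumComm _ _) :
      Option (l.V ⊕ r.V) ≃ Option (r.V ⊕ l.V)) ((BT.node l r).par x) =
      (BT.node r l).par ((Equiv.optionCongr (Equiv.sumComm _ _) :
        Option (l.V ⊕ r.V) ≃ Option (r.V ⊕ l.V)) x)) rfl ?_ ?_ x
    · intro z
      have e1 : (Equiv.optionCongr (Equiv.sumComm _ _) :
        Option (l.V ⊕ r.V) ≃ Option (r.V ⊕ l.V)) (il z : (BT.node l r).V) =
        (ir z : (BT.node r l).V) := rfl
      rw [e1, par_il, par_ir]
      by_cases hz : z = l.root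
      · rw [if_pos hz, if_pos hz]; rfl
      · rw [if_neg hz, if_neg hz]; rfl
    · intro z
      have e1 : (Equiv.optionCongr (Equiv.sumComm _ _) :
        Option (l.V ⊕ r.V) ≃ Option (r.V ⊕ l.V)) (ir z : (BT.node l r).V) =
        (il z : (BT.node r l).V) := rfl
      rw [e1, par_ir, par_il]
      by_cases hz : z = r.root
      · rw [if_pos hz, if_pos hz]; rfl
      · rw [if_neg hz, if_neg hz]; rfl

theorem up_RIso {B C B' C' : BT} (a : RIso B B') (b : RIso C C') (u : W B C) :
    (Equiv.sumCongr a.e b.e) (up u) = up ((Equiv.sumCongr a.e b.e) u) := by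
  rcases u with x | y
  · show (Equiv.sumCongr a.e b.e) (up (Sum.inl x)) = up (Sum.inl (a.e x))
    by_cases hx : x = B.root
    · simp only [up, if_pos hx, if_pos ((a.eq_root x).2 hx)]
      show Sum.inr (b.e C.root) = _
      rw [b.root]
    · simp only [up, if_neg hx, if_neg (fun h => hx ((a.eq_root x).1 h))]
      show Sum.inl (a.e (B.par x)) = _
      rw [a.par]
  · show (Equiv.sumCongr a.e b.e) (up (Sum.inr y)) = up (Sum.inr (b.e y))
    by_cases hy : y = C.root
    · simp only [up, if_pos hy, if_pos ((b.eq_root y).2 hy)]
      show Sum.inl (a.e B.root) = _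
      rw [a.root]
    · simp only [up, if_neg hy, if_neg (fun h => hy ((b.eq_root y).1 h))]
      show Sum.inr (b.e (C.par y)) = _
      rw [b.par]

/-- rooted isomorphisms induce isomorphisms -/
def isoRIso {B C B' C' : BT} (a : RIso B B') (b : RIso C C') : H B C ≃g H B' C' :=
  isoOf (Equiv.sumCongr a.e b.e) (fun u => adj_of_up (up_RIso a b u))
    (fun u => adj_of_up (up_RIso a.symm b.symm u))

/-- exchanging the two sides -/
def isoSymm (B C : BT) : H B C ≃g H C B :=
  isoOf (Equiv.sumComm _ _) (by
    rintro (x | y)
    · refine adj_of_up ?_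
      show (Equiv.sumComm _ _) (up (Sum.inl x)) = up (Sum.inr x)
      by_cases hx : x = B.root
      · simp [up, hx]
      · simp [up, hx]
    · refine adj_of_up ?_
      show (Equiv.sumComm _ _) (up (Sum.inr y)) = up (Sum.inl y)
      by_cases hy : y = C.root
      · simp [up, hy]
      · simp [up, hy]) (by
    rintro (x | y)
    · refine adj_of_up ?_
      show (Equiv.sumComm _ _).symm (up (Sum.inl x)) = up (Sum.inr x)
      by_cases hx : x = C.root
      · simp [up, hx]
      · simp [up, hx]
    · refine adj_of_up ?_
      show (Equiv.sumComm _ _).symm (up (Sum.inr y)) = up (Sum.inl y)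
      by_cases hy : y = B.root
      · simp [up, hy]
      · simp [up, hy])

/-- leaf-first normal form of a rooted tree -/
def norm : BT → BT
  | leaf => leaf
  | node l r => if norm r = leaf then node (norm r) (norm l) else node (norm l) (norm r)

theorem norm_normal : (t : BT) → (norm t).Normal
  | leaf => trivial
  | node l r => by
      rw [norm]
      by_cases h : norm r = leaf
      · rw [if_pos h]
        exact ⟨norm_normal r, norm_normal l, fun _ => h⟩
      · rw [if_neg h]
        exact ⟨norm_normal l, norm_normal r, fun h' => absurd h' h⟩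

theorem norm_riso : (t : BT) → Nonempty (RIso t (norm t))
  | leaf => ⟨RIso.refl _⟩
  | node l r => by
      obtain ⟨a⟩ := norm_riso l
      obtain ⟨b⟩ := norm_riso r
      rw [norm]
      by_cases h : norm r = leaf
      · rw [if_pos h]
        exact ⟨(RIso.swap l r).trans (RIso.node b a)⟩
      · rw [if_neg h]
        exact ⟨RIso.node a b⟩

theorem leaves_length_node (l r : BT) :
    (node l r).leaves.length = l.leaves.length + r.leaves.length := by
  rw [leaves_node, List.length_append, List.length_map, List.length_map]

theorem norm_length : (t : BT) → (norm t).leaves.length = t.leaves.length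
  | leaf => rfl
  | node l r => by
      rw [norm, leaves_length_node]
      by_cases h : norm r = leaf
      · rw [if_pos h, leaves_length_node, norm_length l, norm_length r, Nat.add_comm]
      · rw [if_neg h, leaves_length_node, norm_length l, norm_length r]

end Pool.Agent.Helper1.Hist
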