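import Pool.Agent.Helper1.Hist.Claim

/-! Patterns of a Boolean function along the normal leaves. -/

namespace Pool.Agent.Helper1.Hist

open BT

theorem take_cons {α : Type*} {L : List α} {n : ℕ} (h : n + 1 ≤ L.length) :
    ∃ c L', L = c :: L' ∧ n ≤ L'.length := by
  cases L with
  | nil => simp at h
  | cons c L' => exact ⟨c, L', rfl, by simpa using h⟩

theorem two_le_length {α : Type*} {L : List α} {x y : α} (hx : x ∈ L) (hy : y ∈ L)
    (h : x ≠ y) : 2 ≤ L.length := by
  match L, hx, hy with
  | [], hx, _ => simp at hx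
  | [a], hx, hy =>
    rw [List.mem_singleton] at hx hy
    exact absurd (hx.trans hy.symm) h
  | a :: b :: l, _, _ => simp

theorem exists_two {α : Type*} {L : List α} (hn : L.Nodup) (h : 2 ≤ L.length) :
    ∃ x y, x ∈ L ∧ y ∈ L ∧ x ≠ y := by
  match L, hn, h with
  | a :: b :: l, hn, _ =>
    refine ⟨a, b, by simp, by simp, ?_⟩
    rw [List.nodup_cons] at hn
    intro hab
    exact hn.1 (by rw [hab]; simp)

theorem chg_sub {t : BT} (X : t.V → Bool) {S : List t.V} (hS : S.Sublist t.leaves) :
    chg (X t.root :: (S.map X ++ [X t.root])) ≤ 2 * t.cr X :=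
  (chg_sublist (((hS.map X).append (List.Sublist.refl _)).cons_cons _)).trans
    (chg_leaves_le t X)

/-- two flipped and two unflipped elements in an interval pattern -/
theorem four_of_two {α : Type*} {N L pre mid post : List α} [NeZero N.length]
    {s : Fin N.length} (st : Step N.length s.val) (hs : N.Sublist L)
    (hL : L = pre ++ (mid ++ post)) (X : α → Bool) (b : Bool)
    (hpre : ∀ x ∈ pre, X x = b) (hmid : ∀ x ∈ mid, X x = !b) (hpost : ∀ x ∈ post, X x = b)
    (h1 : ∃ x y, x ∈ N ∧ y ∈ N ∧ x ≠ y ∧ X x = !b ∧ X y = !b)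
    (h2 : ∃ x y, x ∈ N ∧ y ∈ N ∧ x ≠ y ∧ X x = b ∧ X y = b) :
    4 ≤ cc s (fun i => X (N.get i)) := by
  rw [hL] at hs
  obtain ⟨N1, N', hN, hs1, hs'⟩ := List.sublist_append_iff.1 hs
  obtain ⟨N2, N3, hN', hs2, hs3⟩ := List.sublist_append_iff.1 hs'
  rw [hN'] at hN
  have k1 : ∀ x ∈ N1, X x = b := fun x hx => hpre x (hs1.subset hx)
  have k2 : ∀ x ∈ N2, X x = !b := fun x hx => hmid x (hs2.subset hx)
  have k3 : ∀ x ∈ N3, X x = b := fun x hx => hpost x (hs3.subset hx)
  have n1 : 2 ≤ N2.length := by
    obtain ⟨x, y, hx, hy, hxy, ex, ey⟩ := h1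
    have key : ∀ z ∈ N, X z = (!b) → z ∈ N2 := by
      intro z hz ez
      rw [hN, List.mem_append, List.mem_append] at hz
      rcases hz with hz | hz | hz
      · rw [k1 z hz] at ez; simp at ez
      · exact hz
      · rw [k3 z hz] at ez; simp at ez
    exact two_le_length (key x hx ex) (key y hy ey) hxy
  have n2 : 2 ≤ N1.length + N3.length := by
    obtain ⟨x, y, hx, hy, hxy, ex, ey⟩ := h2
    have key : ∀ z ∈ N, X z = b → z ∈ N1 ++ N3 := by
      intro z hz ez
      rw [hN, List.mem_append, List.mem_append] at hz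
      rw [List.mem_append]
      rcases hz with hz | hz | hz
      · exact Or.inl hz
      · rw [k2 z hz] at ez; simp at ez
      · exact Or.inr hz
    have := two_le_length (key x hx ex) (key y hy ey) hxy
    rwa [List.length_append] at this
  have hlen : N.length = N1.length + (N2.length + N3.length) := by
    rw [hN, List.length_append, List.length_append]
  have hst3 := st.h3
  have hst2 := st.h2
  refine cc_four s (by omega) (by omega) _ b N1.length N2.length (by omega) n1 (by omega) ?_
  intro i
  have hi := i.isLt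
  have hget : (N1 ++ (N2 ++ N3))[i.val]? = some (N.get i) := by
    have h0 : N[i.val]? = some (N.get i) := by simp
    have e0 : N[i.val]? = (N1 ++ (N2 ++ N3))[i.val]? := by rw [← hN]
    rw [← e0, h0]
  rw [List.getElem?_append] at hget
  by_cases c1 : i.val < N1.length
  · rw [if_pos c1] at hget
    rw [if_neg (by omega)]
    exact k1 _ (List.mem_of_getElem? hget)
  · rw [if_neg c1, List.getElem?_append] at hget
    by_cases c2 : i.val - N1.length < N2.length
    · rw [if_pos c2] at hget
      rw [if_pos (by omega)]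
      exact k2 _ (List.mem_of_getElem? hget)
    · rw [if_neg c2] at hget
      rw [if_neg (by omega)]
      exact k3 _ (List.mem_of_getElem? hget)

theorem two_of_ne {α : Type*} {N : List α} [NeZero N.length]
    {s : Fin N.length} (st : Step N.length s.val) (X : α → Bool) (b : Bool)
    (h1 : ∃ x, x ∈ N ∧ X x = !b) (h2 : ∃ x, x ∈ N ∧ X x = b) :
    2 ≤ cc s (fun i => X (N.get i)) := by
  obtain ⟨x, hx, ex⟩ := h1
  obtain ⟨y, hy, ey⟩ := h2
  obtain ⟨i, rfl⟩ := List.get_of_mem hx
  obtain ⟨j, rfl⟩ := List.get_of_mem hy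
  refine two_le_cc st.co (i := i) (j := j) ?_
  simp only [ex, ey]
  cases b <;> simp

/-- in a cut with one crossing tree edge at which leaves agree with their parents, the flipped
leaves form an interval with at least two elements -/
theorem cr_one_interval {t : BT} (X : t.V → Bool) (h : t.cr X = 1)
    (hp : ∀ x, t.IsLf x → x ≠ t.root → X x = X (t.par x)) :
    ∃ pre mid post : List t.V, t.leaves = pre ++ (mid ++ post) ∧
      (∀ x ∈ pre, X x = X t.root) ∧ (∀ x ∈ mid, X x = !X t.root) ∧
      (∀ x ∈ post, X x = X t.root) ∧ 2 ≤ mid.length := by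
  obtain ⟨pre, mid, post, h1, h2, h3, h4, h5⟩ := cr_one t X h
  refine ⟨pre, mid, post, h1, h2, h3, h4, ?_⟩
  rcases h5 with ⟨z, hz, hz2⟩ | ⟨h5, _⟩
  · exfalso
    have e1 : X z = !X t.root := h3 z (by rw [hz]; simp)
    have hzr : z ≠ t.root := by
      rintro rfl
      simp at e1
    have hlf : t.IsLf z := by
      rw [← mem_leaves, h1, hz]; simp
    have e2 := hp z hlf hzr
    rw [e1] at e2
    exact par_ne hzr (hz2 _ e2.symm)
  · exact h5

end Pool.Agent.Helper1.Hist
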