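import Pool.Agent.Helper1.Hist.Iso
import Pool.Agent.Helper1.Hist.Chain

/-! Choosing the root edge. -/

namespace Pool.Agent.Helper1.Hist

open BT

/-- `a'` is a subtree of `a` and `c'` is the rest, as seen from `a'` -/
inductive Sub : BT → BT → BT → BT → Prop
  | refl (a c : BT) : Sub a c a c
  | left {l r c a' c' : BT} : Sub l (node r c) a' c' → Sub (node l r) c a' c'
  | right {l r c a' c' : BT} : Sub r (node l c) a' c' → Sub (node l r) c a' c'

theorem Sub.iso {a c a' c' : BT} (h : Sub a c a' c') : Nonempty (H a c ≃g H a' c') := by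
  induction h with
  | refl a c => exact ⟨SimpleGraph.Iso.refl⟩
  | @left l r c a' c' _ ih =>
    obtain ⟨i⟩ := ih
    obtain ⟨j⟩ := iso_left l r c
    exact ⟨j.trans i⟩
  | @right l r c a' c' _ ih =>
    obtain ⟨i⟩ := ih
    obtain ⟨j⟩ := iso_left r l c
    exact ⟨((isoRIso (RIso.swap l r) (RIso.refl c)).trans j).trans i⟩

theorem Sub.trans {a c a' c' a'' c'' : BT} (h : Sub a c a' c') (h' : Sub a' c' a'' c'') :
    Sub a c a'' c'' := by
  induction h with
  | refl a c => exact h'
  | left _ ih => exact Sub.left (ih h')
  | right _ ih => exact Sub.right (ih h')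

theorem Sub.normal {a c a' c' : BT} (h : Sub a c a' c') (hn : a.Normal) : a'.Normal := by
  induction h with
  | refl a c => exact hn
  | left _ ih => exact ih hn.1
  | right _ ih => exact ih hn.2.1

theorem Sub.length {a c a' c' : BT} (h : Sub a c a' c') :
    a.leaves.length + c.leaves.length = a'.leaves.length + c'.leaves.length := by
  induction h with
  | refl a c => rfl
  | left _ ih =>
    rw [leaves_length_node] at ih ⊢
    omega
  | right _ ih =>
    rw [leaves_length_node] at ih ⊢
    omega

/-- length of the chain on top -/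
def top : BT → ℕ
  | node leaf r => top r + 1
  | _ => 0

theorem top_leaf (r : BT) : top (node leaf r) = top r + 1 := by rw [top]

theorem top_node {l r : BT} (hl : l ≠ leaf) : top (node l r) = 0 := by
  cases l with
  | leaf => exact absurd rfl hl
  | node a b => rfl

theorem chain_of_top : (n : ℕ) → (t : BT) → n ≤ top t → ∃ t', t = chain n t'
  | 0, t, _ => ⟨t, rfl⟩
  | n + 1, leaf, h => by
      exfalso
      have : top leaf = 0 := rfl
      omega
  | n + 1, node l r, h => by
      by_cases hl : l = leaf
      · subst hl
        rw [top_leaf] at h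
        obtain ⟨t', ht'⟩ := chain_of_top n r (by omega)
        exact ⟨t', by rw [chain_succ, ← ht']⟩
      · rw [top_node hl] at h
        omega

theorem chain_node (n : ℕ) (c : BT) : chain n (node leaf c) = node leaf (chain n c) := by
  induction n with
  | zero => rfl
  | succ n ih => rw [chain_succ, ih, chain_succ]

theorem chain_length (n : ℕ) (c : BT) :
    (chain n c).leaves.length = n + c.leaves.length := by
  induction n with
  | zero => simp [chain]
  | succ n ih =>
    rw [chain_succ, leaves_length_node, ih]
    simp; omega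

theorem descend (m : ℕ) (t : BT) : ∀ (n : ℕ) (c : BT),
    Sub (chain (n + m) t) c (chain m t) (chain n c) := by
  intro n
  induction n with
  | zero => intro c; rw [Nat.zero_add]; exact Sub.refl _ _
  | succ n ih =>
    intro c
    have h := ih (node leaf c)
    rw [chain_node] at h
    rw [Nat.add_right_comm, chain_succ, chain_succ]
    exact Sub.right h

theorem find_eleven : ∀ (a c : BT), 11 ≤ a.ch →
    ∃ a' c', Sub a c a' c' ∧ 11 ≤ a'.ch ∧ a'.ch ≤ 20
  | leaf, c, h => by simp [ch] at h
  | node l r, c, h => by
      by_cases h1 : 11 ≤ l.ch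
      · obtain ⟨a', c', hs, h2⟩ := find_eleven l (node r c) h1
        exact ⟨a', c', Sub.left hs, h2⟩
      · by_cases h2 : 11 ≤ r.ch
        · obtain ⟨a', c', hs, h3⟩ := find_eleven r (node l c) h2
          exact ⟨a', c', Sub.right hs, h3⟩
        · refine ⟨_, _, Sub.refl _ _, h, ?_⟩
          rw [ch] at h ⊢
          split_ifs at h ⊢ <;> omega

theorem find_chain : ∀ (t c : BT), t.Normal → t ≠ leaf →
    top t + 77 * t.ch < t.leaves.length + 76 → ∃ t' c', Sub t c (chain 39 t') c'
  | leaf, c, _, h, _ => absurd rfl h
  | node l r, c, hn, _, h => by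
      by_cases hl : l = leaf
      · subst hl
        by_cases hr : r = leaf
        · subst hr
          exfalso
          have e1 : top (node leaf leaf) = 1 := rfl
          have e2 : (node leaf leaf).ch = 1 := rfl
          have e3 : (node leaf leaf).leaves.length = 2 := rfl
          omega
        · have e1 := top_leaf r
          have e2 : (node leaf r).ch = r.ch := by
            rw [ch, if_neg (fun h => hr h.2)]
            simp [ch]
          have e3 : (node leaf r).leaves.length = 1 + r.leaves.length := by
            rw [leaves_length_node]; rfl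
          obtain ⟨t', c', hs⟩ := find_chain r (node leaf c) hn.2.1 hr (by omega)
          exact ⟨t', c', Sub.right hs⟩
      · have hr : r ≠ leaf := fun hr => hl (hn.2.2 hr)
        by_cases h1 : 39 ≤ top l
        · obtain ⟨t', ht'⟩ := chain_of_top 39 l h1
          exact ⟨t', node r c, Sub.left (by rw [ht']; exact Sub.refl _ _)⟩
        · by_cases h2 : 39 ≤ top r
          · obtain ⟨t', ht'⟩ := chain_of_top 39 r h2
            exact ⟨t', node l c, Sub.right (by rw [ht']; exact Sub.refl _ _)⟩
          · have e1 := top_node (r := r) hl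
            have e2 : (node l r).ch = l.ch + r.ch := by
              rw [ch, if_neg (fun h => hr h.2)]
            have e3 := leaves_length_node l r
            by_cases h3 : top l + 77 * l.ch < l.leaves.length + 76
            · obtain ⟨t', c', hs⟩ := find_chain l (node r c) hn.1 hl h3
              exact ⟨t', c', Sub.left hs⟩
            · obtain ⟨t', c', hs⟩ := find_chain r (node l c) hn.2.1 hr (by omega)
              exact ⟨t', c', Sub.right hs⟩

/-- the selection: either a subtree with eleven cherries or a chain with twenty nodes, with at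
least nineteen leaves outside -/
theorem select (t c : BT) (hn : t.Normal) (hlen : 2000 ≤ t.leaves.length) :
    ∃ a' c', Sub t c a' c' ∧ 19 ≤ c'.leaves.length ∧ (11 ≤ a'.ch ∨ ∃ t', a' = chain 20 t') := by
  have key : ∀ a c : BT, a.Normal → a.ch ≤ 20 → 1900 ≤ a.leaves.length →
      ∃ a' c', Sub a c a' c' ∧ 19 ≤ c'.leaves.length ∧ ∃ t', a' = chain 20 t' := by
    intro a c ha h20 hl
    have h39 : ∃ t' c', Sub a c (chain 39 t') c' := by
      by_cases ht : 39 ≤ top a
      · obtain ⟨t', ht'⟩ := chain_of_top 39 a ht
        exact ⟨t', c, by rw [ht']; exact Sub.refl _ _⟩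
      · refine find_chain a c ha ?_ (by omega)
        rintro rfl
        simp at hl
    obtain ⟨t', c', hs⟩ := h39
    refine ⟨chain 20 t', chain 19 c', hs.trans (descend 20 t' 19 c'), ?_, t', rfl⟩
    rw [chain_length]
    omega
  by_cases h : 11 ≤ t.ch
  · obtain ⟨a', c', hs, h1, h2⟩ := find_eleven t c h
    by_cases h3 : 19 ≤ c'.leaves.length
    · exact ⟨a', c', hs, h3, Or.inl h1⟩
    · have hl := hs.length
      obtain ⟨a'', c'', hs', h4, h5⟩ := key a' c' (hs.normal hn) h2 (by omega)
      exact ⟨a'', c'', hs.trans hs', h4, Or.inr h5⟩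
  · obtain ⟨a'', c'', hs', h4, h5⟩ := key t c hn (by omega) (by omega)
    exact ⟨a'', c'', hs', h4, Or.inr h5⟩

/-- one can always re-root at a leaf -/
theorem exists_leaf_root : ∀ (a c : BT), ∃ c', Sub a c leaf c'
  | leaf, c => ⟨c, Sub.refl _ _⟩
  | node l r, c => by
      obtain ⟨c', h⟩ := exists_leaf_root l (node r c)
      exact ⟨c', Sub.left h⟩

theorem card_V : (t : BT) → Fintype.card t.V + 1 = 2 * t.leaves.length
  | leaf => rfl
  | node l r => by
      have e : Fintype.card (node l r).V = Fintype.card (Option (l.V ⊕ r.V)) := rfl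
      rw [e, Fintype.card_option, Fintype.card_sum, leaves_length_node]
      have := card_V l
      have := card_V r
      omega

end Pool.Agent.Helper1.Hist
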