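import Pool.Agent.Helper1.Hist.Cut
import Pool.Agent.Helper1.Hist.Circ
import Pool.Agent.Helper1.Hist.Colour

/-! The concrete slots: two circulants and two hexagons. -/

namespace Pool.Agent.Helper1.Hist

open BT

variable {B C : BT}

/-- the slot type -/
abbrev Slots (nB : List B.V) (nC : List C.V) : Type :=
  Fin nB.length ⊕ (Fin nC.length ⊕ (Fin 6 ⊕ Fin 6))

/-- position of a slot -/
def posD (nB : List B.V) (nC : List C.V) (h1 h2 : Fin 6 → W B C) : Slots nB nC → W B C :=
  Sum.elim (fun i => Sum.inl (nB.get i))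
    (Sum.elim (fun i => Sum.inr (nC.get i)) (Sum.elim h1 h2))

/-- successor permutation -/
def tauD (nB : List B.V) (nC : List C.V) [NeZero nB.length] [NeZero nC.length]
    (sB : Fin nB.length) (sC : Fin nC.length) : Equiv.Perm (Slots nB nC) :=
  Equiv.sumCongr (Equiv.addRight sB) (Equiv.sumCongr (Equiv.addRight sC)
    (Equiv.sumCongr (Equiv.addRight 1) (Equiv.addRight 1)))

variable {nB : List B.V} {nC : List C.V} {h1 h2 : Fin 6 → W B C}

@[simp] theorem posD_B (i : Fin nB.length) :
    posD nB nC h1 h2 (Sum.inl i) = Sum.inl (nB.get i) := rfl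
@[simp] theorem posD_C (i : Fin nC.length) :
    posD nB nC h1 h2 (Sum.inr (Sum.inl i)) = Sum.inr (nC.get i) := rfl
@[simp] theorem posD_1 (i : Fin 6) :
    posD nB nC h1 h2 (Sum.inr (Sum.inr (Sum.inl i))) = h1 i := rfl
@[simp] theorem posD_2 (i : Fin 6) :
    posD nB nC h1 h2 (Sum.inr (Sum.inr (Sum.inr i))) = h2 i := rfl

variable [NeZero nB.length] [NeZero nC.length]
  {sB : Fin nB.length} {sC : Fin nC.length}

@[simp] theorem tauD_B (i : Fin nB.length) :
    tauD nB nC sB sC (Sum.inl i) = Sum.inl (i + sB) := rfl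
@[simp] theorem tauD_C (i : Fin nC.length) :
    tauD nB nC sB sC (Sum.inr (Sum.inl i)) = Sum.inr (Sum.inl (i + sC)) := rfl
@[simp] theorem tauD_1 (i : Fin 6) :
    tauD nB nC sB sC (Sum.inr (Sum.inr (Sum.inl i))) = Sum.inr (Sum.inr (Sum.inl (i + 1))) := rfl
@[simp] theorem tauD_2 (i : Fin 6) :
    tauD nB nC sB sC (Sum.inr (Sum.inr (Sum.inr i))) = Sum.inr (Sum.inr (Sum.inr (i + 1))) := rfl
theorem oW_eq (X : W B C → Bool) : oW (posD nB nC h1 h2) (tauD nB nC sB sC) X =
    cc sB (fun i => X (Sum.inl (nB.get i))) + (cc sC (fun i => X (Sum.inr (nC.get i))) +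
      (cc 1 (fun k => X (h1 k)) + cc 1 (fun k => X (h2 k)))) := by
  unfold oW cc
  rw [Fintype.sum_sum_type, Fintype.sum_sum_type, Fintype.sum_sum_type]
  rfl

theorem fin6_t : ∀ i : Fin 6, i + 1 ≠ i ∧ i + 1 + 1 ≠ i ∧ i + 1 + 1 + 1 ≠ i ∧
    i + 1 + 1 + 1 + 1 ≠ i := by decide

/-- requirements on a circulant step -/
structure Step (m : ℕ) (s : ℕ) : Prop where
  hm : 12 ≤ m
  h3 : 3 ≤ s
  h2 : 2 * s + 2 ≤ m
  co : Nat.Coprime s m

theorem Step.mul_ne {m : ℕ} [NeZero m] {s : Fin m} (h : Step m s.val) (k : ℕ) (hk : 0 < k)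
    (hk4 : k ≤ 4) : ¬ m ∣ s.val * k := by
  intro hd
  have := h.co.symm.dvd_of_dvd_mul_left hd
  have := Nat.le_of_dvd hk this
  have := h.hm
  omega

theorem Step.t {m : ℕ} [NeZero m] {s : Fin m} (h : Step m s.val) (i : Fin m) :
    i + s ≠ i ∧ i + s + s ≠ i ∧ i + s + s + s ≠ i ∧ i + s + s + s + s ≠ i := by
  have key : ∀ k : ℕ, 0 < k → k ≤ 4 → ∀ j : Fin m, j.val = (i.val + s.val * k) % m → j ≠ i := by
    intro k hk hk4 j hj hji
    rw [hji] at hj
    apply h.mul_ne k hk hk4
    have h1 : (i.val + s.val * k) ≡ i.val + 0 [MOD m] := by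
      unfold Nat.ModEq
      rw [← hj, Nat.add_zero, Nat.mod_eq_of_lt i.isLt]
    have h2 := Nat.ModEq.add_left_cancel' _ h1
    exact (Nat.modEq_zero_iff_dvd).1 h2
  refine ⟨key 1 (by omega) (by omega) _ ?_, key 2 (by omega) (by omega) _ ?_,
    key 3 (by omega) (by omega) _ ?_, key 4 (by omega) (by omega) _ ?_⟩
  · simp [Fin.val_add]
  · simp only [Fin.val_add, Nat.mod_add_mod]; congr 1; ring
  · simp only [Fin.val_add, Nat.mod_add_mod]; congr 1; ring
  · simp only [Fin.val_add, Nat.mod_add_mod]; congr 1; ring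

/-- separation of circulant neighbours -/
theorem Step.sep {t : BT} {L : List t.V} [NeZero L.length] {s : Fin L.length}
    (h : Step L.length s.val) (hL : SepL t L) (i : Fin L.length) :
    t.par (L.get i) ≠ t.par (L.get (i + s)) ∧
    ¬ t.tadj (t.par (L.get i)) (t.par (L.get (i + s))) ∧
    t.par (L.get i) ≠ t.par (L.get (i + s + s)) := by
  have hg : ∀ j : Fin L.length, L[j.val]? = some (L.get j) := by
    intro j; simp
  have key : ∀ j : Fin L.length,
      (i.val + 2 ≤ j.val ∨ j.val + 2 ≤ i.val) → t.par (L.get i) ≠ t.par (L.get j) := by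
    intro j hj he
    rcases hj with hj | hj
    · have := (hL i.val j.val _ _ (by omega) (hg i) (hg j)).1 he
      omega
    · have := (hL j.val i.val _ _ (by omega) (hg j) (hg i)).1 he.symm
      omega
  have key2 : ∀ j : Fin L.length,
      (i.val + 3 ≤ j.val ∨ j.val + 3 ≤ i.val) →
        ¬ t.tadj (t.par (L.get i)) (t.par (L.get j)) := by
    intro j hj he
    rcases hj with hj | hj
    · have := (hL i.val j.val _ _ (by omega) (hg i) (hg j)).2 he
      omega
    · have := (hL j.val i.val _ _ (by omega) (hg j) (hg i)).2 (tadj_symm he)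
      omega
  have hi := i.isLt
  have hs := s.isLt
  have h1 := h.hm
  have h2 := h.h3
  have h3 := h.h2
  have e1 : (i + s).val = if i.val + s.val < L.length then i.val + s.val
      else i.val + s.val - L.length := by
    rw [Fin.val_add, mod_two_cases (by omega)]
  have e2 : (i + s + s).val = if i.val + 2 * s.val < L.length then i.val + 2 * s.val
      else i.val + 2 * s.val - L.length := by
    rw [Fin.val_add, Fin.val_add, Nat.mod_add_mod, mod_two_cases (by omega)]
    have : i.val + s.val + s.val = i.val + 2 * s.val := by ring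
    rw [this]
  refine ⟨key _ ?_, key2 _ ?_, key _ ?_⟩
  · rw [e1]; split_ifs <;> omega
  · rw [e1]; split_ifs <;> omega
  · rw [e2]; split_ifs <;> omega

theorem leaf_ne_root {t : BT} (ht : t ≠ leaf) {x : t.V} (hx : t.IsLf x) : x ≠ t.root := by
  rintro rfl
  exact ht ((isLf_root_iff t).1 hx)

theorem H_adj_inl {x y : B.V} : (H B C).Adj (Sum.inl x) (Sum.inl y) ↔ B.tadj x y := by
  rw [H_adj]
  unfold tadj up
  constructor
  · rintro (h | h)
    · by_cases hx : x = B.root
      · simp [hx] at h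
      · simp only [if_neg hx] at h; exact Or.inl ⟨hx, Sum.inl.inj h⟩
    · by_cases hy : y = B.root
      · simp [hy] at h
      · simp only [if_neg hy] at h; exact Or.inr ⟨hy, Sum.inl.inj h⟩
  · rintro (⟨h1, h2⟩ | ⟨h1, h2⟩)
    · left; simp only [if_neg h1, h2]
    · right; simp only [if_neg h1, h2]

theorem H_adj_inr {x y : C.V} : (H B C).Adj (Sum.inr x) (Sum.inr y) ↔ C.tadj x y := by
  rw [H_adj]
  unfold tadj up
  constructor
  · rintro (h | h)
    · by_cases hx : x = C.root
      · simp [hx] at h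
      · simp only [if_neg hx] at h; exact Or.inl ⟨hx, Sum.inr.inj h⟩
    · by_cases hy : y = C.root
      · simp [hy] at h
      · simp only [if_neg hy] at h; exact Or.inr ⟨hy, Sum.inr.inj h⟩
  · rintro (⟨h1, h2⟩ | ⟨h1, h2⟩)
    · left; simp only [if_neg h1, h2]
    · right; simp only [if_neg h1, h2]

theorem H_adj_inl_inr {x : B.V} {y : C.V} :
    (H B C).Adj (Sum.inl x) (Sum.inr y) ↔ (x = B.root ∧ y = C.root) := by
  rw [H_adj]
  unfold up
  constructor
  · rintro (h | h)
    · by_cases hx : x = B.root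
      · simp only [if_pos hx] at h; exact ⟨hx, (Sum.inr.inj h).symm⟩
      · simp [hx] at h
    · by_cases hy : y = C.root
      · simp only [if_pos hy] at h; exact ⟨(Sum.inl.inj h).symm, hy⟩
      · simp [hy] at h
  · rintro ⟨h1, h2⟩
    left; simp only [if_pos h1, h2]

theorem up_inl {x : B.V} (hx : x ≠ B.root) : (up (Sum.inl x) : W B C) = Sum.inl (B.par x) := by
  simp only [up, if_neg hx]

theorem up_inr {x : C.V} (hx : x ≠ C.root) : (up (Sum.inr x) : W B C) = Sum.inr (C.par x) := by
  simp only [up, if_neg hx]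

/-- conditions inside a hexagon -/
structure HexOK (h : Fin 6 → W B C) : Prop where
  c1 : ∀ k, up (h k) ≠ up (h (k + 1))
  c2 : ∀ k, ¬ (H B C).Adj (up (h k)) (up (h (k + 1)))
  c3 : ∀ k, up (h k) ≠ up (h (k + 1 + 1))

theorem goodD (hB : B ≠ leaf) (hC : C ≠ leaf)
    (perm : (nB.map Sum.inl ++ (nC.map Sum.inr ++ (List.ofFn h1 ++ List.ofFn h2))).Perm
      (B.leaves.map Sum.inl ++ C.leaves.map (Sum.inr : C.V → W B C)))
    (lB : SepL B nB) (lC : SepL C nC) (stB : Step nB.length sB.val)
    (stC : Step nC.length sC.val) (x1 : HexOK h1) (x2 : HexOK h2) :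
    Good (posD nB nC h1 h2) (tauD nB nC sB sC) := by
  have nd0 : (B.leaves.map Sum.inl ++ C.leaves.map (Sum.inr : C.V → W B C)).Nodup := by
    refine List.Nodup.append ((leaves_nodup B).map Sum.inl_injective)
      ((leaves_nodup C).map Sum.inr_injective) ?_
    intro x hx hy
    simp only [List.mem_map] at hx hy
    obtain ⟨a, _, rfl⟩ := hx
    obtain ⟨b, _, hb⟩ := hy
    exact Sum.inr_ne_inl hb
  have nd := perm.nodup_iff.2 nd0
  have mem0 : ∀ u : W B C, u ∈ (B.leaves.map Sum.inl ++
      C.leaves.map (Sum.inr : C.V → W B C)) ↔ IsLfW u := by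
    intro u
    rcases u with x | y
    · simp [mem_leaves, IsLfW]
    · simp [mem_leaves, IsLfW]
  have mem : ∀ u : W B C, u ∈ (nB.map Sum.inl ++ (nC.map Sum.inr ++
      (List.ofFn h1 ++ List.ofFn h2))) ↔ IsLfW u := fun u => (perm.mem_iff).trans (mem0 u)
  rw [List.nodup_append'] at nd
  obtain ⟨nd1, nd, dj1⟩ := nd
  rw [List.nodup_append'] at nd
  obtain ⟨nd2, nd, dj2⟩ := nd
  rw [List.nodup_append'] at nd
  obtain ⟨nd3, nd4, dj3⟩ := nd
  have i1 := List.nodup_ofFn.1 nd3
  have i2 := List.nodup_ofFn.1 nd4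
  have nB' : nB.Nodup := List.Nodup.of_map _ nd1
  have nC' : nC.Nodup := List.Nodup.of_map _ nd2
  have lfB : ∀ i : Fin nB.length, B.IsLf (nB.get i) := by
    intro i
    have := (mem (Sum.inl (nB.get i))).1 (by
      rw [List.mem_append]; left; exact List.mem_map_of_mem (List.get_mem _ _))
    exact this
  have lfC : ∀ i : Fin nC.length, C.IsLf (nC.get i) := by
    intro i
    have := (mem (Sum.inr (nC.get i))).1 (by
      rw [List.mem_append, List.mem_append]; right; left
      exact List.mem_map_of_mem (List.get_mem _ _))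
    exact this
  have rB : ∀ i : Fin nB.length, nB.get i ≠ B.root := fun i => leaf_ne_root hB (lfB i)
  have rC : ∀ i : Fin nC.length, nC.get i ≠ C.root := fun i => leaf_ne_root hC (lfC i)
  constructor
  · -- injective
    rintro (i | i | i | i) (j | j | j | j) hij
    · simp only [posD_B] at hij
      rw [(List.nodup_iff_injective_get.1 nB') (Sum.inl.inj hij)]
    · simp at hij
    · exfalso
      refine dj1 (a := posD nB nC h1 h2 (Sum.inl i)) ?_ ?_
      · exact List.mem_map_of_mem (List.get_mem _ _)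
      · rw [hij, List.mem_append, List.mem_append]; right; left
        exact (List.mem_ofFn' _ _).2 ⟨j, rfl⟩
    · exfalso
      refine dj1 (a := posD nB nC h1 h2 (Sum.inl i)) ?_ ?_
      · exact List.mem_map_of_mem (List.get_mem _ _)
      · rw [hij, List.mem_append, List.mem_append]; right; right
        exact (List.mem_ofFn' _ _).2 ⟨j, rfl⟩
    · simp at hij
    · simp only [posD_C] at hij
      rw [(List.nodup_iff_injective_get.1 nC') (Sum.inr.inj hij)]
    · exfalso
      refine dj2 (a := posD nB nC h1 h2 (Sum.inr (Sum.inl i))) ?_ ?_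
      · exact List.mem_map_of_mem (List.get_mem _ _)
      · rw [hij, List.mem_append]; left
        exact (List.mem_ofFn' _ _).2 ⟨j, rfl⟩
    · exfalso
      refine dj2 (a := posD nB nC h1 h2 (Sum.inr (Sum.inl i))) ?_ ?_
      · exact List.mem_map_of_mem (List.get_mem _ _)
      · rw [hij, List.mem_append]; right
        exact (List.mem_ofFn' _ _).2 ⟨j, rfl⟩
    · exfalso
      refine dj1 (a := posD nB nC h1 h2 (Sum.inl j)) ?_ ?_
      · exact List.mem_map_of_mem (List.get_mem _ _)
      · rw [← hij, List.mem_append, List.mem_append]; right; left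
        exact (List.mem_ofFn' _ _).2 ⟨i, rfl⟩
    · exfalso
      refine dj2 (a := posD nB nC h1 h2 (Sum.inr (Sum.inl j))) ?_ ?_
      · exact List.mem_map_of_mem (List.get_mem _ _)
      · rw [← hij, List.mem_append]; left
        exact (List.mem_ofFn' _ _).2 ⟨i, rfl⟩
    · simp only [posD_1] at hij
      rw [i1 hij]
    · exfalso
      refine dj3 (a := h1 i) ?_ ?_
      · exact (List.mem_ofFn' _ _).2 ⟨i, rfl⟩
      · simp only [posD_1, posD_2] at hij
        rw [hij]; exact (List.mem_ofFn' _ _).2 ⟨j, rfl⟩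
    · exfalso
      refine dj1 (a := posD nB nC h1 h2 (Sum.inl j)) ?_ ?_
      · exact List.mem_map_of_mem (List.get_mem _ _)
      · rw [← hij, List.mem_append, List.mem_append]; right; right
        exact (List.mem_ofFn' _ _).2 ⟨i, rfl⟩
    · exfalso
      refine dj2 (a := posD nB nC h1 h2 (Sum.inr (Sum.inl j))) ?_ ?_
      · exact List.mem_map_of_mem (List.get_mem _ _)
      · rw [← hij, List.mem_append]; right
        exact (List.mem_ofFn' _ _).2 ⟨i, rfl⟩
    · exfalso
      refine dj3 (a := h1 j) ?_ ?_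
      · exact (List.mem_ofFn' _ _).2 ⟨j, rfl⟩
      · simp only [posD_1, posD_2] at hij
        rw [← hij]; exact (List.mem_ofFn' _ _).2 ⟨i, rfl⟩
    · simp only [posD_2] at hij
      rw [i2 hij]
  · rintro (i | i | i | i)
    · exact lfB i
    · exact lfC i
    · exact (mem (h1 i)).1 (by
        rw [List.mem_append, List.mem_append, List.mem_append]; right; right; left
        exact (List.mem_ofFn' _ _).2 ⟨i, rfl⟩)
    · exact (mem (h2 i)).1 (by
        rw [List.mem_append, List.mem_append, List.mem_append]; right; right; right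
        exact (List.mem_ofFn' _ _).2 ⟨i, rfl⟩)
  · intro u hu
    have := (mem u).2 hu
    rw [List.mem_append, List.mem_append, List.mem_append] at this
    rcases this with h | h | h | h
    · rw [List.mem_map] at h
      obtain ⟨x, hx, rfl⟩ := h
      obtain ⟨i, rfl⟩ := List.get_of_mem hx
      exact ⟨Sum.inl i, rfl⟩
    · rw [List.mem_map] at h
      obtain ⟨x, hx, rfl⟩ := h
      obtain ⟨i, rfl⟩ := List.get_of_mem hx
      exact ⟨Sum.inr (Sum.inl i), rfl⟩
    · obtain ⟨i, rfl⟩ := (List.mem_ofFn' _ _).1 h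
      exact ⟨Sum.inr (Sum.inr (Sum.inl i)), rfl⟩
    · obtain ⟨i, rfl⟩ := (List.mem_ofFn' _ _).1 h
      exact ⟨Sum.inr (Sum.inr (Sum.inr i)), rfl⟩
  · rintro (i | i | i | i) h
    · exact (stB.t i).1 (Sum.inl.inj h)
    · exact (stC.t i).1 (Sum.inl.inj (Sum.inr.inj h))
    · exact (fin6_t i).1 (Sum.inl.inj (Sum.inr.inj (Sum.inr.inj h)))
    · exact (fin6_t i).1 (Sum.inr.inj (Sum.inr.inj (Sum.inr.inj h)))
  · rintro (i | i | i | i) h
    · exact (stB.t i).2.1 (Sum.inl.inj h)
    · exact (stC.t i).2.1 (Sum.inl.inj (Sum.inr.inj h))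
    · exact (fin6_t i).2.1 (Sum.inl.inj (Sum.inr.inj (Sum.inr.inj h)))
    · exact (fin6_t i).2.1 (Sum.inr.inj (Sum.inr.inj (Sum.inr.inj h)))
  · rintro (i | i | i | i) h
    · exact (stB.t i).2.2.1 (Sum.inl.inj h)
    · exact (stC.t i).2.2.1 (Sum.inl.inj (Sum.inr.inj h))
    · exact (fin6_t i).2.2.1 (Sum.inl.inj (Sum.inr.inj (Sum.inr.inj h)))
    · exact (fin6_t i).2.2.1 (Sum.inr.inj (Sum.inr.inj (Sum.inr.inj h)))
  · rintro (i | i | i | i) h
    · exact (stB.t i).2.2.2 (Sum.inl.inj h)
    · exact (stC.t i).2.2.2 (Sum.inl.inj (Sum.inr.inj h))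
    · exact (fin6_t i).2.2.2 (Sum.inl.inj (Sum.inr.inj (Sum.inr.inj h)))
    · exact (fin6_t i).2.2.2 (Sum.inr.inj (Sum.inr.inj (Sum.inr.inj h)))
  · rintro (i | i | i | i)
    · simp only [posD_B, tauD_B]
      rw [up_inl (rB _), up_inl (rB _)]
      intro h; exact (stB.sep lB i).1 (Sum.inl.inj h)
    · simp only [posD_C, tauD_C]
      rw [up_inr (rC _), up_inr (rC _)]
      intro h; exact (stC.sep lC i).1 (Sum.inr.inj h)
    · exact x1.c1 i
    · exact x2.c1 i
  · rintro (i | i | i | i)
    · simp only [posD_B, tauD_B]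
      rw [up_inl (rB _), up_inl (rB _), H_adj_inl]
      exact (stB.sep lB i).2.1
    · simp only [posD_C, tauD_C]
      rw [up_inr (rC _), up_inr (rC _), H_adj_inr]
      exact (stC.sep lC i).2.1
    · exact x1.c2 i
    · exact x2.c2 i
  · rintro (i | i | i | i)
    · simp only [posD_B, tauD_B]
      rw [up_inl (rB _), up_inl (rB _)]
      intro h; exact (stB.sep lB i).2.2 (Sum.inl.inj h)
    · simp only [posD_C, tauD_C]
      rw [up_inr (rC _), up_inr (rC _)]
      intro h; exact (stC.sep lC i).2.2 (Sum.inr.inj h)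
    · exact x1.c3 i
    · exact x2.c3 i

end Pool.Agent.Helper1.Hist
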