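import Mathlib

/-! Rooted binary trees: vertices, leaves in depth-first order, parents, children, crossing counts. -/

namespace Pool.Agent.Helper1.Hist

/-- Rooted binary trees. -/
inductive BT : Type
  | leaf : BT
  | node : BT → BT → BT
  deriving DecidableEq

namespace BT

/-- Vertex type of a rooted binary tree. -/
def V : BT → Type
  | leaf => Unit
  | node l r => Option (l.V ⊕ r.V)

/-- The root. -/
def root : (t : BT) → t.V
  | leaf => ()
  | node _ _ => (none : Option _)

instance decEqV : (t : BT) → DecidableEq t.V
  | leaf => (inferInstance : DecidableEq Unit)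
  | node l r =>
    haveI := decEqV l
    haveI := decEqV r
    (inferInstance : DecidableEq (Option (l.V ⊕ r.V)))

instance fintypeV : (t : BT) → Fintype t.V
  | leaf => (inferInstance : Fintype Unit)
  | node l r =>
    haveI := fintypeV l
    haveI := fintypeV r
    (inferInstance : Fintype (Option (l.V ⊕ r.V)))

/-- left embedding -/
def il {l r : BT} (x : l.V) : (node l r).V := (some (Sum.inl x) : Option (l.V ⊕ r.V))
/-- right embedding -/
def ir {l r : BT} (x : r.V) : (node l r).V := (some (Sum.inr x) : Option (l.V ⊕ r.V))

/-- top vertex of a node -/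
def tp {l r : BT} : (node l r).V := (none : Option (l.V ⊕ r.V))

theorem root_node (l r : BT) : (node l r).root = tp := rfl

theorem leaf_eq_root (x : leaf.V) : x = leaf.root := rfl

@[elab_as_elim]
theorem node_cases {l r : BT} {P : (node l r).V → Prop} (h0 : P tp) (h1 : ∀ x : l.V, P (il x))
    (h2 : ∀ x : r.V, P (ir x)) : ∀ x, P x := by
  intro x
  match x with
  | none => exact h0
  | some (Sum.inl x) => exact h1 x
  | some (Sum.inr x) => exact h2 x

@[simp] theorem il_inj {l r : BT} {x y : l.V} : (il x : (node l r).V) = il y ↔ x = y := by
  unfold il; constructor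
  · intro h; exact Sum.inl.inj (Option.some.inj h)
  · rintro rfl; rfl
@[simp] theorem ir_inj {l r : BT} {x y : r.V} : (ir x : (node l r).V) = ir y ↔ x = y := by
  unfold ir; constructor
  · intro h; exact Sum.inr.inj (Option.some.inj h)
  · rintro rfl; rfl
@[simp] theorem il_ne_ir {l r : BT} {x : l.V} {y : r.V} : (il x : (node l r).V) ≠ ir y := by
  intro h; exact absurd (Option.some.inj h) (by simp)
@[simp] theorem ir_ne_il {l r : BT} {x : l.V} {y : r.V} : (ir y : (node l r).V) ≠ il x := by
  intro h; exact absurd (Option.some.inj h) (by simp)
@[simp] theorem il_ne_tp {l r : BT} {x : l.V} : (il x : (node l r).V) ≠ tp := by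
  intro h; exact absurd h (by simp [il, tp])
@[simp] theorem tp_ne_il {l r : BT} {x : l.V} : (tp : (node l r).V) ≠ il x := by
  intro h; exact absurd h (by simp [il, tp])
@[simp] theorem ir_ne_tp {l r : BT} {x : r.V} : (ir x : (node l r).V) ≠ tp := by
  intro h; exact absurd h (by simp [ir, tp])
@[simp] theorem tp_ne_ir {l r : BT} {x : r.V} : (tp : (node l r).V) ≠ ir x := by
  intro h; exact absurd h (by simp [ir, tp])

/-- parent (the root is its own parent) -/
def par : (t : BT) → t.V → t.V
  | leaf, x => x
  | node _ _, none => (none : Option _)
  | node l _, some (Sum.inl x) => if x = l.root then tp else il (l.par x)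
  | node _ r, some (Sum.inr x) => if x = r.root then tp else ir (r.par x)

@[simp] theorem par_tp {l r : BT} : (node l r).par tp = tp := rfl
@[simp] theorem par_il {l r : BT} (x : l.V) :
    (node l r).par (il x) = if x = l.root then tp else il (l.par x) := rfl
@[simp] theorem par_ir {l r : BT} (x : r.V) :
    (node l r).par (ir x) = if x = r.root then tp else ir (r.par x) := rfl

/-- the vertex is a leaf -/
def IsLf : (t : BT) → t.V → Prop
  | leaf, _ => True
  | node _ _, none => False
  | node l _, some (Sum.inl x) => l.IsLf x
  | node _ r, some (Sum.inr x) => r.IsLf x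

@[simp] theorem isLf_leaf (x : leaf.V) : leaf.IsLf x := trivial
@[simp] theorem isLf_tp {l r : BT} : ¬ (node l r).IsLf tp := fun h => h
@[simp] theorem isLf_il {l r : BT} (x : l.V) : (node l r).IsLf (il x) ↔ l.IsLf x := Iff.rfl
@[simp] theorem isLf_ir {l r : BT} (x : r.V) : (node l r).IsLf (ir x) ↔ r.IsLf x := Iff.rfl

/-- leaves in depth-first order -/
def leaves : (t : BT) → List t.V
  | leaf => [leaf.root]
  | node l r => (l.leaves.map il) ++ (r.leaves.map ir)

@[simp] theorem leaves_leaf : leaf.leaves = [leaf.root] := rfl
theorem leaves_node (l r : BT) :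
    (node l r).leaves = (l.leaves.map il) ++ (r.leaves.map ir) := rfl

theorem mem_leaves : (t : BT) → (x : t.V) → (x ∈ t.leaves ↔ t.IsLf x)
  | leaf, x => by
      constructor
      · intro _; trivial
      · intro _
        rw [leaf_eq_root x, leaves_leaf]
        exact List.mem_singleton.2 rfl
  | node l r, x => by
      refine node_cases (P := fun x => (x ∈ (node l r).leaves ↔ (node l r).IsLf x)) ?_ ?_ ?_ x
      · simp [leaves_node]
      · intro y
        simp [leaves_node, mem_leaves l y]
      · intro y
        simp [leaves_node, mem_leaves r y]

theorem leaves_nodup : (t : BT) → t.leaves.Nodup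
  | leaf => List.nodup_singleton _
  | node l r => by
      rw [leaves_node]
      refine List.Nodup.append ?_ ?_ ?_
      · exact (leaves_nodup l).map (fun a b h => il_inj.1 h)
      · exact (leaves_nodup r).map (fun a b h => ir_inj.1 h)
      · intro x hx hy
        simp only [List.mem_map] at hx hy
        obtain ⟨a, _, rfl⟩ := hx
        obtain ⟨b, _, hb⟩ := hy
        exact ir_ne_il hb

theorem leaves_pos : (t : BT) → 0 < t.leaves.length
  | leaf => Nat.one_pos
  | node l r => by
      rw [leaves_node]; simp [leaves_pos l]

theorem leaves_node_two (l r : BT) : 2 ≤ (node l r).leaves.length := by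
  rw [leaves_node]
  have := leaves_pos l
  have := leaves_pos r
  simp; omega

/-- left and right child of a non-leaf vertex -/
def lc : (t : BT) → t.V → t.V
  | leaf, x => x
  | node l _, none => il l.root
  | node l _, some (Sum.inl x) => il (l.lc x)
  | node _ r, some (Sum.inr x) => ir (r.lc x)

/-- right child -/
def rc : (t : BT) → t.V → t.V
  | leaf, x => x
  | node _ r, none => ir r.root
  | node l _, some (Sum.inl x) => il (l.rc x)
  | node _ r, some (Sum.inr x) => ir (r.rc x)

@[simp] theorem lc_tp {l r : BT} : (node l r).lc tp = il l.root := rfl
@[simp] theorem lc_il {l r : BT} (x : l.V) : (node l r).lc (il x) = il (l.lc x) := rfl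
@[simp] theorem lc_ir {l r : BT} (x : r.V) : (node l r).lc (ir x) = ir (r.lc x) := rfl
@[simp] theorem rc_tp {l r : BT} : (node l r).rc tp = ir r.root := rfl
@[simp] theorem rc_il {l r : BT} (x : l.V) : (node l r).rc (il x) = il (l.rc x) := rfl
@[simp] theorem rc_ir {l r : BT} (x : r.V) : (node l r).rc (ir x) = ir (r.rc x) := rfl

/-- For a non-leaf vertex `x`, a vertex `y` other than the root has parent `x` iff it is a child. -/
theorem par_eq_iff : (t : BT) → (x y : t.V) → ¬ t.IsLf x →
    ((y ≠ t.root ∧ t.par y = x) ↔ (y = t.lc x ∨ y = t.rc x))
  | leaf, x, y, h => absurd trivial h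
  | node l r, x, y, h => by
      revert h
      refine node_cases (P := fun x => ¬ (node l r).IsLf x →
        ((y ≠ (node l r).root ∧ (node l r).par y = x) ↔
          (y = (node l r).lc x ∨ y = (node l r).rc x))) ?_ ?_ ?_ x
      · intro _
        refine node_cases (P := fun y => ((y ≠ (node l r).root ∧ (node l r).par y = tp) ↔
          (y = (node l r).lc tp ∨ y = (node l r).rc tp))) ?_ ?_ ?_ y
        · simp [root_node]
        · intro z
          simp only [root_node, par_il, lc_tp, rc_tp]
          by_cases hz : z = l.root <;> simp [hz]
        · intro z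
          simp only [root_node, par_ir, lc_tp, rc_tp]
          by_cases hz : z = r.root <;> simp [hz]
      · intro x' hx'
        have ih := fun y' => par_eq_iff l x' y' (by simpa using hx')
        refine node_cases (P := fun y => ((y ≠ (node l r).root ∧ (node l r).par y = il x') ↔
          (y = (node l r).lc (il x') ∨ y = (node l r).rc (il x')))) ?_ ?_ ?_ y
        · simp [root_node]
        · intro z
          simp only [root_node, par_il, lc_il, rc_il, il_inj]
          rw [← ih z]
          by_cases hz : z = l.root <;> simp [hz]
        · intro z
          simp only [root_node, par_ir, lc_il, rc_il]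
          by_cases hz : z = r.root <;> simp [hz]
      · intro x' hx'
        have ih := fun y' => par_eq_iff r x' y' (by simpa using hx')
        refine node_cases (P := fun y => ((y ≠ (node l r).root ∧ (node l r).par y = ir x') ↔
          (y = (node l r).lc (ir x') ∨ y = (node l r).rc (ir x')))) ?_ ?_ ?_ y
        · simp [root_node]
        · intro z
          simp only [root_node, par_il, lc_ir, rc_ir]
          by_cases hz : z = l.root <;> simp [hz]
        · intro z
          simp only [root_node, par_ir, lc_ir, rc_ir, ir_inj]
          rw [← ih z]
          by_cases hz : z = r.root <;> simp [hz]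

theorem lc_ne_rc : (t : BT) → (x : t.V) → ¬ t.IsLf x → t.lc x ≠ t.rc x
  | leaf, _, h => absurd trivial h
  | node l r, x, h => by
      revert h
      refine node_cases (P := fun x => ¬ (node l r).IsLf x →
        (node l r).lc x ≠ (node l r).rc x) ?_ ?_ ?_ x
      · intro _; simp
      · intro x' hx'
        have ih := lc_ne_rc l x' (by simpa using hx')
        simpa using ih
      · intro x' hx'
        have ih := lc_ne_rc r x' (by simpa using hx')
        simpa using ih

/-- no vertex has a leaf as a parent (except the one-vertex tree) -/
theorem not_isLf_par : (t : BT) → (y : t.V) → y ≠ t.root → ¬ t.IsLf (t.par y)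
  | leaf, y, h => absurd rfl h
  | node l r, y, h => by
      revert h
      refine node_cases (P := fun y => y ≠ (node l r).root →
        ¬ (node l r).IsLf ((node l r).par y)) ?_ ?_ ?_ y
      · intro h; exact absurd rfl h
      · intro z _
        rw [par_il]
        by_cases hz : z = l.root
        · simp [hz]
        · simpa [hz] using not_isLf_par l z hz
      · intro z _
        rw [par_ir]
        by_cases hz : z = r.root
        · simp [hz]
        · simpa [hz] using not_isLf_par r z hz

/-- depth -/
def depth : (t : BT) → t.V → ℕ
  | leaf, _ => 0
  | node _ _, none => 0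
  | node l _, some (Sum.inl x) => l.depth x + 1
  | node _ r, some (Sum.inr x) => r.depth x + 1

@[simp] theorem depth_tp {l r : BT} : (node l r).depth tp = 0 := rfl
@[simp] theorem depth_il {l r : BT} (x : l.V) : (node l r).depth (il x) = l.depth x + 1 := rfl
@[simp] theorem depth_ir {l r : BT} (x : r.V) : (node l r).depth (ir x) = r.depth x + 1 := rfl

theorem depth_root : (t : BT) → t.depth t.root = 0
  | leaf => rfl
  | node _ _ => rfl

theorem depth_par : (t : BT) → (y : t.V) → y ≠ t.root → t.depth (t.par y) + 1 = t.depth y
  | leaf, y, h => absurd rfl h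
  | node l r, y, h => by
      revert h
      refine node_cases (P := fun y => y ≠ (node l r).root →
        (node l r).depth ((node l r).par y) + 1 = (node l r).depth y) ?_ ?_ ?_ y
      · intro h; exact absurd rfl h
      · intro z _
        rw [par_il]
        by_cases hz : z = l.root
        · simp [hz, depth_root]
        · have := depth_par l z hz
          simp [hz]; omega
      · intro z _
        rw [par_ir]
        by_cases hz : z = r.root
        · simp [hz, depth_root]
        · have := depth_par r z hz
          simp [hz]; omega

theorem isLf_root_iff : (t : BT) → (t.IsLf t.root ↔ t = leaf)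
  | leaf => by simp
  | node l r => by simp [root_node]

/-- Boolean distance -/
def dB (a b : Bool) : ℕ := if a = b then 0 else 1

theorem dB_comm (a b : Bool) : dB a b = dB b a := by cases a <;> cases b <;> rfl
theorem dB_tri (a b c : Bool) : dB a c ≤ dB a b + dB b c := by
  cases a <;> cases b <;> cases c <;> simp [dB]
@[simp] theorem dB_self (a : Bool) : dB a a = 0 := by simp [dB]
theorem dB_le (a b : Bool) : dB a b ≤ 1 := by cases a <;> cases b <;> simp [dB]
theorem dB_eq_zero {a b : Bool} : dB a b = 0 ↔ a = b := by
  cases a <;> cases b <;> simp [dB]
theorem dB_eq_one {a b : Bool} : dB a b = 1 ↔ a = !b := by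
  cases a <;> cases b <;> simp [dB]

/-- number of tree edges crossing the cut `X` -/
def cr : (t : BT) → (t.V → Bool) → ℕ
  | leaf, _ => 0
  | node l r, X => cr l (fun x => X (il x)) + cr r (fun x => X (ir x)) +
      dB (X (il l.root)) (X tp) + dB (X (ir r.root)) (X tp)

@[simp] theorem cr_leaf (X : leaf.V → Bool) : leaf.cr X = 0 := rfl
theorem cr_node (l r : BT) (X : (node l r).V → Bool) :
    (node l r).cr X = cr l (fun x => X (il x)) + cr r (fun x => X (ir x)) +
      dB (X (il l.root)) (X tp) + dB (X (ir r.root)) (X tp) := rfl

theorem cr_eq_sum : (t : BT) → (X : t.V → Bool) →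
    t.cr X = ∑ x : t.V, if x = t.root then 0 else dB (X x) (X (t.par x))
  | leaf, X => by
      simp only [cr_leaf]
      symm
      apply Finset.sum_eq_zero
      intro x _
      exact if_pos (leaf_eq_root x)
  | node l r, X => by
      have h : (∑ x : (node l r).V, if x = (node l r).root then 0
          else dB (X x) (X ((node l r).par x))) =
          (0 : ℕ) + ((∑ x : l.V, dB (X (il x)) (X ((node l r).par (il x)))) +
            ∑ x : r.V, dB (X (ir x)) (X ((node l r).par (ir x)))) := by
        have h1 : (∑ x : (node l r).V, if x = (node l r).root then 0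
          else dB (X x) (X ((node l r).par x))) = ∑ x : Option (l.V ⊕ r.V),
            (if (x : (node l r).V) = (node l r).root then 0
              else dB (X x) (X ((node l r).par x))) := rfl
        rw [h1, Fintype.sum_option, Fintype.sum_sum_type]
        congr 1
      rw [h, cr_node, cr_eq_sum l, cr_eq_sum r, zero_add]
      have hl : (∑ x : l.V, dB (X (il x)) (X ((node l r).par (il x)))) =
          (∑ x : l.V, if x = l.root then 0 else dB (X (il x)) (X (il (l.par x)))) +
          dB (X (il l.root)) (X tp) := by
        have : ∀ x : l.V, dB (X (il x)) (X ((node l r).par (il x))) =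
            (if x = l.root then 0 else dB (X (il x)) (X (il (l.par x)))) +
            (if x = l.root then dB (X (il l.root)) (X tp) else 0) := by
          intro x
          by_cases hx : x = l.root <;> simp [hx]
        rw [Finset.sum_congr rfl (fun x _ => this x), Finset.sum_add_distrib]
        simp
      have hr : (∑ x : r.V, dB (X (ir x)) (X ((node l r).par (ir x)))) =
          (∑ x : r.V, if x = r.root then 0 else dB (X (ir x)) (X (ir (r.par x)))) +
          dB (X (ir r.root)) (X tp) := by
        have : ∀ x : r.V, dB (X (ir x)) (X ((node l r).par (ir x))) =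
            (if x = r.root then 0 else dB (X (ir x)) (X (ir (r.par x)))) +
            (if x = r.root then dB (X (ir r.root)) (X tp) else 0) := by
          intro x
          by_cases hx : x = r.root <;> simp [hx]
        rw [Finset.sum_congr rfl (fun x _ => this x), Finset.sum_add_distrib]
        simp
      rw [hl, hr]
      omega

end BT

end Pool.Agent.Helper1.Hist
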