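import Pool.Agent.Helper1.Hist.Iso

/-! Unfolding a finite tree with degrees 1 and 3 into `H B C`. -/

namespace Pool.Agent.Helper1.Hist

open BT

variable {V : Type*} {T : SimpleGraph V}

/-- `φ` is a local isomorphism of the rooted tree `t` into `T`, the root being mapped to `v` and
its upward neighbour being `r` -/
structure Unf (T : SimpleGraph V) (r v : V) (t : BT) (φ : t.V → V) : Prop where
  root : φ t.root = v
  lf : ∀ x, t.IsLf x → T.neighborSet (φ x) = {if x = t.root then r else φ (t.par x)}
  nd : ∀ x, ¬ t.IsLf x → T.neighborSet (φ x) =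
    {φ (t.lc x), φ (t.rc x), if x = t.root then r else φ (t.par x)} ∧
    φ (t.lc x) ≠ φ (t.rc x) ∧ φ (t.lc x) ≠ (if x = t.root then r else φ (t.par x)) ∧
    φ (t.rc x) ≠ (if x = t.root then r else φ (t.par x))

theorem three_cases {S : Set V} {r : V} (h : S.ncard = 3) (hr : r ∈ S) :
    ∃ a b, S = {a, b, r} ∧ a ≠ b ∧ a ≠ r ∧ b ≠ r := by
  obtain ⟨x, y, z, hxy, hxz, hyz, rfl⟩ := Set.ncard_eq_three.1 h
  simp only [Set.mem_insert_iff, Set.mem_singleton_iff] at hr
  rcases hr with rfl | rfl | rfl
  · refine ⟨y, z, ?_, hyz, hxy.symm, hxz.symm⟩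
    ext w; simp only [Set.mem_insert_iff, Set.mem_singleton_iff]; tauto
  · refine ⟨x, z, ?_, hxz, hxy, hyz.symm⟩
    ext w; simp only [Set.mem_insert_iff, Set.mem_singleton_iff]; tauto
  · exact ⟨x, y, rfl, hxy, hxz, hyz⟩

theorem exists_unf [Fintype V] (hT : T.IsAcyclic)
    (h13 : ∀ v, (T.neighborSet v).ncard = 1 ∨ (T.neighborSet v).ncard = 3) :
    ∀ (n : ℕ) (v r s : V) (h : T.Adj v r) (q : T.Walk r s),
      List.IsChain (· ≠ ·) (SimpleGraph.Walk.cons h q).edges →
      Fintype.card V ≤ n + (SimpleGraph.Walk.cons h q).length →
      ∃ (t : BT) (φ : t.V → V), Unf T r v t φ := by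
  intro n
  induction n with
  | zero =>
    intro v r s h q hc hl
    exfalso
    have hp := (hT.isPath_iff_isChain _).2 hc
    have := hp.length_lt
    omega
  | succ n ih =>
    intro v r s h q hc hl
    rcases h13 v with h1 | h3
    · obtain ⟨w, hw⟩ := Set.ncard_eq_one.1 h1
      have hr : r ∈ T.neighborSet v := h
      rw [hw, Set.mem_singleton_iff] at hr
      subst hr
      refine ⟨leaf, fun _ => v, rfl, ?_, ?_⟩
      · intro x _
        rw [if_pos (leaf_eq_root x)]
        exact hw
      · intro x hx
        exact absurd trivial hx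
    · obtain ⟨a, b, hab, n1, n2, n3⟩ := three_cases h3 (show r ∈ T.neighborSet v from h)
      have ha : T.Adj a v := by
        have : a ∈ T.neighborSet v := by rw [hab]; simp
        exact (T.mem_neighborSet v a).1 this |>.symm
      have hb : T.Adj b v := by
        have : b ∈ T.neighborSet v := by rw [hab]; simp
        exact (T.mem_neighborSet v b).1 this |>.symm
      have ext : ∀ a, T.Adj a v → a ≠ r → ∀ ha : T.Adj a v,
          List.IsChain (· ≠ ·) (SimpleGraph.Walk.cons ha (SimpleGraph.Walk.cons h q)).edges := by
        intro a _ har ha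
        rw [SimpleGraph.Walk.edges_cons, SimpleGraph.Walk.edges_cons, List.isChain_cons_cons]
        rw [SimpleGraph.Walk.edges_cons] at hc
        refine ⟨?_, hc⟩
        intro h'
        rw [Sym2.eq_iff] at h'
        rcases h' with ⟨h1, h2⟩ | ⟨h1, _⟩
        · exact ha.ne h1
        · exact har h1
      obtain ⟨ta, φa, ua⟩ := ih a v s ha (SimpleGraph.Walk.cons h q) (ext a ha n2 ha) (by
        rw [SimpleGraph.Walk.length_cons]; omega)
      obtain ⟨tb, φb, ub⟩ := ih b v s hb (SimpleGraph.Walk.cons h q) (ext b hb n3 hb) (by
        rw [SimpleGraph.Walk.length_cons]; omega)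
      let φ : (node ta tb).V → V := fun x =>
        match x with
        | none => v
        | some (Sum.inl x) => φa x
        | some (Sum.inr x) => φb x
      have f0 : φ tp = v := rfl
      have f1 : ∀ x, φ (il x) = φa x := fun _ => rfl
      have f2 : ∀ x, φ (ir x) = φb x := fun _ => rfl
      have g1 : ∀ x : ta.V, (if (il x : (node ta tb).V) = (node ta tb).root then r
          else φ ((node ta tb).par (il x))) = if x = ta.root then v else φa (ta.par x) := by
        intro x
        rw [root_node, if_neg il_ne_tp, par_il]
        by_cases hx : x = ta.root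
        · rw [if_pos hx, if_pos hx, f0]
        · rw [if_neg hx, if_neg hx, f1]
      have g2 : ∀ x : tb.V, (if (ir x : (node ta tb).V) = (node ta tb).root then r
          else φ ((node ta tb).par (ir x))) = if x = tb.root then v else φb (tb.par x) := by
        intro x
        rw [root_node, if_neg ir_ne_tp, par_ir]
        by_cases hx : x = tb.root
        · rw [if_pos hx, if_pos hx, f0]
        · rw [if_neg hx, if_neg hx, f2]
      refine ⟨node ta tb, φ, rfl, ?_, ?_⟩
      · intro x
        refine node_cases (P := fun x => (node ta tb).IsLf x → T.neighborSet (φ x) =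
          {if x = (node ta tb).root then r else φ ((node ta tb).par x)}) ?_ ?_ ?_ x
        · intro hx; exact absurd hx isLf_tp
        · intro y hy
          rw [g1]; exact ua.lf y hy
        · intro y hy
          rw [g2]; exact ub.lf y hy
      · intro x
        refine node_cases (P := fun x => ¬ (node ta tb).IsLf x → T.neighborSet (φ x) =
          {φ ((node ta tb).lc x), φ ((node ta tb).rc x),
            if x = (node ta tb).root then r else φ ((node ta tb).par x)} ∧
          φ ((node ta tb).lc x) ≠ φ ((node ta tb).rc x) ∧
          φ ((node ta tb).lc x) ≠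
            (if x = (node ta tb).root then r else φ ((node ta tb).par x)) ∧
          φ ((node ta tb).rc x) ≠
            (if x = (node ta tb).root then r else φ ((node ta tb).par x))) ?_ ?_ ?_ x
        · intro _
          rw [root_node, if_pos rfl, lc_tp, rc_tp, f1, f2, ua.root, ub.root, f0]
          exact ⟨hab, n1, n2, n3⟩
        · intro y hy
          rw [g1, lc_il, rc_il, f1, f1, f1]
          exact ua.nd y hy
        · intro y hy
          rw [g2, lc_ir, rc_ir, f2, f2, f2]
          exact ub.nd y hy

/-- local isomorphisms of a tree `H B C` -/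
structure LocIso {B C : BT} (T : SimpleGraph V) (Φ : W B C → V) : Prop where
  adj : ∀ u w, (H B C).Adj u w → T.Adj (Φ u) (Φ w)
  inj : ∀ u w w', (H B C).Adj u w → (H B C).Adj u w' → Φ w = Φ w' → w = w'
  surj : ∀ u z, T.Adj (Φ u) z → ∃ w, (H B C).Adj u w ∧ Φ w = z

theorem exists_locIso [Fintype V] (hT : T.IsAcyclic)
    (h13 : ∀ v, (T.neighborSet v).ncard = 1 ∨ (T.neighborSet v).ncard = 3) {r v : V}
    (h : T.Adj r v) : ∃ (B C : BT) (Φ : W B C → V), LocIso T Φ := by
  obtain ⟨B, φB, uB⟩ := exists_unf hT h13 (Fintype.card V) r v v h SimpleGraph.Walk.nil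
    (by simp) (by simp)
  obtain ⟨C, φC, uC⟩ := exists_unf hT h13 (Fintype.card V) v r r h.symm SimpleGraph.Walk.nil
    (by simp) (by simp)
  -- `B` is rooted at `r`, `C` is rooted at `v`
  let Φ : W B C → V := Sum.elim φB φC
  have e1 : ∀ x : B.V, (if x = B.root then v else φB (B.par x)) = Φ (up (Sum.inl x)) := by
    intro x
    by_cases hx : x = B.root
    · simp [up, hx, Φ, uC.root]
    · simp [up, hx, Φ]
  have e2 : ∀ x : C.V, (if x = C.root then r else φC (C.par x)) = Φ (up (Sum.inr x)) := by
    intro x
    by_cases hx : x = C.root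
    · simp [up, hx, Φ, uB.root]
    · simp [up, hx, Φ]
  have lf : ∀ u : W B C, IsLfW u → T.neighborSet (Φ u) = {Φ (up u)} := by
    rintro (x | x) hx
    · have := uB.lf x hx
      rw [e1] at this; exact this
    · have := uC.lf x hx
      rw [e2] at this; exact this
  have nd : ∀ u : W B C, ¬ IsLfW u → T.neighborSet (Φ u) = {Φ (lcW u), Φ (rcW u), Φ (up u)} ∧
      Φ (lcW u) ≠ Φ (rcW u) ∧ Φ (lcW u) ≠ Φ (up u) ∧ Φ (rcW u) ≠ Φ (up u) := by
    rintro (x | x) hx
    · have := uB.nd x hx
      rw [e1] at this; exact this
    · have := uC.nd x hx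
      rw [e2] at this; exact this
  have up_adj : ∀ u : W B C, T.Adj (Φ u) (Φ (up u)) := by
    intro u
    rw [← SimpleGraph.mem_neighborSet]
    by_cases hu : IsLfW u
    · rw [lf u hu]; simp
    · rw [(nd u hu).1]; simp
  -- adjacency of a leaf
  have adjlf : ∀ u w : W B C, IsLfW u → (H B C).Adj u w → Φ w = Φ (up u) := by
    intro u w hu hw
    rcases H_adj.1 hw with h | h
    · rw [h]
    · have h1 := up_adj w
      rw [h] at h1
      have h2 : Φ w ∈ T.neighborSet (Φ u) := h1.symm
      rw [lf u hu] at h2
      exact h2
  refine ⟨B, C, Φ, ?_, ?_, ?_⟩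
  · intro u w huw
    rcases H_adj.1 huw with h | h
    · rw [← h]; exact up_adj u
    · rw [← h]; exact (up_adj w).symm
  · intro u w w' hw hw' he
    by_cases hu : IsLfW u
    · -- the only neighbour of a leaf is its upward neighbour
      have key : ∀ w, (H B C).Adj u w → w = up u := by
        intro w hw
        rcases H_adj.1 hw with h | h
        · exact h.symm
        · -- `up w = u` is a leaf, so `u` is a root
          by_contra hne
          rcases u with x | x <;> rcases w with y | y
          · by_cases hy : y = B.root
            · simp [up, hy] at h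
            · simp only [up, if_neg hy] at h
              exact not_isLf_par B y hy (by rw [Sum.inl.inj h]; exact hu)
          · by_cases hy : y = C.root
            · simp only [up, if_pos hy] at h
              apply hne
              rw [← Sum.inl.inj h, hy]; simp [up]
            · simp [up, hy] at h
          · by_cases hy : y = B.root
            · simp only [up, if_pos hy] at h
              apply hne
              rw [← Sum.inr.inj h, hy]; simp [up]
            · simp [up, hy] at h
          · by_cases hy : y = C.root
            · simp [up, hy] at h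
            · simp only [up, if_neg hy] at h
              exact not_isLf_par C y hy (by rw [Sum.inr.inj h]; exact hu)
      rw [key w hw, key w' hw']
    · obtain ⟨_, d1, d2, d3⟩ := nd u hu
      rcases (H_adj_nonleaf hu).1 hw with h | h | h <;>
      rcases (H_adj_nonleaf hu).1 hw' with h' | h' | h' <;>
      rw [h, h'] at he ⊢
      · exact absurd he d1
      · exact absurd he d2
      · exact absurd he.symm d1
      · exact absurd he d3
      · exact absurd he.symm d2
      · exact absurd he.symm d3
  · intro u z hz
    have hz' : z ∈ T.neighborSet (Φ u) := hz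
    by_cases hu : IsLfW u
    · rw [lf u hu] at hz'
      exact ⟨up u, Or.inl rfl, hz'.symm⟩
    · rw [(nd u hu).1] at hz'
      rcases hz' with h | h | h
      · exact ⟨lcW u, (H_adj_nonleaf hu).2 (Or.inl rfl), h.symm⟩
      · exact ⟨rcW u, (H_adj_nonleaf hu).2 (Or.inr (Or.inl rfl)), h.symm⟩
      · exact ⟨up u, (H_adj_nonleaf hu).2 (Or.inr (Or.inr rfl)), h.symm⟩

theorem H_connected (B C : BT) : (H B C).Connected := by
  have hB : ∀ n, ∀ x : B.V, B.depth x = n → (H B C).Reachable (Sum.inl x) (Sum.inl B.root) := by
    intro n
    induction n with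
    | zero =>
      intro x hx
      by_cases h : x = B.root
      · rw [h]
      · have := depth_par B x h
        omega
    | succ n ih =>
      intro x hx
      have h : x ≠ B.root := by
        rintro rfl
        rw [depth_root] at hx; omega
      have h1 := ih (B.par x) (by have := depth_par B x h; omega)
      have h2 : (H B C).Adj (Sum.inl x) (Sum.inl (B.par x)) := by
        left; simp [up, h]
      exact h2.reachable.trans h1
  have hC : ∀ n, ∀ x : C.V, C.depth x = n → (H B C).Reachable (Sum.inr x) (Sum.inr C.root) := by
    intro n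
    induction n with
    | zero =>
      intro x hx
      by_cases h : x = C.root
      · rw [h]
      · have := depth_par C x h
        omega
    | succ n ih =>
      intro x hx
      have h : x ≠ C.root := by
        rintro rfl
        rw [depth_root] at hx; omega
      have h1 := ih (C.par x) (by have := depth_par C x h; omega)
      have h2 : (H B C).Adj (Sum.inr x) (Sum.inr (C.par x)) := by
        left; simp [up, h]
      exact h2.reachable.trans h1
  have hBC : (H B C).Adj (Sum.inl B.root) (Sum.inr C.root) := by
    left; simp [up]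
  have : Nonempty (W B C) := ⟨Sum.inl B.root⟩
  have all : ∀ u : W B C, (H B C).Reachable u (Sum.inr C.root) := by
    rintro (x | x)
    · exact (hB _ x rfl).trans hBC.reachable
    · exact hC _ x rfl
  exact ⟨fun u v => (all u).trans (all v).symm⟩

theorem locIso_iso {B C : BT} {Φ : W B C → V} (hT : T.IsTree) (hΦ : LocIso T Φ) :
    Nonempty (H B C ≃g T) := by
  have hsurj : Function.Surjective Φ := by
    intro z
    have h0 : T.Reachable (Φ (Sum.inl B.root)) z := hT.1.preconnected _ _
    obtain ⟨p⟩ := h0
    have key : ∀ (a b : V) (p : T.Walk a b), (∃ u, Φ u = a) → ∃ u, Φ u = b := by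
      intro a b p
      induction p with
      | nil => exact id
      | cons h _ ih =>
        rintro ⟨u, rfl⟩
        obtain ⟨w, _, hw⟩ := hΦ.surj u _ h
        exact ih ⟨w, hw⟩
    exact key _ _ p ⟨_, rfl⟩
  have hinj : Function.Injective Φ := by
    intro u w huw
    obtain ⟨p, hp⟩ := ((H_connected B C).preconnected u w).exists_isPath
    let f : H B C →g T := ⟨Φ, fun h => hΦ.adj _ _ h⟩
    have hchain : List.IsChain (· ≠ ·) (p.map f).edges := by
      clear huw
      induction p with
      | nil => simp
      | @cons a b c h q ih =>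
        rw [SimpleGraph.Walk.map_cons, SimpleGraph.Walk.edges_cons]
        rw [SimpleGraph.Walk.cons_isPath_iff] at hp
        have ih' := ih hp.1
        cases q with
        | nil => simp
        | @cons _ d _ h' q' =>
          rw [SimpleGraph.Walk.map_cons, SimpleGraph.Walk.edges_cons] at ih' ⊢
          rw [List.isChain_cons_cons]
          refine ⟨?_, ih'⟩
          intro he
          rw [Sym2.eq_iff] at he
          have hne : f a ≠ f b := (hΦ.adj _ _ h).ne
          rcases he with ⟨h1, _⟩ | ⟨h1, _⟩
          · exact hne h1
          · have := hΦ.inj b a d h.symm h' h1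
            apply hp.2
            rw [this, SimpleGraph.Walk.support_cons]
            simp
    have hpath := (hT.2.isPath_iff_isChain _).2 hchain
    have huw' : f u = f w := huw
    have hl : (p.map f).length = 0 := by
      have key : ∀ (a b : V) (q : T.Walk a b), a = b → q.IsPath → q.length = 0 := by
        intro a b q hab hq
        subst hab
        exact SimpleGraph.Walk.length_eq_zero_iff.2 (SimpleGraph.Walk.isPath_iff_nil.1 hq)
      exact key _ _ _ huw' hpath
    rw [SimpleGraph.Walk.length_map] at hl
    exact SimpleGraph.Walk.eq_of_length_eq_zero hl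
  refine ⟨⟨Equiv.ofBijective Φ ⟨hinj, hsurj⟩, ?_⟩⟩
  intro a b
  constructor
  · intro hab
    obtain ⟨w, hw, he⟩ := hΦ.surj a _ hab
    rw [← hinj he]
    exact hw
  · intro hab
    exact hΦ.adj _ _ hab

end Pool.Agent.Helper1.Hist
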